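import Pool.Agent.L5helper87.FL.Sy

/-!
# The number of the bad restrictions
-/

set_option autoImplicit false

open Finset

namespace Pool.Agent.L5helper87.FL

section
variable {P H J : Type} [Fintype P] [DecidableEq P] [Fintype H] [DecidableEq H] [Fintype J]
  [DecidableEq J]

/-- the sample space -/
def Om (P H : Type) [Fintype P] [DecidableEq P] [Fintype H] [DecidableEq H] (a : ℕ) :
    Finset ((P ≃ Option H) × Finset H) := univ ×ˢ powersetCard a univ

theorem card_Om (hN : Fintype.card P = Fintype.card H + 1) (a : ℕ) :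
    (Om P H a).card = (Fintype.card P).factorial * (Fintype.card H).choose a := by
  have h1 : Nonempty (P ≃ Option H) := by
    apply Fintype.card_eq.1
    rw [Fintype.card_option, hN]
  obtain ⟨e⟩ := h1
  rw [Om, Finset.card_product, Finset.card_univ, Fintype.card_equiv e, Finset.card_powersetCard,
    Finset.card_univ]

theorem union_bound {ι Ω : Type} [DecidableEq Ω] (I : Finset ι) (Q : ι → Ω → Prop)
    [∀ i, DecidablePred (Q i)] (X : Finset Ω) (hX : ∀ t ∈ X, ∃ i ∈ I, Q i t) :
    X.card ≤ ∑ i ∈ I, (X.filter (Q i)).card := by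
  refine le_trans (Finset.card_le_card ?_) (Finset.card_biUnion_le)
  intro t ht
  obtain ⟨i, hi, hQ⟩ := hX t ht
  exact Finset.mem_biUnion.2 ⟨i, hi, Finset.mem_filter.2 ⟨ht, hQ⟩⟩

theorem alive_count (hN : Fintype.card P = Fintype.card H + 1) (h₀ : H) (S : Finset P)
    (hj : 2 * S.card ^ 2 ≤ Fintype.card P) (K : Finset (Option H)) :
    (univ.filter fun e : P ≃ Option H => ∀ p ∈ S, e p ∈ K).card * Fintype.card P ^ S.card ≤
      2 * (Fintype.card P).factorial * K.card ^ S.card := by
  haveI : Nonempty H := ⟨h₀⟩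
  have h1 := bij_count hN h₀ S ∅ (Finset.disjoint_empty_right _) (by simpa using hj) K
    (fun _ => True) (fun _ _ _ h => h)
  simp only [Finset.notMem_empty, false_implies, implies_true, and_true, Finset.filter_true,
    Finset.card_univ] at h1
  exact Nat.le_of_mul_le_mul_right h1 Fintype.card_pos

theorem om_filter (a : ℕ) (Q : (P ≃ Option H) → Finset H → Prop)
    [∀ e, DecidablePred (Q e)] :
    ((Om P H a).filter fun t => Q t.1 t.2).card =
      ∑ K ∈ powersetCard a univ, (univ.filter fun e : P ≃ Option H => Q e K).card := by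
  rw [Om, Finset.card_filter, Finset.sum_product_right]
  apply Finset.sum_congr rfl
  intro K _
  rw [Finset.card_filter]

theorem om_count (hN : Fintype.card P = Fintype.card H + 1) (h₀ : H) (a : ℕ) (S : Finset P)
    (hj : 2 * S.card ^ 2 ≤ Fintype.card P) :
    ((Om P H a).filter fun t => ∀ p ∈ S, t.1 p ∈ Finset.insertNone t.2).card *
      Fintype.card P ^ S.card ≤ 2 * (Om P H a).card * (a + 1) ^ S.card := by
  have h0 : ((Om P H a).filter fun t => ∀ p ∈ S, t.1 p ∈ Finset.insertNone t.2).card =
      ∑ K ∈ powersetCard a univ,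
        (univ.filter fun e : P ≃ Option H => ∀ p ∈ S, e p ∈ Finset.insertNone K).card := by
    convert om_filter (P := P) (H := H) a (fun e K => ∀ p ∈ S, e p ∈ Finset.insertNone K) using 1
  rw [h0, Finset.sum_mul]
  have h1 : ∀ K ∈ powersetCard a (univ : Finset H),
      (univ.filter fun e : P ≃ Option H => ∀ p ∈ S, e p ∈ Finset.insertNone K).card *
        Fintype.card P ^ S.card ≤ 2 * (Fintype.card P).factorial * (a + 1) ^ S.card := by
    intro K hK
    have h2 := alive_count hN h₀ S hj (Finset.insertNone K)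
    rw [Finset.card_insertNone, (Finset.mem_powersetCard.1 hK).2] at h2
    exact h2
  refine (Finset.sum_le_sum h1).trans (le_of_eq ?_)
  rw [Finset.sum_const, smul_eq_mul, Finset.card_powersetCard, Finset.card_univ, card_Om hN]
  ring

open Classical in
/-- the number of the restrictions of the first kind -/
theorem bad1_count (hN : Fintype.card P = Fintype.card H + 1) (h₀ : H) (V : J → Finset P)
    (a k q : ℕ) (hj : 2 * q ^ 2 ≤ Fintype.card P) :
    ((Om P H a).filter fun t => Bad1 V k q t.1 t.2).card * Fintype.card P ^ q ≤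
      2 * (Om P H a).card * ((a + 1) * (hv V k).card) ^ q := by
  have h1 := union_bound ((Fintype.piFinset fun _ : Fin q => hv V k).filter Function.Injective)
    (fun i (t : (P ≃ Option H) × Finset H) => ∀ p ∈ univ.image i, t.1 p ∈ Finset.insertNone t.2)
    ((Om P H a).filter fun t => Bad1 V k q t.1 t.2) (by
      intro t ht
      obtain ⟨-, i, hi, hi'⟩ := Finset.mem_filter.1 ht
      refine ⟨i, Finset.mem_filter.2 ⟨Fintype.mem_piFinset.2 fun l => (hi' l).1, hi⟩, ?_⟩
      intro p hp
      obtain ⟨l, -, rfl⟩ := Finset.mem_image.1 hp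
      exact (hi' l).2)
  have h2 : ∀ i ∈ (Fintype.piFinset fun _ : Fin q => hv V k).filter Function.Injective,
      (((Om P H a).filter fun t => Bad1 V k q t.1 t.2).filter fun t =>
        ∀ p ∈ univ.image i, t.1 p ∈ Finset.insertNone t.2).card * Fintype.card P ^ q ≤
      2 * (Om P H a).card * (a + 1) ^ q := by
    intro i hi
    have hc : (univ.image i).card = q := by
      rw [Finset.card_image_of_injective _ (Finset.mem_filter.1 hi).2]; simp
    have h3 := om_count hN h₀ a (univ.image i) (by rw [hc]; exact hj)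
    rw [hc] at h3
    refine le_trans (Nat.mul_le_mul_right _ (Finset.card_le_card ?_)) h3
    apply Finset.filter_subset_filter
    exact Finset.filter_subset _ _
  have h3 : ((Fintype.piFinset fun _ : Fin q => hv V k).filter Function.Injective).card ≤
      (hv V k).card ^ q := by
    refine (Finset.card_filter_le _ _).trans (le_of_eq ?_)
    rw [Fintype.card_piFinset]; simp
  calc _ ≤ (∑ i ∈ (Fintype.piFinset fun _ : Fin q => hv V k).filter Function.Injective,
        (((Om P H a).filter fun t => Bad1 V k q t.1 t.2).filter fun t =>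
        ∀ p ∈ univ.image i, t.1 p ∈ Finset.insertNone t.2).card) * Fintype.card P ^ q :=
        Nat.mul_le_mul_right _ h1
    _ ≤ ((Fintype.piFinset fun _ : Fin q => hv V k).filter Function.Injective).card *
        (2 * (Om P H a).card * (a + 1) ^ q) := by
        rw [Finset.sum_mul]
        refine (Finset.sum_le_sum h2).trans (le_of_eq ?_)
        rw [Finset.sum_const, smul_eq_mul]
    _ ≤ (hv V k).card ^ q * (2 * (Om P H a).card * (a + 1) ^ q) := Nat.mul_le_mul_right _ h3
    _ = _ := by rw [mul_pow]; ring

/-- the heavy pigeons are few -/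
theorem hv_card (V : J → Finset P) (k : ℕ) : k * (hv V k).card ≤ ∑ j, (V j).card := by
  have h1 : ∑ j, (V j).card = ∑ p, (univ.filter fun j => p ∈ V j).card := by
    simp only [Finset.card_eq_sum_ones, Finset.sum_filter]
    rw [Finset.sum_comm]
    apply Finset.sum_congr rfl
    intro j _
    rw [← Finset.sum_filter]
    congr 1
    ext p
    simp
  rw [h1, mul_comm, ← smul_eq_mul]
  refine (Finset.card_nsmul_le_sum (hv V k) (fun p => (univ.filter fun j => p ∈ V j).card) k
    (fun p hp => (Finset.mem_filter.1 hp).2.le)).trans ?_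
  exact Finset.sum_le_sum_of_subset (Finset.subset_univ _)

open Classical in
/-- the pairs in common pieces are few -/
theorem cm_card (V : J → Finset P) (k l : ℕ) (hV : ∀ j, (V j).card ≤ l) :
    (univ.filter fun c : P × P => c.1 ∉ hv V k ∧ Cm V c.1 c.2).card ≤
      Fintype.card P * (k * l) := by
  have hk : ∀ p, p ∉ hv V k → (univ.filter fun j => p ∈ V j).card ≤ k := by
    intro p hp
    by_contra hcon
    push Not at hcon
    exact hp (Finset.mem_filter.2 ⟨Finset.mem_univ _, hcon⟩)
  have h1 : ∀ i : P, (univ.filter fun i' : P => i ∉ hv V k ∧ Cm V i i').card ≤ k * l := by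
    intro i
    by_cases hi : i ∈ hv V k
    · simp [hi]
    have h2 : (univ.filter fun i' : P => i ∉ hv V k ∧ Cm V i i') ⊆
        (univ.filter fun j => i ∈ V j).biUnion V := by
      intro i' hi'
      obtain ⟨-, -, g, h3, h4⟩ := Finset.mem_filter.1 hi'
      simp only [Finset.mem_biUnion, Finset.mem_filter, Finset.mem_univ, true_and]
      exact ⟨g, h3, h4⟩
    refine (Finset.card_le_card h2).trans ?_
    refine (Finset.card_biUnion_le_card_mul _ _ l (fun j _ => hV j)).trans ?_
    exact Nat.mul_le_mul_right _ (hk i hi)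
  rw [Finset.card_filter, Fintype.sum_prod_type]
  calc _ ≤ ∑ _i : P, k * l := by
        apply Finset.sum_le_sum
        intro i _
        rw [← Finset.card_filter]
        exact h1 i
    _ = _ := by simp

open Classical in
/-- the number of the restrictions of the second kind -/
theorem bad2_count (hN : Fintype.card P = Fintype.card H + 1) (h₀ : H) (V : J → Finset P)
    (a k l q : ℕ) (hV : ∀ j, (V j).card ≤ l) (hj : 2 * (2 * q) ^ 2 ≤ Fintype.card P) :
    ((Om P H a).filter fun t => Bad2 V k q t.1 t.2).card * Fintype.card P ^ (2 * q) ≤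
      2 * (Om P H a).card * ((a + 1) ^ 2 * (Fintype.card P * (k * l))) ^ q := by
  set E2 := univ.filter fun c : P × P => c.1 ∉ hv V k ∧ Cm V c.1 c.2 with hE2
  set I2 := (Fintype.piFinset fun _ : Fin q => E2).filter fun c =>
    (∀ l, (c l).1 ≠ (c l).2) ∧
    ∀ l l', l ≠ l' → Disjoint ({(c l).1, (c l).2} : Finset P) {(c l').1, (c l').2} with hI2
  set S : (Fin q → P × P) → Finset P := fun c => univ.biUnion fun l => {(c l).1, (c l).2} with hS
  have h1 := union_bound I2
    (fun c (t : (P ≃ Option H) × Finset H) => ∀ p ∈ S c, t.1 p ∈ Finset.insertNone t.2)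
    ((Om P H a).filter fun t => Bad2 V k q t.1 t.2) (by
      intro t ht
      obtain ⟨-, c, hc1, hc2⟩ := Finset.mem_filter.1 ht
      refine ⟨c, Finset.mem_filter.2 ⟨Fintype.mem_piFinset.2 fun l => ?_,
        fun l => (hc1 l).1, hc2⟩, ?_⟩
      · exact Finset.mem_filter.2 ⟨Finset.mem_univ _, (hc1 l).2.1⟩
      intro p hp
      obtain ⟨l, -, hl⟩ := Finset.mem_biUnion.1 hp
      rcases Finset.mem_insert.1 hl with rfl | hl
      · exact (hc1 l).2.2.1
      · rw [Finset.mem_singleton.1 hl]; exact (hc1 l).2.2.2)
  have h2 : ∀ c ∈ I2,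
      (((Om P H a).filter fun t => Bad2 V k q t.1 t.2).filter fun t =>
        ∀ p ∈ S c, t.1 p ∈ Finset.insertNone t.2).card * Fintype.card P ^ (2 * q) ≤
      2 * (Om P H a).card * (a + 1) ^ (2 * q) := by
    intro c hc
    obtain ⟨-, hc1, hc2⟩ := Finset.mem_filter.1 hc
    have hcS : (S c).card = 2 * q := by
      rw [hS]
      simp only
      rw [Finset.card_biUnion (fun l _ l' _ hne => hc2 l l' hne)]
      rw [Finset.sum_congr rfl fun l _ => Finset.card_pair (hc1 l)]
      simp [mul_comm]
    have h3 := om_count hN h₀ a (S c) (by rw [hcS]; exact hj)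
    rw [hcS] at h3
    refine le_trans (Nat.mul_le_mul_right _ (Finset.card_le_card ?_)) h3
    apply Finset.filter_subset_filter
    exact Finset.filter_subset _ _
  have h3 : I2.card ≤ (Fintype.card P * (k * l)) ^ q := by
    refine (Finset.card_filter_le _ _).trans ?_
    rw [Fintype.card_piFinset]
    simp only [Finset.prod_const, Finset.card_univ, Fintype.card_fin]
    exact Nat.pow_le_pow_left (cm_card V k l hV) q
  calc _ ≤ (∑ c ∈ I2, (((Om P H a).filter fun t => Bad2 V k q t.1 t.2).filter fun t =>
        ∀ p ∈ S c, t.1 p ∈ Finset.insertNone t.2).card) * Fintype.card P ^ (2 * q) :=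
        Nat.mul_le_mul_right _ h1
    _ ≤ I2.card * (2 * (Om P H a).card * (a + 1) ^ (2 * q)) := by
        rw [Finset.sum_mul]
        refine (Finset.sum_le_sum h2).trans (le_of_eq ?_)
        rw [Finset.sum_const, smul_eq_mul]
    _ ≤ (Fintype.card P * (k * l)) ^ q * (2 * (Om P H a).card * (a + 1) ^ (2 * q)) :=
        Nat.mul_le_mul_right _ h3
    _ = _ := by rw [mul_pow ((a + 1) ^ 2), ← pow_mul]; ring

end

end Pool.Agent.L5helper87.FL
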