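import Pool.Agent.L5helper87.FL.Cn

/-!
# The number of the restrictions of the third kind
-/

set_option autoImplicit false

open Finset

namespace Pool.Agent.L5helper87.FL

section
variable {P H J : Type} [Fintype P] [DecidableEq P] [Fintype H] [DecidableEq H] [Fintype J]
  [DecidableEq J]

theorem Mn_congr {F G : (P → H) → Bool} {w w' : P → H} {i : P}
    (h : ∀ x, F (Function.update w i x) = G (Function.update w' i x)) : Mn F w i = Mn G w' i := by
  unfold Mn maj
  simp only [h]

/-- the exposed pigeons of a list of triples -/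
def Dl (V : J → Finset P) (B : Finset P) : List ((J × Bool) × P × H) → Finset P
  | [] => ∅
  | a :: L => ((V a.1.1 \ B).erase a.2.1) ∪ Dl V B L

/-- the event of a list of triples -/
def Rl (V : J → Finset P) (F : J → Bool → (P → H) → Bool) (B : Finset P) (z : P → H) (h₀ : H) :
    List ((J × Bool) × P × H) → (P ≃ Option H) → Prop
  | [], _ => True
  | a :: L, e => Rl V F B z h₀ L e ∧ (a.2.1 ∈ V a.1.1 \ B ∧ a.2.1 ∉ Dl V B L) ∧
      (∀ d ∈ V a.1.1 \ B, d ≠ a.2.1 → e d ≠ some a.2.2) ∧ (∀ d ∈ Dl V B L, e d ≠ some a.2.2) ∧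
      a.2.2 ∈ Mn (FB F B z a.1) (xa h₀ e) a.2.1

theorem FB_dep {V : J → Finset P} {F : J → Bool → (P → H) → Bool}
    (hF : ∀ j σ w w', (∀ p ∈ V j, w p = w' p) → F j σ w = F j σ w') (B : Finset P) (z : P → H)
    (s : J × Bool) (w w' : P → H) (h : ∀ p ∈ V s.1 \ B, w p = w' p) :
    FB F B z s w = FB F B z s w' := by
  apply hF
  intro p hp
  unfold mix
  split_ifs with hB
  · rfl
  · exact h p (Finset.mem_sdiff.2 ⟨hp, hB⟩)

theorem Rl_dep {V : J → Finset P} {F : J → Bool → (P → H) → Bool}
    (hF : ∀ j σ w w', (∀ p ∈ V j, w p = w' p) → F j σ w = F j σ w') (B : Finset P) (z : P → H)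
    (h₀ : H) (L : List ((J × Bool) × P × H)) (e e' : P ≃ Option H) :
    (∀ d ∈ Dl V B L, e d = e' d) → Rl V F B z h₀ L e → Rl V F B z h₀ L e' := by
  induction L with
  | nil => intro _ _; trivial
  | cons a L ih =>
    rintro h ⟨h1, h2, h3, h4, h5⟩
    have hD : ∀ d ∈ Dl V B L, e d = e' d := fun d hd => h d (Finset.mem_union_right _ hd)
    have hE : ∀ d ∈ V a.1.1 \ B, d ≠ a.2.1 → e d = e' d := fun d hd hda =>
      h d (Finset.mem_union_left _ (Finset.mem_erase.2 ⟨hda, hd⟩))
    refine ⟨ih hD h1, h2, ?_, ?_, ?_⟩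
    · intro d hd hda
      rw [← hE d hd hda]; exact h3 d hd hda
    · intro d hd
      rw [← hD d hd]; exact h4 d hd
    · rw [Mn_congr (G := FB F B z a.1) (w' := xa h₀ e)]
      · exact h5
      · intro x
        apply FB_dep hF
        intro p hp
        by_cases hpa : p = a.2.1
        · rw [hpa]; simp
        · rw [Function.update_of_ne hpa, Function.update_of_ne hpa, xa, xa, hE p hp hpa]

theorem Dl_card {V : J → Finset P} {l : ℕ} (hV : ∀ j, (V j).card ≤ l) (B : Finset P)
    (L : List ((J × Bool) × P × H)) : (Dl V B L).card ≤ L.length * l := by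
  induction L with
  | nil => simp [Dl]
  | cons a L ih =>
    have h1 : ((V a.1.1 \ B).erase a.2.1).card ≤ l :=
      (Finset.card_le_card ((Finset.erase_subset _ _).trans Finset.sdiff_subset)).trans (hV _)
    have h2 : (Dl V B (a :: L)).card ≤ ((V a.1.1 \ B).erase a.2.1).card + (Dl V B L).card :=
      Finset.card_union_le _ _
    rw [List.length_cons, Nat.add_mul, Nat.one_mul]
    omega

open Classical in
/-- one more triple -/
theorem seq_step (hN : Fintype.card P = Fintype.card H + 1) (h₀ : H) {V : J → Finset P}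
    {F : J → Bool → (P → H) → Bool} {l lam : ℕ} (hV : ∀ j, (V j).card ≤ l)
    (hF : ∀ j σ w w', (∀ p ∈ V j, w p = w' p) → F j σ w = F j σ w')
    (hL : ∀ j σ (B : Finset P) (z : P → H), LF (fun u => F j σ (mix B z u)) (lam ^ 2))
    (B : Finset P) (z : P → H) (L : List ((J × Bool) × P × H))
    (hsz : 4 * ((L.length + 1) * l) ≤ Fintype.card H) :
    Fintype.card H * ∑ a : (J × Bool) × P × H,
      (univ.filter fun e : P ≃ Option H => Rl V F B z h₀ (a :: L) e).card ≤
    (2 * Fintype.card J * (8 * Fintype.card P ^ 2 * lam)) *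
      (univ.filter fun e : P ≃ Option H => Rl V F B z h₀ L e).card := by
  rw [Fintype.sum_prod_type, Finset.mul_sum]
  have h1 : ∀ s : J × Bool, Fintype.card H * ∑ y : P × H,
      (univ.filter fun e : P ≃ Option H => Rl V F B z h₀ ((s, y) :: L) e).card ≤
      (8 * Fintype.card P ^ 2 * lam) *
      (univ.filter fun e : P ≃ Option H => Rl V F B z h₀ L e).card := by
    intro s
    have h2 := Dl_card hV B L
    have h3 : (V s.1 \ B).card ≤ l := (Finset.card_le_card Finset.sdiff_subset).trans (hV _)
    have h4 : 4 * ((V s.1 \ B).card + (Dl V B L).card) ≤ Fintype.card H := by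
      rw [Nat.add_mul, Nat.one_mul] at hsz
      omega
    have h5 := class_noise hN h₀ (F := FB F B z s) (hL s.1 s.2 B z) (V := V s.1 \ B)
      (D := Dl V B L) (FB_dep hF B z s) (fun e => Rl V F B z h₀ L e)
      (fun e e' => Rl_dep hF B z h₀ L e e') h4
    refine le_trans (Nat.mul_le_mul_left _ (le_of_eq ?_)) h5
    simp only [Finset.card_filter]
    rw [Finset.sum_comm]
    symm
    rw [Fintype.sum_prod_type]
    apply Finset.sum_congr rfl
    intro e _
    apply Finset.sum_congr rfl
    intro y _
    exact if_congr Iff.rfl rfl rfl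
  refine (Finset.sum_le_sum fun s _ => h1 s).trans (le_of_eq ?_)
  rw [Finset.sum_const, smul_eq_mul, Finset.card_univ, Fintype.card_prod, Fintype.card_bool]
  ring

open Classical in
/-- all sequences of triples -/
theorem seq_sum (hN : Fintype.card P = Fintype.card H + 1) (h₀ : H) {V : J → Finset P}
    {F : J → Bool → (P → H) → Bool} {l lam : ℕ} (hV : ∀ j, (V j).card ≤ l)
    (hF : ∀ j σ w w', (∀ p ∈ V j, w p = w' p) → F j σ w = F j σ w')
    (hL : ∀ j σ (B : Finset P) (z : P → H), LF (fun u => F j σ (mix B z u)) (lam ^ 2))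
    (B : Finset P) (z : P → H) (t : ℕ) (hsz : 4 * (t * l) ≤ Fintype.card H) :
    Fintype.card H ^ t * ∑ τ : Fin t → (J × Bool) × P × H,
      (univ.filter fun e : P ≃ Option H => Rl V F B z h₀ (List.ofFn τ) e).card ≤
    (2 * Fintype.card J * (8 * Fintype.card P ^ 2 * lam)) ^ t * (Fintype.card P).factorial := by
  induction t with
  | zero =>
    have h1 : Nonempty (P ≃ Option H) := by
      apply Fintype.card_eq.1
      rw [Fintype.card_option, hN]
    obtain ⟨e⟩ := h1
    simp [Rl, Fintype.card_equiv e]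
  | succ t ih =>
    have ih' := ih (by rw [Nat.add_mul, Nat.one_mul] at hsz; omega)
    have h1 : ∑ τ : Fin (t + 1) → (J × Bool) × P × H,
        (univ.filter fun e : P ≃ Option H => Rl V F B z h₀ (List.ofFn τ) e).card =
        ∑ τ : Fin t → (J × Bool) × P × H, ∑ a : (J × Bool) × P × H,
        (univ.filter fun e : P ≃ Option H => Rl V F B z h₀ (a :: List.ofFn τ) e).card := by
      rw [← (Fin.consEquiv (fun _ : Fin (t + 1) => (J × Bool) × P × H)).sum_comp,
        Fintype.sum_prod_type, Finset.sum_comm]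
      apply Finset.sum_congr rfl
      intro τ _
      apply Finset.sum_congr rfl
      intro a _
      simp [Fin.consEquiv, List.ofFn_succ]
    rw [h1, pow_succ, pow_succ]
    calc _ = Fintype.card H ^ t * ∑ τ : Fin t → (J × Bool) × P × H, Fintype.card H *
          ∑ a : (J × Bool) × P × H,
          (univ.filter fun e : P ≃ Option H => Rl V F B z h₀ (a :: List.ofFn τ) e).card := by
          rw [← Finset.mul_sum]; ring
      _ ≤ Fintype.card H ^ t * ∑ τ : Fin t → (J × Bool) × P × H,
          (2 * Fintype.card J * (8 * Fintype.card P ^ 2 * lam)) *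
          (univ.filter fun e : P ≃ Option H => Rl V F B z h₀ (List.ofFn τ) e).card := by
          apply Nat.mul_le_mul_left
          apply Finset.sum_le_sum
          intro τ _
          apply seq_step hN h₀ hV hF hL B z
          rw [List.length_ofFn]; exact hsz
      _ = (2 * Fintype.card J * (8 * Fintype.card P ^ 2 * lam)) * (Fintype.card H ^ t *
          ∑ τ : Fin t → (J × Bool) × P × H,
          (univ.filter fun e : P ≃ Option H => Rl V F B z h₀ (List.ofFn τ) e).card) := by
          rw [← Finset.mul_sum]; ring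
      _ ≤ (2 * Fintype.card J * (8 * Fintype.card P ^ 2 * lam)) *
          ((2 * Fintype.card J * (8 * Fintype.card P ^ 2 * lam)) ^ t *
          (Fintype.card P).factorial) := Nat.mul_le_mul_left _ ih'
      _ = _ := by ring

/-- noisy triples give the event of the list -/
theorem Rl_of_noisy {V : J → Finset P} {F : J → Bool → (P → H) → Bool} {B : Finset P} {z : P → H}
    {h₀ : H} {e : P ≃ Option H} {K : Finset H} (L : List ((J × Bool) × P × H)) :
    (∀ a ∈ L, Noisy V F B z h₀ e K a) →
    L.Pairwise (fun a a' => a.2.1 ∉ V a'.1.1 ∧ a'.2.1 ∉ V a.1.1) →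
    Rl V F B z h₀ L e ∧ ∀ d ∈ Dl V B L, e d ∉ Finset.insertNone K := by
  induction L with
  | nil => intro _ _; exact ⟨trivial, by simp [Dl]⟩
  | cons a L ih =>
    intro h1 h2
    rw [List.pairwise_cons] at h2
    obtain ⟨h3, h4⟩ := ih (fun a' ha' => h1 a' (List.mem_cons_of_mem _ ha')) h2.2
    obtain ⟨n1, n2, n3, n4, n5⟩ := h1 a (List.mem_cons_self)
    have hnot : ∀ L' : List ((J × Bool) × P × H), (∀ a' ∈ L', a.2.1 ∉ V a'.1.1) →
        a.2.1 ∉ Dl V B L' := by
      intro L'
      induction L' with
      | nil => intro _; simp [Dl]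
      | cons c L' ih' =>
        intro h hm
        rcases Finset.mem_union.1 hm with hm | hm
        · exact h c List.mem_cons_self (Finset.mem_sdiff.1 (Finset.mem_erase.1 hm).2).1
        · exact ih' (fun a' ha' => h a' (List.mem_cons_of_mem _ ha')) hm
    refine ⟨⟨h3, ⟨n1, hnot L fun a' ha' => (h2.1 a' ha').1⟩, ?_, ?_, n5⟩, ?_⟩
    · intro d hd hda hde
      apply n4 d hd hda
      rw [hde]
      exact Finset.some_mem_insertNone.2 n2
    · intro d hd hde
      apply h4 d hd
      rw [hde]
      exact Finset.some_mem_insertNone.2 n2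
    · intro d hd
      rcases Finset.mem_union.1 hd with hd | hd
      · obtain ⟨h5, h6⟩ := Finset.mem_erase.1 hd
        exact n4 d h6 h5
      · exact h4 d hd

open Classical in
/-- one more alive pigeon -/
theorem alive_step (hN : Fintype.card P = Fintype.card H + 1) {D : Finset P}
    (R : (P ≃ Option H) → Prop) (hR : ∀ e e', (∀ d ∈ D, e d = e' d) → R e → R e') {p : P}
    (hp : p ∉ D) (K : Finset (Option H)) :
    (univ.filter fun e : P ≃ Option H => R e ∧ e p ∈ K).card * (Fintype.card P - D.card) ≤
      K.card * (univ.filter fun e : P ≃ Option H => R e).card := by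
  have h1 : (univ \ D).card = Fintype.card P - D.card := by
    rw [Finset.card_sdiff_of_subset (Finset.subset_univ _), Finset.card_univ]
  rw [← h1, ← Finset.card_product, ← Finset.card_product]
  refine Finset.card_le_card_of_injOn (fun t => (t.1 p, mv t.1 p (t.1 t.2))) ?_ ?_
  · rintro ⟨e, p'⟩ ht
    obtain ⟨ht1, ht2⟩ := Finset.mem_product.1 (Finset.mem_coe.1 ht)
    obtain ⟨-, hRe, hK⟩ := Finset.mem_filter.1 ht1
    have hp' := (Finset.mem_sdiff.1 ht2).2
    simp only at hRe hK hp'
    rw [Finset.mem_coe, Finset.mem_product]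
    refine ⟨hK, Finset.mem_filter.2 ⟨Finset.mem_univ _, hR e _ ?_ hRe⟩⟩
    intro d hd
    symm
    apply mv_of_ne
    · rintro rfl; exact hp hd
    · intro h
      have := e.injective h
      subst this
      exact hp' hd
  · rintro ⟨e, p'⟩ ht ⟨e', p''⟩ ht' h
    simp only [Prod.mk.injEq] at h
    obtain ⟨h2, h3⟩ := h
    have h4 : e = e' := by
      rw [← mv_mv e p (e p'), ← mv_mv e' p (e' p''), h3, h2]
    subst h4
    have h5 := DFunLike.congr_fun h3 p
    rw [mv_self, mv_self] at h5
    rw [e.injective h5]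

open Classical in
/-- a set of alive pigeons -/
theorem alive_factor (hN : Fintype.card P = Fintype.card H + 1) {D : Finset P}
    (R : (P ≃ Option H) → Prop) (hR : ∀ e e', (∀ d ∈ D, e d = e' d) → R e → R e')
    (K : Finset (Option H)) (S : Finset P) :
    Disjoint S D → 2 * (D.card + S.card) ≤ Fintype.card P →
    (univ.filter fun e : P ≃ Option H => R e ∧ ∀ p ∈ S, e p ∈ K).card * Fintype.card P ^ S.card ≤
      (2 * K.card) ^ S.card * (univ.filter fun e : P ≃ Option H => R e).card := by
  induction S using Finset.induction_on with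
  | empty => intro _ _; simp
  | insert p S hpS ih =>
    intro hSD hsz
    rw [Finset.disjoint_insert_left] at hSD
    rw [Finset.card_insert_of_notMem hpS] at hsz ⊢
    have ih' := ih hSD.2 (by omega)
    have h1 := alive_step hN (D := D ∪ S) (fun e => R e ∧ ∀ p ∈ S, e p ∈ K)
      (fun e e' h h2 => ⟨hR e e' (fun d hd => h d (Finset.mem_union_left _ hd)) h2.1,
        fun q hq => by rw [← h q (Finset.mem_union_right _ hq)]; exact h2.2 q hq⟩)
      (p := p) (by
        rw [Finset.mem_union, not_or]
        exact ⟨hSD.1, hpS⟩) K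
    have h1' : (univ.filter fun e : P ≃ Option H => (R e ∧ ∀ q ∈ S, e q ∈ K) ∧ e p ∈ K).card *
        (Fintype.card P - (D ∪ S).card) ≤
        K.card * (univ.filter fun e : P ≃ Option H => R e ∧ ∀ q ∈ S, e q ∈ K).card := by
      convert h1
    have h2 : Fintype.card P ≤ 2 * (Fintype.card P - (D ∪ S).card) := by
      have := Finset.card_union_le D S
      omega
    have h3 : (univ.filter fun e : P ≃ Option H => R e ∧ ∀ q ∈ insert p S, e q ∈ K) =
        (univ.filter fun e : P ≃ Option H => (R e ∧ ∀ q ∈ S, e q ∈ K) ∧ e p ∈ K) := by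
      ext e
      simp only [Finset.mem_filter, Finset.mem_univ, true_and, Finset.forall_mem_insert]
      tauto
    rw [h3, pow_succ, pow_succ]
    calc _ ≤ (univ.filter fun e : P ≃ Option H => (R e ∧ ∀ q ∈ S, e q ∈ K) ∧ e p ∈ K).card *
          (Fintype.card P ^ S.card * (2 * (Fintype.card P - (D ∪ S).card))) :=
          Nat.mul_le_mul_left _ (Nat.mul_le_mul_left _ h2)
      _ = ((univ.filter fun e : P ≃ Option H => (R e ∧ ∀ q ∈ S, e q ∈ K) ∧ e p ∈ K).card *
          (Fintype.card P - (D ∪ S).card)) * (2 * Fintype.card P ^ S.card) := by ring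
      _ ≤ (K.card * (univ.filter fun e : P ≃ Option H => R e ∧ ∀ q ∈ S, e q ∈ K).card) *
          (2 * Fintype.card P ^ S.card) := Nat.mul_le_mul_right _ h1'
      _ = ((univ.filter fun e : P ≃ Option H => R e ∧ ∀ q ∈ S, e q ∈ K).card *
          Fintype.card P ^ S.card) * (2 * K.card) := by ring
      _ ≤ ((2 * K.card) ^ S.card * (univ.filter fun e : P ≃ Option H => R e).card) *
          (2 * K.card) := Nat.mul_le_mul_right _ ih'
      _ = _ := by ring

open Classical in
/-- the restrictions with given noisy triples -/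
theorem fixed_count (hN : Fintype.card P = Fintype.card H + 1) {V : J → Finset P}
    {F : J → Bool → (P → H) → Bool} {a l t : ℕ} (h₀ : H) (ha : a ≤ Fintype.card H)
    (hV : ∀ j, (V j).card ≤ l)
    (hF : ∀ j σ w w', (∀ p ∈ V j, w p = w' p) → F j σ w = F j σ w')
    (hsz : 2 * (t * l + t) ≤ Fintype.card P) (B : Finset P) (z : P → H)
    (τ : Fin t → (J × Bool) × P × H)
    (hτ : ∀ l l', l ≠ l' → (τ l).2.1 ∉ V (τ l').1.1)
    (hh : Function.Injective fun l => (τ l).2.2) :
    ((Om P H a).filter fun s => ∀ l, Noisy V F B z h₀ s.1 s.2 (τ l)).card *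
      (Fintype.card P ^ t * Fintype.card H ^ t) ≤
    (Fintype.card H).choose a * (a * (2 * (a + 1))) ^ t *
      (univ.filter fun e : P ≃ Option H => Rl V F B z h₀ (List.ofFn τ) e).card := by
  by_cases hin : ∀ l, (τ l).2.1 ∈ V (τ l).1.1 \ B
  swap
  · have h0 : ((Om P H a).filter fun s => ∀ l, Noisy V F B z h₀ s.1 s.2 (τ l)) = ∅ := by
      rw [Finset.filter_eq_empty_iff]
      intro s _ hs
      exact hin fun l => (hs l).1
    rw [h0]
    simp
  set S := univ.image fun l => (τ l).2.1 with hS
  have hinj : Function.Injective fun l => (τ l).2.1 := by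
    intro l l' h
    by_contra hne
    simp only at h
    apply hτ l l' hne
    rw [h]
    exact (Finset.mem_sdiff.1 (hin l')).1
  have hSc : S.card = t := by
    rw [hS, Finset.card_image_of_injective _ hinj]; simp
  have hpw : (List.ofFn τ).Pairwise (fun a a' => a.2.1 ∉ V a'.1.1 ∧ a'.2.1 ∉ V a.1.1) := by
    rw [List.pairwise_ofFn]
    intro i j hij
    exact ⟨hτ i j (ne_of_lt hij), hτ j i (ne_of_gt hij)⟩
  set D := Dl V B (List.ofFn τ) with hD
  have hDc : D.card ≤ t * l := by
    have := Dl_card hV B (List.ofFn τ)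
    rwa [List.length_ofFn] at this
  have hDmem : ∀ L : List ((J × Bool) × P × H), ∀ d ∈ Dl V B L, ∃ c ∈ L, d ∈ V c.1.1 ∧
      d ≠ c.2.1 := by
    intro L
    induction L with
    | nil => intro d hd; simp [Dl] at hd
    | cons c L ih =>
      intro d hd
      rcases Finset.mem_union.1 hd with hd | hd
      · obtain ⟨h1, h2⟩ := Finset.mem_erase.1 hd
        exact ⟨c, List.mem_cons_self, (Finset.mem_sdiff.1 h2).1, h1⟩
      · obtain ⟨c', h1, h2⟩ := ih d hd
        exact ⟨c', List.mem_cons_of_mem _ h1, h2⟩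
  have hSD : Disjoint S D := by
    rw [Finset.disjoint_left]
    intro p hp hpD
    obtain ⟨l', -, rfl⟩ := Finset.mem_image.1 hp
    obtain ⟨c, hc, hc1, hc2⟩ := hDmem _ _ hpD
    rw [List.mem_ofFn] at hc
    obtain ⟨l'', rfl⟩ := hc
    by_cases hne : l' = l''
    · subst hne; exact hc2 rfl
    · exact hτ l' l'' hne hc1
  have h0 : ((Om P H a).filter fun s => ∀ l, Noisy V F B z h₀ s.1 s.2 (τ l)).card =
      ∑ K ∈ powersetCard a univ, (univ.filter fun e : P ≃ Option H =>
        ∀ l, Noisy V F B z h₀ e K (τ l)).card := by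
    convert om_filter (P := P) (H := H) a (fun e K => ∀ l, Noisy V F B z h₀ e K (τ l)) using 1
  rw [h0]
  set RW := (univ.filter fun e : P ≃ Option H => Rl V F B z h₀ (List.ofFn τ) e).card with hRW
  have h1 : ∀ K ∈ powersetCard a (univ : Finset H),
      (univ.filter fun e : P ≃ Option H => ∀ l, Noisy V F B z h₀ e K (τ l)).card *
      Fintype.card P ^ t ≤
      if (univ.image fun l => (τ l).2.2) ⊆ K then (2 * (a + 1)) ^ t * RW else 0 := by
    intro K hK
    have hKc := (Finset.mem_powersetCard.1 hK).2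
    split_ifs with hhK
    · have h2 := alive_factor hN (D := D) (fun e => Rl V F B z h₀ (List.ofFn τ) e)
        (fun e e' => Rl_dep hF B z h₀ _ e e') (Finset.insertNone K) S hSD (by omega)
      rw [Finset.card_insertNone, hKc, hSc] at h2
      refine le_trans (Nat.mul_le_mul_right _ (Finset.card_le_card ?_)) h2
      intro e he
      have h3 := (Finset.mem_filter.1 he).2
      refine Finset.mem_filter.2 ⟨Finset.mem_univ _, ?_, ?_⟩
      · exact (Rl_of_noisy (K := K) (List.ofFn τ) (fun c hc => by
          rw [List.mem_ofFn] at hc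
          obtain ⟨l', rfl⟩ := hc
          exact h3 l') hpw).1
      · intro p hp
        obtain ⟨l', -, rfl⟩ := Finset.mem_image.1 hp
        exact (h3 l').2.2.1
    · rw [Nat.le_zero, Nat.mul_eq_zero]
      left
      rw [Finset.card_eq_zero, Finset.filter_eq_empty_iff]
      rintro e _ h3
      apply hhK
      intro x hx
      obtain ⟨l', -, rfl⟩ := Finset.mem_image.1 hx
      exact (h3 l').2.1
  have h2 := card_supersets a (univ.image fun l => (τ l).2.2) ha
  have hhc : (univ.image fun l => (τ l).2.2).card = t := by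
    rw [Finset.card_image_of_injective _ hh]; simp
  rw [hhc] at h2
  calc _ = (∑ K ∈ powersetCard a (univ : Finset H),
      (univ.filter fun e : P ≃ Option H => ∀ l, Noisy V F B z h₀ e K (τ l)).card *
      Fintype.card P ^ t) * Fintype.card H ^ t := by
        rw [← Finset.sum_mul]; ring
    _ ≤ (∑ K ∈ powersetCard a (univ : Finset H),
        if (univ.image fun l => (τ l).2.2) ⊆ K then (2 * (a + 1)) ^ t * RW else 0) *
        Fintype.card H ^ t := Nat.mul_le_mul_right _ (Finset.sum_le_sum h1)
    _ = ((2 * (a + 1)) ^ t * RW) *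
        (((powersetCard a (univ : Finset H)).filter fun K =>
          (univ.image fun l => (τ l).2.2) ⊆ K).card * Fintype.card H ^ t) := by
        rw [← Finset.sum_filter, Finset.sum_const, smul_eq_mul]; ring
    _ ≤ ((2 * (a + 1)) ^ t * RW) * ((Fintype.card H).choose a * a ^ t) :=
        Nat.mul_le_mul_left _ h2
    _ = _ := by rw [mul_pow a]; ring

open Classical in
/-- the number of the restrictions of the third kind -/
theorem bad3_count (hN : Fintype.card P = Fintype.card H + 1) {V : J → Finset P}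
    {F : J → Bool → (P → H) → Bool} {a l r t lam : ℕ} (h₀ : H) (ha : a ≤ Fintype.card H)
    (hl : 1 ≤ l) (hV : ∀ j, (V j).card ≤ l)
    (hF : ∀ j σ w w', (∀ p ∈ V j, w p = w' p) → F j σ w = F j σ w')
    (hL : ∀ j σ (B : Finset P) (z : P → H), LF (fun u => F j σ (mix B z u)) (lam ^ 2))
    (hsz : 4 * (t * l) ≤ Fintype.card H) :
    ((Om P H a).filter fun s => Bad3 V F r t h₀ s.1 s.2).card * Fintype.card H ^ t ≤
    (Om P H a).card * (Fintype.card P * Fintype.card H) ^ r *
      (64 * (a * (a + 1)) * (Fintype.card J * lam)) ^ t := by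
  haveI : Nonempty H := ⟨h₀⟩
  have hnpos : 0 < Fintype.card H := Fintype.card_pos
  have hNpos : 0 < Fintype.card P := by omega
  have hsz2 : 2 * (t * l + t) ≤ Fintype.card P := by
    have : t ≤ t * l := Nat.le_mul_of_pos_right _ hl
    omega
  set Q : (Fin r → P × H) × (Fin t → (J × Bool) × P × H) → (P ≃ Option H) × Finset H → Prop :=
    fun x s => ∀ l, Noisy V F (Bb x.1) (zb h₀ x.1) h₀ s.1 s.2 (x.2 l) with hQ
  set I : Finset ((Fin r → P × H) × (Fin t → (J × Bool) × P × H)) :=
    univ.filter fun x => (∀ l l', l ≠ l' → (x.2 l).2.1 ∉ V (x.2 l').1.1) ∧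
      Function.Injective fun l => (x.2 l).2.2 with hI
  have h1 := union_bound I Q ((Om P H a).filter fun s => Bad3 V F r t h₀ s.1 s.2) (by
    intro s hs
    obtain ⟨-, b, τ, h2, h3, h4⟩ := Finset.mem_filter.1 hs
    exact ⟨(b, τ), Finset.mem_filter.2 ⟨Finset.mem_univ _, h2, h3⟩, h4⟩)
  set g : (Fin r → P × H) × (Fin t → (J × Bool) × P × H) → ℕ := fun x =>
    (univ.filter fun e : P ≃ Option H =>
      Rl V F (Bb x.1) (zb h₀ x.1) h₀ (List.ofFn x.2) e).card with hg
  have h2 : ∀ x ∈ I, (((Om P H a).filter fun s => Bad3 V F r t h₀ s.1 s.2).filter (Q x)).card *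
      (Fintype.card P ^ t * Fintype.card H ^ t) ≤
      (Fintype.card H).choose a * (a * (2 * (a + 1))) ^ t * g x := by
    intro x hx
    obtain ⟨-, hx1, hx2⟩ := Finset.mem_filter.1 hx
    refine le_trans (Nat.mul_le_mul_right _ (Finset.card_le_card ?_))
      (fixed_count hN h₀ ha hV hF hsz2 (Bb x.1) (zb h₀ x.1) x.2 hx1 hx2)
    intro s hs
    obtain ⟨hs1, hs2⟩ := Finset.mem_filter.1 hs
    exact Finset.mem_filter.2 ⟨(Finset.mem_filter.1 hs1).1, hs2⟩
  have h3 : Fintype.card H ^ t * ∑ x ∈ I, g x ≤ (Fintype.card P * Fintype.card H) ^ r *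
      ((2 * Fintype.card J * (8 * Fintype.card P ^ 2 * lam)) ^ t *
        (Fintype.card P).factorial) := by
    calc Fintype.card H ^ t * ∑ x ∈ I, g x ≤ Fintype.card H ^ t *
          ∑ x : (Fin r → P × H) × (Fin t → (J × Bool) × P × H), g x :=
          Nat.mul_le_mul_left _ (Finset.sum_le_sum_of_subset (Finset.subset_univ _))
      _ = ∑ b : Fin r → P × H, Fintype.card H ^ t *
          ∑ τ : Fin t → (J × Bool) × P × H, g (b, τ) := by
          rw [Fintype.sum_prod_type, Finset.mul_sum]
      _ ≤ ∑ _b : Fin r → P × H, (2 * Fintype.card J * (8 * Fintype.card P ^ 2 * lam)) ^ t *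
          (Fintype.card P).factorial :=
          Finset.sum_le_sum fun b _ => seq_sum hN h₀ hV hF hL (Bb b) (zb h₀ b) t hsz
      _ = _ := by
          rw [Finset.sum_const, smul_eq_mul, Finset.card_univ, Fintype.card_fun,
            Fintype.card_prod, Fintype.card_fin]
  have h4 : (((Om P H a).filter fun s => Bad3 V F r t h₀ s.1 s.2).card * Fintype.card H ^ t) *
      (Fintype.card P ^ t * Fintype.card H ^ t) ≤
      ((Om P H a).card * (Fintype.card P * Fintype.card H) ^ r *
      (64 * (a * (a + 1)) * (Fintype.card J * lam)) ^ t) *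
      (Fintype.card P ^ t * Fintype.card H ^ t) := by
    calc _ ≤ ((∑ x ∈ I, (((Om P H a).filter fun s => Bad3 V F r t h₀ s.1 s.2).filter
          (Q x)).card) * Fintype.card H ^ t) * (Fintype.card P ^ t * Fintype.card H ^ t) :=
          Nat.mul_le_mul_right _ (Nat.mul_le_mul_right _ h1)
      _ = Fintype.card H ^ t * ∑ x ∈ I, (((Om P H a).filter fun s =>
          Bad3 V F r t h₀ s.1 s.2).filter (Q x)).card *
          (Fintype.card P ^ t * Fintype.card H ^ t) := by
          rw [← Finset.sum_mul]; ring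
      _ ≤ Fintype.card H ^ t * ∑ x ∈ I, (Fintype.card H).choose a *
          (a * (2 * (a + 1))) ^ t * g x := Nat.mul_le_mul_left _ (Finset.sum_le_sum h2)
      _ = (Fintype.card H).choose a * (a * (2 * (a + 1))) ^ t *
          (Fintype.card H ^ t * ∑ x ∈ I, g x) := by rw [← Finset.mul_sum]; ring
      _ ≤ (Fintype.card H).choose a * (a * (2 * (a + 1))) ^ t *
          ((Fintype.card P * Fintype.card H) ^ r *
          ((2 * Fintype.card J * (8 * Fintype.card P ^ 2 * lam)) ^ t *
          (Fintype.card P).factorial)) := Nat.mul_le_mul_left _ h3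
      _ = (Om P H a).card * (Fintype.card P * Fintype.card H) ^ r *
          ((32 * (a * (a + 1)) * (Fintype.card J * lam)) ^ t *
          (Fintype.card P ^ t * Fintype.card P ^ t)) := by
          rw [card_Om hN, ← mul_pow, ← mul_pow]
          rw [show (Fintype.card H).choose a * (a * (2 * (a + 1))) ^ t *
            ((Fintype.card P * Fintype.card H) ^ r *
            ((2 * Fintype.card J * (8 * Fintype.card P ^ 2 * lam)) ^ t *
            (Fintype.card P).factorial)) =
            (Fintype.card P).factorial * (Fintype.card H).choose a *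
            (Fintype.card P * Fintype.card H) ^ r * ((a * (2 * (a + 1))) ^ t *
            (2 * Fintype.card J * (8 * Fintype.card P ^ 2 * lam)) ^ t) by ring, ← mul_pow]
          congr 2
          ring
      _ ≤ (Om P H a).card * (Fintype.card P * Fintype.card H) ^ r *
          ((32 * (a * (a + 1)) * (Fintype.card J * lam)) ^ t *
          (Fintype.card P ^ t * (2 * Fintype.card H) ^ t)) := by
          apply Nat.mul_le_mul_left
          apply Nat.mul_le_mul_left
          apply Nat.mul_le_mul_left
          apply Nat.pow_le_pow_left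
          omega
      _ = _ := by
          rw [mul_pow 2 (Fintype.card H), show 64 * (a * (a + 1)) * (Fintype.card J * lam) =
            (32 * (a * (a + 1)) * (Fintype.card J * lam)) * 2 by ring, mul_pow _ 2]
          ring
  exact Nat.le_of_mul_le_mul_right h4 (by positivity)

end

end Pool.Agent.L5helper87.FL
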