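import Pool.Agent.L5helper87.FL.Fm

/-!
# Decomposition of a list of formulas
-/

set_option autoImplicit false

namespace Pool.Agent.L5helper87.FL

namespace Fm

variable {α : Type}

theorem exists_pieces_list {l : ℕ} (hl : 1 ≤ l) (Φ : List (Fm α)) : ∃ G : List (Fm (Option α)),
    (∀ g ∈ G, psize g ≤ l) ∧ l * G.length ≤ 4 * (Φ.map size).sum + l * Φ.length ∧
    (∀ w : α → ℕ, (G.map (wt' w)).sum = (Φ.map (wt w)).sum) ∧
    ∀ v v', (∀ g ∈ G, ∀ σ, pev σ v g = pev σ v' g) → ∀ φ ∈ Φ, ev v φ = ev v' φ := by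
  induction Φ with
  | nil => exact ⟨[], by simp, by simp, by simp, by simp⟩
  | cons φ Φ ih =>
    obtain ⟨G, h1, h2, h3, h4⟩ := ih
    obtain ⟨G', g1, g2, g3, g4⟩ := exists_pieces hl φ
    refine ⟨G' ++ G, ?_, ?_, ?_, ?_⟩
    · intro g hg
      rcases List.mem_append.1 hg with hg | hg
      · exact g1 g hg
      · exact h1 g hg
    · rw [List.length_append, List.map_cons, List.sum_cons, List.length_cons, Nat.mul_add,
        Nat.mul_add l, Nat.mul_one]
      omega
    · intro w
      rw [List.map_append, List.sum_append, List.map_cons, List.sum_cons, g3, h3]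
    · intro v v' h ψ hψ
      rcases List.mem_cons.1 hψ with rfl | hψ
      · exact g4 v v' fun g hg => h g (List.mem_append_left _ hg)
      · exact h4 v v' (fun g hg => h g (List.mem_append_right _ hg)) ψ hψ

end Fm

end Pool.Agent.L5helper87.FL
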