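import Pool.Agent.L5helper87.FL.Cn3
import Pool.Agent.L5helper87.FL.Fl

/-!
# Refutations whose lines are small formulas: the counting theorem
-/

set_option autoImplicit false

open Finset

namespace Pool.Agent.L5helper87.FL

section
variable {P H : Type} [Fintype P] [DecidableEq P] [Fintype H] [DecidableEq H]

/-- the value of a formula with one-pigeon predicates as leaves -/
def val (φ : Fm (P × (H → Bool))) (y : P → H) : Bool := φ.ev fun a => a.2 (y a.1)

/-- the value of a piece -/
def pval (g : Fm (Option (P × (H → Bool)))) (σ : Bool) (y : P → H) : Bool :=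
  Fm.pev σ (fun a => a.2 (y a.1)) g

/-- the pigeons of a piece -/
def vars : Fm (Option (P × (H → Bool))) → Finset P
  | Fm.cst _ => ∅
  | Fm.lf none => ∅
  | Fm.lf (some a) => {a.1}
  | Fm.ng f => vars f
  | Fm.an f g => vars f ∪ vars g

theorem vars_card (g : Fm (Option (P × (H → Bool)))) : (vars g).card ≤ Fm.psize g := by
  induction g with
  | cst b => simp [vars]
  | lf a =>
    rcases a with _ | a
    · simp [vars]
    · simp [vars, Fm.psize, Fm.wt', Fm.wt]
  | ng f ih =>
    have h1 : Fm.psize (Fm.ng f) = Fm.psize f := rfl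
    rw [h1]; exact ih
  | an f g ih₁ ih₂ =>
    have h1 : Fm.psize (Fm.an f g) = Fm.psize f + Fm.psize g := rfl
    rw [h1]
    exact (Finset.card_union_le _ _).trans (Nat.add_le_add ih₁ ih₂)

theorem pval_dep (g : Fm (Option (P × (H → Bool)))) (σ : Bool) (w w' : P → H)
    (h : ∀ p ∈ vars g, w p = w' p) : pval g σ w = pval g σ w' := by
  induction g with
  | cst b => rfl
  | lf a =>
    rcases a with _ | a
    · rfl
    · have := h a.1 (by simp [vars])
      simp [pval, Fm.pev, Fm.ev, this]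
  | ng f ih =>
    have h1 : ∀ u, pval (Fm.ng f) σ u = !(pval f σ u) := fun u => rfl
    rw [h1, h1, ih h]
  | an f g ih₁ ih₂ =>
    have h1 : ∀ u, pval (Fm.an f g) σ u = (pval f σ u && pval g σ u) := fun u => rfl
    rw [h1, h1, ih₁ fun p hp => h p (Finset.mem_union_left _ hp),
      ih₂ fun p hp => h p (Finset.mem_union_right _ hp)]

theorem pval_LF (g : Fm (Option (P × (H → Bool)))) (σ : Bool) (B : Finset P) (z : P → H) :
    LF (fun u => pval g σ (mix B z u)) (Fm.psize g) := by
  induction g with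
  | cst b => exact LF.cst b
  | lf a =>
    rcases a with _ | a
    · exact LF.cst σ
    · by_cases ha : a.1 ∈ B
      · have h1 : (fun u : P → H => pval (Fm.lf (some a)) σ (mix B z u)) =
            fun _ => a.2 (z a.1) := by
          ext u
          simp [pval, Fm.pev, Fm.ev, mix, ha]
        rw [h1]
        exact LF.mono (LF.cst _) (Nat.zero_le _)
      · have h1 : (fun u : P → H => pval (Fm.lf (some a)) σ (mix B z u)) =
            fun u => a.2 (u a.1) := by
          ext u
          simp [pval, Fm.pev, Fm.ev, mix, ha]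
        rw [h1]
        exact LF.leaf a.2 a.1
  | ng f ih => exact LF.ng ih
  | an f g ih₁ ih₂ => exact LF.an ih₁ ih₂

open Classical in
/-- **One line.** -/
theorem line_bad (hN : Fintype.card P = Fintype.card H + 1) (h₀ : H)
    {a k q r t w s m lam M : ℕ} (ha : a ≤ Fintype.card H) (hlam : 1 ≤ lam)
    (hr : 3 * q + 1 ≤ r) (hw : r + 2 * t ≤ w) (hk : 0 < k)
    (hM : 4 * s + lam ^ 2 * m ≤ lam ^ 2 * M)
    (C1 : 4 * ((a + 1) * s) ≤ k * Fintype.card P)
    (C2 : 4 * ((a + 1) ^ 2 * (k * lam ^ 2)) ≤ Fintype.card P)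
    (C3 : 4 ^ q * ((Fintype.card P * Fintype.card H) ^ r *
      (64 * (a * (a + 1)) * (M * lam)) ^ t) ≤ Fintype.card H ^ t)
    (C4 : 4 * (t * lam ^ 2) ≤ Fintype.card H)
    (C5 : 2 * (2 * q) ^ 2 ≤ Fintype.card P)
    (Φ : List (Fm (P × (H → Bool)))) (hm : Φ.length ≤ m) (hs : (Φ.map Fm.size).sum ≤ s)
    (f : (P → H) → Bool) (hfΦ : ∀ y y', (∀ φ ∈ Φ, val φ y = val φ y') → f y = f y') :
    ∃ X : Finset ((P ≃ Option H) × Finset H), 4 ^ q * X.card ≤ 6 * (Om P H a).card ∧
      ∀ x ∈ Om P H a, x ∉ X → Loc (Al x.1 x.2) x.2 (xa h₀ x.1) w f := by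
  obtain ⟨G, hG1, hG2, hG3, hG4⟩ := Fm.exists_pieces_list (l := lam ^ 2)
    (Nat.one_le_pow _ _ hlam) Φ
  set V : Fin G.length → Finset P := fun j => vars (G.get j) with hV
  set F : Fin G.length → Bool → (P → H) → Bool := fun j σ => pval (G.get j) σ with hF
  have hVl : ∀ j, (V j).card ≤ lam ^ 2 := fun j =>
    (vars_card _).trans (hG1 _ (List.get_mem _ _))
  have hFd : ∀ j σ w w', (∀ p ∈ V j, w p = w' p) → F j σ w = F j σ w' := fun j σ w w' h =>
    pval_dep _ σ w w' h
  have hL : ∀ j σ (B : Finset P) (z : P → H), LF (fun u => F j σ (mix B z u)) (lam ^ 2) :=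
    fun j σ B z => LF.mono (pval_LF _ σ B z) (hG1 _ (List.get_mem _ _))
  have hf : ∀ w w', (∀ j σ, F j σ w = F j σ w') → f w = f w' := by
    intro w w' h
    apply hfΦ
    apply hG4
    intro g hg σ
    obtain ⟨j, hj⟩ := List.get_of_mem hg
    have := h j σ
    simp only [hF, hj] at this
    exact this
  have hVs : ∑ j, (V j).card ≤ s := by
    have h1 := hG3 fun _ => 1
    have h2 : (G.map (Fm.wt' fun _ => 1)).sum = ∑ j : Fin G.length, Fm.psize (G.get j) := by
      rw [← List.sum_ofFn]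
      congr 1
      apply List.ext_get
      · simp
      · intro n h3 h4
        simp [Fm.psize]
    calc ∑ j, (V j).card ≤ ∑ j : Fin G.length, Fm.psize (G.get j) :=
          Finset.sum_le_sum fun j _ => vars_card _
      _ = (Φ.map Fm.size).sum := by rw [← h2, h1]; rfl
      _ ≤ s := hs
  have hJ : Fintype.card (Fin G.length) ≤ M := by
    rw [Fintype.card_fin]
    have h1 : lam ^ 2 * G.length ≤ lam ^ 2 * M := by
      have h2 : lam ^ 2 * Φ.length ≤ lam ^ 2 * m := Nat.mul_le_mul_left _ hm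
      omega
    exact Nat.le_of_mul_le_mul_left h1 (by positivity)
  set N := Fintype.card P with hNd
  have hNpos : 0 < N := by omega
  -- the three kinds
  have b1 : 4 ^ q * ((Om P H a).filter fun x => Bad1 V k q x.1 x.2).card ≤
      2 * (Om P H a).card := by
    have h1 := bad1_count hN h₀ V a k q (le_trans (by nlinarith) C5)
    have h2 := (hv_card V k).trans hVs
    have h3 : (4 ^ q * ((Om P H a).filter fun x => Bad1 V k q x.1 x.2).card) * (k * N) ^ q ≤
        (2 * (Om P H a).card) * (k * N) ^ q := by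
      calc _ = (((Om P H a).filter fun x => Bad1 V k q x.1 x.2).card * N ^ q) * (4 * k) ^ q := by
            rw [mul_pow, mul_pow]; ring
        _ ≤ (2 * (Om P H a).card * ((a + 1) * (hv V k).card) ^ q) * (4 * k) ^ q :=
            Nat.mul_le_mul_right _ h1
        _ = 2 * (Om P H a).card * (4 * ((a + 1) * (k * (hv V k).card))) ^ q := by
            rw [mul_assoc, ← mul_pow]; ring
        _ ≤ 2 * (Om P H a).card * (k * N) ^ q := by
            apply Nat.mul_le_mul_left
            apply Nat.pow_le_pow_left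
            refine le_trans ?_ C1
            exact Nat.mul_le_mul_left _ (Nat.mul_le_mul_left _ h2)
    exact Nat.le_of_mul_le_mul_right h3 (by positivity)
  have b2 : 4 ^ q * ((Om P H a).filter fun x => Bad2 V k q x.1 x.2).card ≤
      2 * (Om P H a).card := by
    have h1 := bad2_count hN h₀ V a k (lam ^ 2) q hVl C5
    have h3 : (4 ^ q * ((Om P H a).filter fun x => Bad2 V k q x.1 x.2).card) * N ^ (2 * q) ≤
        (2 * (Om P H a).card) * N ^ (2 * q) := by
      calc _ = (((Om P H a).filter fun x => Bad2 V k q x.1 x.2).card * N ^ (2 * q)) * 4 ^ q := by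
            ring
        _ ≤ (2 * (Om P H a).card * ((a + 1) ^ 2 * (N * (k * lam ^ 2))) ^ q) * 4 ^ q :=
            Nat.mul_le_mul_right _ h1
        _ = 2 * (Om P H a).card * (N * (4 * ((a + 1) ^ 2 * (k * lam ^ 2)))) ^ q := by
            rw [mul_assoc, ← mul_pow]; ring
        _ ≤ 2 * (Om P H a).card * (N * N) ^ q := by
            apply Nat.mul_le_mul_left
            apply Nat.pow_le_pow_left
            exact Nat.mul_le_mul_left _ C2
        _ = _ := by rw [pow_mul, ← pow_two]
    exact Nat.le_of_mul_le_mul_right h3 (by positivity)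
  have b3 : 4 ^ q * ((Om P H a).filter fun x => Bad3 V F r t h₀ x.1 x.2).card ≤
      2 * (Om P H a).card := by
    have h1 := bad3_count (r := r) hN h₀ ha (Nat.one_le_pow _ _ hlam) hVl hFd hL C4
    have hnpos : 0 < Fintype.card H := Fintype.card_pos_iff.2 ⟨h₀⟩
    have h3 : (4 ^ q * ((Om P H a).filter fun x => Bad3 V F r t h₀ x.1 x.2).card) *
        Fintype.card H ^ t ≤ (Om P H a).card * Fintype.card H ^ t := by
      calc _ = (((Om P H a).filter fun x => Bad3 V F r t h₀ x.1 x.2).card *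
            Fintype.card H ^ t) * 4 ^ q := by ring
        _ ≤ ((Om P H a).card * (N * Fintype.card H) ^ r *
            (64 * (a * (a + 1)) * (Fintype.card (Fin G.length) * lam)) ^ t) * 4 ^ q :=
            Nat.mul_le_mul_right _ h1
        _ ≤ ((Om P H a).card * (N * Fintype.card H) ^ r *
            (64 * (a * (a + 1)) * (M * lam)) ^ t) * 4 ^ q := by
            apply Nat.mul_le_mul_right
            apply Nat.mul_le_mul_left
            apply Nat.pow_le_pow_left
            apply Nat.mul_le_mul_left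
            exact Nat.mul_le_mul_right _ hJ
        _ = (Om P H a).card * (4 ^ q * ((N * Fintype.card H) ^ r *
            (64 * (a * (a + 1)) * (M * lam)) ^ t)) := by ring
        _ ≤ (Om P H a).card * Fintype.card H ^ t := Nat.mul_le_mul_left _ C3
    exact (Nat.le_of_mul_le_mul_right h3 (by positivity)).trans (by omega)
  refine ⟨((Om P H a).filter fun x => Bad1 V k q x.1 x.2) ∪
    (((Om P H a).filter fun x => Bad2 V k q x.1 x.2) ∪
    ((Om P H a).filter fun x => Bad3 V F r t h₀ x.1 x.2)), ?_, ?_⟩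
  · have h1 := Finset.card_union_le ((Om P H a).filter fun x => Bad1 V k q x.1 x.2)
      (((Om P H a).filter fun x => Bad2 V k q x.1 x.2) ∪
      ((Om P H a).filter fun x => Bad3 V F r t h₀ x.1 x.2))
    have h2 := Finset.card_union_le ((Om P H a).filter fun x => Bad2 V k q x.1 x.2)
      ((Om P H a).filter fun x => Bad3 V F r t h₀ x.1 x.2)
    refine (Nat.mul_le_mul_left _ (h1.trans (Nat.add_le_add_left h2 _))).trans ?_
    rw [Nat.mul_add, Nat.mul_add]
    omega
  · intro x hx hxX
    rw [Finset.mem_union, Finset.mem_union, Finset.mem_filter, Finset.mem_filter,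
      Finset.mem_filter] at hxX
    push Not at hxX
    obtain ⟨h1, h2, h3⟩ := hxX
    have hK : x.2.card = a := (Finset.mem_powersetCard.1 (Finset.mem_product.1 hx).2).2
    exact loc_of_good h₀ hK hFd hr hw hf (h1 hx) (h2 hx) (h3 hx)

/-- **No short refutation.** -/
theorem core (hN : Fintype.card P = Fintype.card H + 1) (h₀ : H)
    {a k q r t w s m lam M d : ℕ} (ha : a ≤ Fintype.card H) (hlam : 1 ≤ lam)
    (hr : 3 * q + 1 ≤ r) (hw : r + 2 * t ≤ w) (hk : 0 < k)
    (hM : 4 * s + lam ^ 2 * m ≤ lam ^ 2 * M)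
    (C1 : 4 * ((a + 1) * s) ≤ k * Fintype.card P)
    (C2 : 4 * ((a + 1) ^ 2 * (k * lam ^ 2)) ≤ Fintype.card P)
    (C3 : 4 ^ q * ((Fintype.card P * Fintype.card H) ^ r *
      (64 * (a * (a + 1)) * (M * lam)) ^ t) ≤ Fintype.card H ^ t)
    (C4 : 4 * (t * lam ^ 2) ≤ Fintype.card H)
    (C5 : 2 * (2 * q) ^ 2 ≤ Fintype.card P)
    (C6 : (d + 1) * w + 1 < a) (T : ℕ) (hT : 6 * T < 4 ^ q)
    (f : ℕ → (P → H) → Bool)
    (hs : ∀ i < T, ∃ Φ : List (Fm (P × (H → Bool))), Φ.length ≤ m ∧ (Φ.map Fm.size).sum ≤ s ∧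
      ∀ y y', (∀ φ ∈ Φ, val φ y = val φ y') → f i y = f i y')
    (hinf : ∀ i < T, (∃ p p' : P, p ≠ p' ∧ ∀ y : P → H, y p ≠ y p' → f i y = true) ∨
      ∃ S : Finset ℕ, S.card ≤ d ∧ (∀ j ∈ S, j < i) ∧
        ∀ y, (∀ j ∈ S, f j y = true) → f i y = true) :
    ∀ i < T, ∃ y, f i y = true := by
  classical
  have h1 : ∀ i, ∃ X : Finset ((P ≃ Option H) × Finset H), i < T →
      4 ^ q * X.card ≤ 6 * (Om P H a).card ∧
      ∀ x ∈ Om P H a, x ∉ X → Loc (Al x.1 x.2) x.2 (xa h₀ x.1) w (f i) := by
    intro i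
    by_cases hi : i < T
    · obtain ⟨Φ, hΦ1, hΦ2, hΦ3⟩ := hs i hi
      obtain ⟨X, hX⟩ := line_bad hN h₀ ha hlam hr hw hk hM C1 C2 C3 C4 C5 Φ hΦ1 hΦ2 (f i) hΦ3
      exact ⟨X, fun _ => hX⟩
    · exact ⟨∅, fun h => absurd h hi⟩
  choose X hX using h1
  have hOm : 0 < (Om P H a).card := by
    rw [card_Om hN]
    exact Nat.mul_pos (Nat.factorial_pos _) (Nat.choose_pos ha)
  have h2 : ((Finset.range T).biUnion X).card < (Om P H a).card := by
    have h3 : 4 ^ q * ((Finset.range T).biUnion X).card ≤ T * (6 * (Om P H a).card) := by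
      calc 4 ^ q * ((Finset.range T).biUnion X).card ≤ 4 ^ q * ∑ i ∈ Finset.range T, (X i).card :=
            Nat.mul_le_mul_left _ Finset.card_biUnion_le
        _ = ∑ i ∈ Finset.range T, 4 ^ q * (X i).card := by rw [Finset.mul_sum]
        _ ≤ ∑ _i ∈ Finset.range T, 6 * (Om P H a).card :=
            Finset.sum_le_sum fun i hi => (hX i (Finset.mem_range.1 hi)).1
        _ = _ := by rw [Finset.sum_const, smul_eq_mul, Finset.card_range]
    have h4 : T * (6 * (Om P H a).card) < 4 ^ q * (Om P H a).card := by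
      calc T * (6 * (Om P H a).card) = (6 * T) * (Om P H a).card := by ring
        _ < _ := Nat.mul_lt_mul_of_pos_right hT hOm
    exact Nat.lt_of_mul_lt_mul_left (h3.trans_lt h4)
  obtain ⟨x, hx1, hx2⟩ := Finset.exists_mem_notMem_of_card_lt_card h2
  have hK : x.2.card = a := (Finset.mem_powersetCard.1 (Finset.mem_product.1 hx1).2).2
  apply no_refutation (A := Al x.1 x.2) (K := x.2) (x := xa h₀ x.1) (w := w) (d := d)
    (by rw [hK]; exact C6) (by rw [card_Al]; omega) ?_ ?_ T f hinf ?_
  · intro p hp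
    exact (dead_val hp h₀).2
  · intro p hp p' hp' h
    apply x.1.injective
    rw [(dead_val hp h₀).1, (dead_val hp' h₀).1, h]
  · intro i hi
    exact (hX i hi).2 x hx1 fun h => hx2 (Finset.mem_biUnion.2 ⟨i, Finset.mem_range.2 hi, h⟩)

end

end Pool.Agent.L5helper87.FL
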