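import Mathlib

/-!
# Decomposition of a De Morgan formula into small pieces with one special input
-/

set_option autoImplicit false

namespace Pool.Agent.L5helper87.FL

/-- De Morgan formulas: constants, leaves, negations, conjunctions. -/
inductive Fm (α : Type) : Type
  | cst (b : Bool) : Fm α
  | lf (a : α) : Fm α
  | ng (f : Fm α) : Fm α
  | an (f g : Fm α) : Fm α

namespace Fm

variable {α : Type}

/-- the value of a formula -/
def ev (v : α → Bool) : Fm α → Bool
  | cst b => b
  | lf a => v a
  | ng f => !(ev v f)
  | an f g => ev v f && ev v g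

/-- the sum of the weights of the leaves -/
def wt (w : α → ℕ) : Fm α → ℕ
  | cst _ => 0
  | lf a => w a
  | ng f => wt w f
  | an f g => wt w f + wt w g

/-- the weight of a piece, the special input does not count -/
def wt' (w : α → ℕ) (g : Fm (Option α)) : ℕ := wt (fun a => a.elim 0 w) g

/-- the number of leaves -/
def size (f : Fm α) : ℕ := wt (fun _ => 1) f

/-- the number of ordinary leaves of a piece -/
def psize (g : Fm (Option α)) : ℕ := wt' (fun _ => 1) g

/-- the value of a piece -/
def pev (σ : Bool) (v : α → Bool) (g : Fm (Option α)) : Bool := ev (fun a => a.elim σ v) g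

/-- decomposition with an open piece `g` -/
def Dec (l : ℕ) (φ : Fm α) (g : Fm (Option α)) (c : List (Fm (Option α))) : Prop :=
  psize g ≤ l ∧ (∀ g' ∈ c, psize g' ≤ l) ∧
  (∀ w : α → ℕ, wt' w g + (c.map (wt' w)).sum = wt w φ) ∧
  ((c = [] ∧ ∀ σ v, pev σ v g = ev v φ) ∨
   (l * c.length + psize g + 2 * l ≤ 4 * size φ ∧
    ∃ ψ : (α → Bool) → Bool, (∀ v, ev v φ = pev (ψ v) v g) ∧
      ∀ v v', (∀ g' ∈ c, ∀ σ, pev σ v g' = pev σ v' g') → ψ v = ψ v'))

theorem exists_dec {l : ℕ} (hl : 1 ≤ l) (φ : Fm α) : ∃ g c, Dec l φ g c := by
  induction φ with
  | cst b =>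
    refine ⟨cst b, [], ?_, ?_, ?_, Or.inl ⟨rfl, fun σ v => rfl⟩⟩
    · simp [psize, wt', wt]
    · simp
    · simp [wt', wt]
  | lf a =>
    refine ⟨lf (some a), [], ?_, ?_, ?_, Or.inl ⟨rfl, fun σ v => rfl⟩⟩
    · simpa [psize, wt', wt] using hl
    · simp
    · simp [wt', wt]
  | ng f ih =>
    obtain ⟨g, c, h1, h2, h3, h4⟩ := ih
    refine ⟨ng g, c, ?_, h2, ?_, ?_⟩
    · simpa [psize, wt', wt] using h1
    · intro w
      have := h3 w
      simpa [wt', wt] using this
    · rcases h4 with ⟨hc, h4⟩ | ⟨h4, ψ, h5, h6⟩
      · refine Or.inl ⟨hc, fun σ v => ?_⟩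
        have := h4 σ v
        simp only [pev, ev] at this ⊢
        rw [this]
      · refine Or.inr ⟨?_, ψ, fun v => ?_, h6⟩
        · simpa [psize, wt', wt, size] using h4
        · have := h5 v
          simp only [pev, ev] at this ⊢
          rw [this]
  | an f₁ f₂ ih₁ ih₂ =>
    obtain ⟨g₁, c₁, a1, a2, a3, a4⟩ := ih₁
    obtain ⟨g₂, c₂, b1, b2, b3, b4⟩ := ih₂
    have hs : ∀ w, wt w (an f₁ f₂) = wt w f₁ + wt w f₂ := fun w => rfl
    have hsz : size (an f₁ f₂) = size f₁ + size f₂ := rfl
    have hA : psize g₁ + (c₁.map (wt' fun _ => 1)).sum = size f₁ := a3 _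
    have hB : psize g₂ + (c₂.map (wt' fun _ => 1)).sum = size f₂ := b3 _
    rcases a4 with ⟨rfl, a4⟩ | ⟨a4, ψ₁, a5, a6⟩
    · rcases b4 with ⟨rfl, b4⟩ | ⟨b4, ψ₂, b5, b6⟩
      · -- no special input in both
        simp only [List.map_nil, List.sum_nil, Nat.add_zero] at hA hB a3 b3
        by_cases hn : psize g₁ + psize g₂ ≤ l
        · refine ⟨an g₁ g₂, [], ?_, by simp, ?_, Or.inl ⟨rfl, fun σ v => ?_⟩⟩
          · exact hn
          · intro w
            have h1 := a3 w
            have h2 := b3 w
            simp only [wt', wt, List.map_nil, List.sum_nil, Nat.add_zero] at h1 h2 ⊢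
            omega
          · have h1 := a4 σ v
            have h2 := b4 σ v
            simp only [pev, ev] at h1 h2 ⊢
            rw [h1, h2]
        · refine ⟨lf none, [g₁, g₂], ?_, ?_, ?_, Or.inr ⟨?_, fun v => ev v f₁ && ev v f₂, fun v => rfl, ?_⟩⟩
          · simp [psize, wt', wt]
          · intro g' hg'
            simp only [List.mem_cons, List.not_mem_nil, or_false] at hg'
            rcases hg' with rfl | rfl
            · exact a1
            · exact b1
          · intro w
            have h1 := a3 w
            have h2 := b3 w
            simp only [wt', wt, List.map_cons, List.map_nil, List.sum_cons, List.sum_nil, Option.elim] at h1 h2 ⊢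
            omega
          · have h0 : psize (lf none : Fm (Option α)) = 0 := rfl
            rw [h0, hsz]
            simp only [List.length_cons, List.length_nil]
            omega
          · intro v v' h
            have h1 := h g₁ (by simp) true
            have h2 := h g₂ (by simp) true
            rw [a4, a4] at h1
            rw [b4, b4] at h2
            simp only [h1, h2]
      · -- special input only in the second
        simp only [List.map_nil, List.sum_nil, Nat.add_zero] at hA a3
        by_cases hn : psize g₁ + psize g₂ ≤ l
        · refine ⟨an g₁ g₂, c₂, hn, b2, ?_, Or.inr ⟨?_, ψ₂, fun v => ?_, b6⟩⟩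
          · intro w
            have h1 := a3 w
            have h2 := b3 w
            simp only [wt', wt] at h1 h2 ⊢
            omega
          · have h0 : psize (an g₁ g₂) = psize g₁ + psize g₂ := rfl
            rw [h0, hsz]
            omega
          · have h1 := a4 (ψ₂ v) v
            have h2 := b5 v
            simp only [pev, ev] at h1 h2 ⊢
            rw [h1, h2]
        · refine ⟨an g₁ (lf none), g₂ :: c₂, ?_, ?_, ?_, Or.inr ⟨?_, fun v => ev v f₂, fun v => ?_, ?_⟩⟩
          · have h0 : psize (an g₁ (lf none)) = psize g₁ := rfl
            rw [h0]; exact a1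
          · intro g' hg'
            simp only [List.mem_cons] at hg'
            rcases hg' with rfl | h
            · exact b1
            · exact b2 _ h
          · intro w
            have h1 := a3 w
            have h2 := b3 w
            simp only [wt', wt, List.map_cons, List.sum_cons, Option.elim] at h1 h2 ⊢
            omega
          · have h0 : psize (an g₁ (lf none)) = psize g₁ := rfl
            rw [h0, hsz]
            simp only [List.length_cons]
            have : l * (c₂.length + 1) = l * c₂.length + l := by ring
            rw [this]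
            omega
          · have h1 := a4 (ev v f₂) v
            simp only [pev, ev] at h1 ⊢
            rw [h1]; rfl
          · intro v v' h
            have h1 : ψ₂ v = ψ₂ v' := b6 v v' fun g' hg' => h g' (List.mem_cons_of_mem _ hg')
            have h2 := h g₂ (by simp)
            simp only
            rw [b5 v, b5 v', h1, h2]
    · rcases b4 with ⟨rfl, b4⟩ | ⟨b4, ψ₂, b5, b6⟩
      · -- special input only in the first
        simp only [List.map_nil, List.sum_nil, Nat.add_zero] at hB b3
        by_cases hn : psize g₁ + psize g₂ ≤ l
        · refine ⟨an g₁ g₂, c₁, hn, a2, ?_, Or.inr ⟨?_, ψ₁, fun v => ?_, a6⟩⟩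
          · intro w
            have h1 := a3 w
            have h2 := b3 w
            simp only [wt', wt] at h1 h2 ⊢
            omega
          · have h0 : psize (an g₁ g₂) = psize g₁ + psize g₂ := rfl
            rw [h0, hsz]
            omega
          · have h1 := b4 (ψ₁ v) v
            have h2 := a5 v
            simp only [pev, ev] at h1 h2 ⊢
            rw [h1, h2]
        · refine ⟨an (lf none) g₂, g₁ :: c₁, ?_, ?_, ?_, Or.inr ⟨?_, fun v => ev v f₁, fun v => ?_, ?_⟩⟩
          · have h0 : psize (an (lf none) g₂) = psize g₂ := by
              simp [psize, wt', wt]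
            rw [h0]; exact b1
          · intro g' hg'
            simp only [List.mem_cons] at hg'
            rcases hg' with rfl | h
            · exact a1
            · exact a2 _ h
          · intro w
            have h1 := a3 w
            have h2 := b3 w
            simp only [wt', wt, List.map_cons, List.sum_cons, Option.elim] at h1 h2 ⊢
            omega
          · have h0 : psize (an (lf none) g₂) = psize g₂ := by
              simp [psize, wt', wt]
            rw [h0, hsz]
            simp only [List.length_cons]
            have : l * (c₁.length + 1) = l * c₁.length + l := by ring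
            rw [this]
            omega
          · have h1 := b4 (ev v f₁) v
            simp only [pev, ev] at h1 ⊢
            rw [h1]; rfl
          · intro v v' h
            have h1 : ψ₁ v = ψ₁ v' := a6 v v' fun g' hg' => h g' (List.mem_cons_of_mem _ hg')
            have h2 := h g₁ (by simp)
            simp only
            rw [a5 v, a5 v', h1, h2]
      · -- special inputs in both
        refine ⟨lf none, g₁ :: g₂ :: (c₁ ++ c₂), ?_, ?_, ?_,
          Or.inr ⟨?_, fun v => ev v f₁ && ev v f₂, fun v => rfl, ?_⟩⟩
        · simp [psize, wt', wt]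
        · intro g' hg'
          simp only [List.mem_cons, List.mem_append] at hg'
          rcases hg' with rfl | rfl | h | h
          · exact a1
          · exact b1
          · exact a2 _ h
          · exact b2 _ h
        · intro w
          have h1 := a3 w
          have h2 := b3 w
          simp only [wt', wt, List.map_cons, List.map_append, List.sum_cons, List.sum_append,
            Option.elim] at h1 h2 ⊢
          omega
        · have h0 : psize (lf none : Fm (Option α)) = 0 := rfl
          rw [h0, hsz]
          simp only [List.length_cons, List.length_append]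
          have : l * (c₁.length + c₂.length + 1 + 1) = l * c₁.length + l * c₂.length + 2 * l := by
            ring
          rw [this]
          omega
        · intro v v' h
          have h1 : ψ₁ v = ψ₁ v' := a6 v v' fun g' hg' => h g' (by simp [hg'])
          have h2 : ψ₂ v = ψ₂ v' := b6 v v' fun g' hg' => h g' (by simp [hg'])
          have h3 := h g₁ (by simp)
          have h4 := h g₂ (by simp)
          simp only
          rw [a5 v, a5 v', b5 v, b5 v', h1, h2, h3, h4]

/-- **Decomposition into pieces.** -/
theorem exists_pieces {l : ℕ} (hl : 1 ≤ l) (φ : Fm α) : ∃ G : List (Fm (Option α)),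
    (∀ g ∈ G, psize g ≤ l) ∧ l * G.length ≤ 4 * size φ + l ∧
    (∀ w : α → ℕ, (G.map (wt' w)).sum = wt w φ) ∧
    ∀ v v', (∀ g ∈ G, ∀ σ, pev σ v g = pev σ v' g) → ev v φ = ev v' φ := by
  obtain ⟨g, c, h1, h2, h3, h4⟩ := exists_dec hl φ
  refine ⟨g :: c, ?_, ?_, ?_, ?_⟩
  · intro g' hg'
    simp only [List.mem_cons] at hg'
    rcases hg' with rfl | h
    · exact h1
    · exact h2 _ h
  · simp only [List.length_cons]
    have e : l * (c.length + 1) = l * c.length + l := by ring
    rw [e]
    rcases h4 with ⟨rfl, -⟩ | ⟨h4, -⟩
    · simp
    · omega
  · intro w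
    simpa using h3 w
  · intro v v' h
    rcases h4 with ⟨-, h4⟩ | ⟨-, ψ, h5, h6⟩
    · rw [← h4 true, ← h4 true]
      exact h g (by simp) true
    · rw [h5 v, h5 v', h6 v v' fun g' hg' => h g' (by simp [hg'])]
      exact h g (by simp) _

end Fm

end Pool.Agent.L5helper87.FL
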