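import Mathlib

/-!
# Subsets with prescribed elements; independence of functions of disjoint coordinates
-/

set_option autoImplicit false

open Finset

namespace Pool.Agent.L5helper87.FL

theorem descFactorial_ratio {n a : ℕ} (han : a ≤ n) (t : ℕ) (ht : t ≤ a) :
    n ^ t * a.descFactorial t ≤ a ^ t * n.descFactorial t := by
  induction t with
  | zero => simp
  | succ t ih =>
    have ih' := ih (by omega)
    rw [Nat.descFactorial_succ, Nat.descFactorial_succ, pow_succ, pow_succ]
    have h1 : n * (a - t) ≤ a * (n - t) := by
      zify [show t ≤ a by omega, show t ≤ n by omega]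
      nlinarith [(by exact_mod_cast han : (a : ℤ) ≤ n), (Int.natCast_nonneg t)]
    calc n ^ t * n * ((a - t) * a.descFactorial t) = (n * (a - t)) * (n ^ t * a.descFactorial t) := by
          ring
      _ ≤ (a * (n - t)) * (a ^ t * n.descFactorial t) := Nat.mul_le_mul h1 ih'
      _ = _ := by ring

theorem card_supersets {H : Type} [Fintype H] [DecidableEq H] (a : ℕ) (T : Finset H)
    (han : a ≤ Fintype.card H) :
    ((powersetCard a (univ : Finset H)).filter fun K => T ⊆ K).card * Fintype.card H ^ T.card ≤
      (Fintype.card H).choose a * a ^ T.card := by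
  set n := Fintype.card H
  by_cases hT : T.card ≤ a
  · have h1 : ((powersetCard a (univ : Finset H)).filter fun K => T ⊆ K).card ≤
        (n - T.card).choose (a - T.card) := by
      have h2 : (powersetCard (a - T.card) (univ \ T)).card = (n - T.card).choose (a - T.card) := by
        rw [Finset.card_powersetCard, Finset.card_sdiff_of_subset (Finset.subset_univ _),
          Finset.card_univ]
      rw [← h2]
      apply Finset.card_le_card_of_injOn (fun K => K \ T)
      · intro K hK
        obtain ⟨hK1, hK2⟩ := Finset.mem_filter.1 hK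
        obtain ⟨-, hK3⟩ := Finset.mem_powersetCard.1 hK1
        rw [Finset.mem_coe, Finset.mem_powersetCard]
        refine ⟨Finset.sdiff_subset_sdiff (Finset.subset_univ _) (le_refl _), ?_⟩
        rw [Finset.card_sdiff_of_subset hK2, hK3]
      · intro K hK K' hK' h
        obtain ⟨_, hK2⟩ := Finset.mem_filter.1 hK
        obtain ⟨_, hK2'⟩ := Finset.mem_filter.1 hK'
        simp only at h
        rw [← Finset.sdiff_union_of_subset hK2, ← Finset.sdiff_union_of_subset hK2', h]
    have h3 : n.choose a * a.descFactorial T.card =
        n.descFactorial T.card * (n - T.card).choose (a - T.card) := by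
      rw [Nat.descFactorial_eq_factorial_mul_choose, Nat.descFactorial_eq_factorial_mul_choose]
      have := Nat.choose_mul (n := n) (k := a) (s := T.card) hT
      calc n.choose a * (T.card.factorial * a.choose T.card) =
            T.card.factorial * (n.choose a * a.choose T.card) := by ring
        _ = _ := by rw [this]; ring
    have h4 := descFactorial_ratio han T.card hT
    have h5 : 0 < n.descFactorial T.card := Nat.descFactorial_pos.2 (hT.trans han)
    apply Nat.le_of_mul_le_mul_left _ h5
    calc n.descFactorial T.card * (((powersetCard a (univ : Finset H)).filter fun K => T ⊆ K).card *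
          n ^ T.card) ≤ n.descFactorial T.card * ((n - T.card).choose (a - T.card) * n ^ T.card) :=
          Nat.mul_le_mul_left _ (Nat.mul_le_mul_right _ h1)
      _ = (n.descFactorial T.card * (n - T.card).choose (a - T.card)) * n ^ T.card := by ring
      _ = n.choose a * (n ^ T.card * a.descFactorial T.card) := by rw [← h3]; ring
      _ ≤ n.choose a * (a ^ T.card * n.descFactorial T.card) := Nat.mul_le_mul_left _ h4
      _ = _ := by ring
  · have h0 : ((powersetCard a (univ : Finset H)).filter fun K => T ⊆ K) = ∅ := by
      rw [Finset.filter_eq_empty_iff]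
      intro K hK hTK
      have := Finset.card_le_card hTK
      rw [(Finset.mem_powersetCard.1 hK).2] at this
      exact hT this
    rw [h0]
    simp

section
variable {P H : Type} [Fintype P] [DecidableEq P] [Fintype H] [DecidableEq H]

/-- `z` on `Z`, `w` elsewhere -/
def mix (Z : Finset P) (z w : P → H) (p : P) : H := if p ∈ Z then z p else w p

/-- the exchange of the values on `Z` -/
def swp (Z : Finset P) : (P → H) × (P → H) ≃ (P → H) × (P → H) where
  toFun t := (mix Z t.1 t.2, mix Z t.2 t.1)
  invFun t := (mix Z t.1 t.2, mix Z t.2 t.1)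
  left_inv := by
    rintro ⟨z, w⟩
    ext p <;> simp only [mix] <;> split_ifs <;> rfl
  right_inv := by
    rintro ⟨z, w⟩
    ext p <;> simp only [mix] <;> split_ifs <;> rfl

theorem sum_mix (Z : Finset P) (f : (P → H) → ℕ) :
    ∑ z, ∑ w, f (mix Z z w) = Fintype.card (P → H) * ∑ w, f w := by
  have h1 : ∑ z, ∑ w, f (mix Z z w) = ∑ t : (P → H) × (P → H), f ((swp Z) t).1 := by
    rw [Fintype.sum_prod_type]; rfl
  rw [h1, Equiv.sum_comp (swp Z) (fun t => f t.1), Fintype.sum_prod_type]
  simp only [sum_const, card_univ, smul_eq_mul]
  rw [Finset.mul_sum]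

/-- `f` depends only on the coordinates in `U` -/
def Dep (U : Finset P) (f : (P → H) → ℕ) : Prop := ∀ w w', (∀ p ∈ U, w p = w' p) → f w = f w'

theorem sum_mul_indep {U V : Finset P} (hUV : Disjoint U V) {f g : (P → H) → ℕ} (hf : Dep U f)
    (hg : Dep V g) :
    (∑ w, f w * g w) * Fintype.card (P → H) = (∑ w, f w) * ∑ w, g w := by
  have h1 : (∑ w, f w) * ∑ w, g w = ∑ t : (P → H) × (P → H),
      f ((swp U) t).1 * g ((swp U) t).1 := by
    rw [Finset.sum_mul_sum, Fintype.sum_prod_type]
    apply Finset.sum_congr rfl
    intro w _
    apply Finset.sum_congr rfl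
    intro w' _
    have e1 : f ((swp U) (w, w')).1 = f w := by
      apply hf
      intro p hp
      simp [swp, mix, hp]
    have e2 : g ((swp U) (w, w')).1 = g w' := by
      apply hg
      intro p hp
      have : p ∉ U := fun h => (Finset.disjoint_left.1 hUV) h hp
      simp [swp, mix, this]
    rw [e1, e2]
  rw [h1, Equiv.sum_comp (swp U) (fun t => f t.1 * g t.1), Fintype.sum_prod_type]
  simp only [sum_const, card_univ, smul_eq_mul]
  rw [← Finset.mul_sum, mul_comm]

theorem sum_prod_indep {ι : Type} [DecidableEq ι] (s : Finset ι) (U : ι → Finset P)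
    (hU : ∀ i ∈ s, ∀ j ∈ s, i ≠ j → Disjoint (U i) (U j)) (f : ι → (P → H) → ℕ)
    (hf : ∀ i ∈ s, Dep (U i) (f i)) :
    (∑ w, ∏ i ∈ s, f i w) * Fintype.card (P → H) ^ s.card =
      Fintype.card (P → H) * ∏ i ∈ s, ∑ w, f i w := by
  induction s using Finset.induction_on with
  | empty => simp
  | insert i s hi ih =>
    have ih' := ih (fun a ha b hb => hU a (Finset.mem_insert_of_mem ha) b (Finset.mem_insert_of_mem hb))
      (fun a ha => hf a (Finset.mem_insert_of_mem ha))
    have hd : Disjoint (U i) (s.biUnion U) := by
      rw [Finset.disjoint_biUnion_right]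
      intro j hj
      exact hU i (Finset.mem_insert_self _ _) j (Finset.mem_insert_of_mem hj)
        (fun h => hi (h ▸ hj))
    have hg : Dep (s.biUnion U) (fun w => ∏ j ∈ s, f j w) := by
      intro w w' h
      apply Finset.prod_congr rfl
      intro j hj
      exact hf j (Finset.mem_insert_of_mem hj) w w' fun p hp =>
        h p (Finset.mem_biUnion.2 ⟨j, hj, hp⟩)
    have h1 := sum_mul_indep hd (hf i (Finset.mem_insert_self _ _)) hg
    rw [Finset.card_insert_of_notMem hi, Finset.prod_insert hi, pow_succ]
    simp only [Finset.prod_insert hi]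
    calc (∑ w, f i w * ∏ j ∈ s, f j w) *
          (Fintype.card (P → H) ^ s.card * Fintype.card (P → H)) =
          ((∑ w, f i w * ∏ j ∈ s, f j w) * Fintype.card (P → H)) *
            Fintype.card (P → H) ^ s.card := by ring
      _ = (∑ w, f i w) * ((∑ w, ∏ j ∈ s, f j w) * Fintype.card (P → H) ^ s.card) := by
          rw [h1]; ring
      _ = _ := by rw [ih']; ring

end

end Pool.Agent.L5helper87.FL
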