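import Mathlib

/-!
# Khrapchenko's bound in product spaces and the minority sets
-/

set_option autoImplicit false

open Finset

namespace Pool.Agent.L5helper87.FL

variable {P H : Type} [Fintype P] [DecidableEq P] [Fintype H] [DecidableEq H]

/-- `LF F L`: the function `F` is computed by a De Morgan formula with at most `L` leaves, each of
which is an arbitrary function of one coordinate. -/
inductive LF : ((P → H) → Bool) → ℕ → Prop
  | cst (b : Bool) : LF (fun _ => b) 0
  | leaf (S : H → Bool) (i : P) : LF (fun w => S (w i)) 1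
  | ng {F : (P → H) → Bool} {L : ℕ} : LF F L → LF (fun w => !(F w)) L
  | an {F G : (P → H) → Bool} {L M : ℕ} : LF F L → LF G M → LF (fun w => F w && G w) (L + M)
  | mono {F : (P → H) → Bool} {L M : ℕ} : LF F L → L ≤ M → LF F M

/-- the number of the (directed) edges between `A` and `B` -/
def E (A B : Finset (P → H)) : ℕ :=
  (univ.filter fun t : (P → H) × P × H => t.1 ∈ A ∧ Function.update t.1 t.2.1 t.2.2 ∈ B).card

theorem E_symm (A B : Finset (P → H)) : E A B = E B A := by
  unfold E
  refine Finset.card_nbij' (fun t => (Function.update t.1 t.2.1 t.2.2, t.2.1, t.1 t.2.1))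
    (fun t => (Function.update t.1 t.2.1 t.2.2, t.2.1, t.1 t.2.1)) ?_ ?_ ?_ ?_
  · rintro ⟨w, i, h⟩ ht
    simp only [coe_filter, mem_univ, true_and, Set.mem_ofPred_eq] at ht ⊢
    refine ⟨ht.2, ?_⟩
    simpa using ht.1
  · rintro ⟨w, i, h⟩ ht
    simp only [coe_filter, mem_univ, true_and, Set.mem_ofPred_eq] at ht ⊢
    refine ⟨ht.2, ?_⟩
    simpa using ht.1
  · rintro ⟨w, i, h⟩ _
    simp
  · rintro ⟨w, i, h⟩ _
    simp

theorem E_union (A B C : Finset (P → H)) : E A (B ∪ C) ≤ E A B + E A C := by
  unfold E
  refine le_trans (le_of_eq ?_) (Finset.card_union_le _ _)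
  congr 1
  ext t
  simp only [mem_filter, mem_univ, true_and, mem_union]
  tauto

theorem E_leaf {A B : Finset (P → H)} {S : H → Bool} {i : P}
    (h : ∀ w ∈ A, ∀ w' ∈ B, S (w i) ≠ S (w' i)) : E A B ≤ A.card * Fintype.card H := by
  unfold E
  have h1 : (univ.filter fun t : (P → H) × P × H =>
      t.1 ∈ A ∧ Function.update t.1 t.2.1 t.2.2 ∈ B).card ≤ (A ×ˢ (univ : Finset H)).card := by
    refine Finset.card_le_card_of_injOn (fun t => (t.1, t.2.2)) ?_ ?_
    · rintro ⟨w, j, x⟩ ht
      simp only [coe_filter, mem_univ, true_and, Set.mem_ofPred_eq] at ht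
      simp [ht.1]
    · rintro ⟨w, j, x⟩ ht ⟨w', j', x'⟩ ht' he
      simp only [coe_filter, mem_univ, true_and, Set.mem_ofPred_eq] at ht ht'
      simp only [Prod.mk.injEq] at he
      obtain ⟨rfl, rfl⟩ := he
      have h2 : ∀ k, Function.update w k x ∈ B → k = i := by
        intro k hk
        by_contra hne
        have := h w ht.1 _ hk
        rw [Function.update_of_ne (Ne.symm hne)] at this
        exact this rfl
      rw [h2 j ht.2, h2 j' ht'.2]
  simpa using h1

theorem sqrt_add {x y z w : ℝ} (hx : 0 ≤ x) (hy : 0 ≤ y) (hz : 0 ≤ z) (hw : 0 ≤ w) :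
    √(x * y) + √(z * w) ≤ √((x + z) * (y + w)) := by
  apply Real.le_sqrt_of_sq_le
  rw [Real.sqrt_mul hx, Real.sqrt_mul hz]
  have h1 := Real.mul_self_sqrt hx
  have h2 := Real.mul_self_sqrt hy
  have h3 := Real.mul_self_sqrt hz
  have h4 := Real.mul_self_sqrt hw
  set p := √x
  set q := √y
  set r := √z
  set s := √w
  rw [← h1, ← h2, ← h3, ← h4]
  nlinarith [sq_nonneg (p * s - q * r)]

/-- **Khrapchenko's bound.** -/
theorem khr {F : (P → H) → Bool} {L : ℕ} (hF : LF F L) :
    ∀ A B : Finset (P → H), (∀ w ∈ A, F w = true) → (∀ w ∈ B, F w = false) →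
      (E A B : ℝ) ≤ Fintype.card H * √(L * (A.card * B.card)) := by
  induction hF with
  | cst b =>
    intro A B hA hB
    have h0 : E A B = 0 := by
      unfold E
      rw [Finset.card_eq_zero, Finset.filter_eq_empty_iff]
      rintro ⟨w, i, h⟩ _ ⟨h1, h2⟩
      have h3 := hA _ h1
      have h4 := hB _ h2
      simp only at h3 h4
      rw [h3] at h4
      exact Bool.noConfusion h4
    rw [h0]
    simp
  | leaf S i =>
    intro A B hA hB
    have h1 : E A B ≤ A.card * Fintype.card H := E_leaf (S := S) (i := i) (by
      intro w hw w' hw'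
      have h3 := hA _ hw
      have h4 := hB _ hw'
      simp only at h3 h4
      rw [h3, h4]
      simp)
    have h2 : E A B ≤ B.card * Fintype.card H := by
      rw [E_symm]
      exact E_leaf (S := S) (i := i) (by
        intro w hw w' hw'
        have h3 := hA _ hw'
        have h4 := hB _ hw
        simp only at h3 h4
        rw [h3, h4]
        simp)
    have h1' : (E A B : ℝ) ≤ A.card * Fintype.card H := by exact_mod_cast h1
    have h2' : (E A B : ℝ) ≤ B.card * Fintype.card H := by exact_mod_cast h2
    have hE : (0 : ℝ) ≤ E A B := Nat.cast_nonneg _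
    rw [← Real.sqrt_sq (Nat.cast_nonneg (Fintype.card H) : (0 : ℝ) ≤ Fintype.card H),
      ← Real.sqrt_mul (sq_nonneg _)]
    apply Real.le_sqrt_of_sq_le
    push_cast
    have h5 : (E A B : ℝ) * E A B ≤ (A.card * Fintype.card H) * (B.card * Fintype.card H) :=
      mul_le_mul h1' h2' hE (by positivity)
    nlinarith [h5]
  | ng _ ih =>
    intro A B hA hB
    rw [E_symm, mul_comm (A.card : ℝ)]
    apply ih
    · intro w hw
      have := hB w hw
      simpa using this
    · intro w hw
      have := hA w hw
      simpa using this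
  | @an F G L M _ _ ih₁ ih₂ =>
    intro A B hA hB
    set B₁ := B.filter fun w => F w = false
    set B₂ := B.filter fun w => ¬ F w = false
    have hB12 : B₁ ∪ B₂ = B := Finset.filter_union_filter_not_eq _ _
    have hc : B₁.card + B₂.card = B.card := Finset.card_filter_add_card_filter_not _
    have h1 := ih₁ A B₁ (fun w hw => by have := hA w hw; simp only [Bool.and_eq_true] at this; exact this.1)
      (fun w hw => (Finset.mem_filter.1 hw).2)
    have h2 := ih₂ A B₂ (fun w hw => by have := hA w hw; simp only [Bool.and_eq_true] at this; exact this.2)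
      (fun w hw => by
        obtain ⟨h3, h4⟩ := Finset.mem_filter.1 hw
        have h5 := hB w h3
        simp only [Bool.and_eq_false_iff] at h5
        exact h5.resolve_left h4)
    have h3 : (E A B : ℝ) ≤ E A B₁ + E A B₂ := by
      rw [← hB12]
      exact_mod_cast E_union A B₁ B₂
    have hc' : (B.card : ℝ) = B₁.card + B₂.card := by rw [← hc]; push_cast; ring
    have h4 := sqrt_add (x := (L : ℝ)) (y := A.card * B₁.card) (z := (M : ℝ)) (w := A.card * B₂.card)
      (by positivity) (by positivity) (by positivity) (by positivity)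
    have h5 : ((L : ℝ) + M) * (A.card * B₁.card + A.card * B₂.card) =
        ((L + M : ℕ) : ℝ) * (A.card * B.card) := by
      rw [hc']; push_cast; ring
    rw [h5] at h4
    have h6 : (0 : ℝ) ≤ Fintype.card H := Nat.cast_nonneg _
    nlinarith [mul_le_mul_of_nonneg_left h4 h6]
  | @mono F L M _ hLM ih =>
    intro A B hA hB
    refine (ih A B hA hB).trans ?_
    apply mul_le_mul_of_nonneg_left _ (Nat.cast_nonneg _)
    apply Real.sqrt_le_sqrt
    have : (L : ℝ) ≤ M := by exact_mod_cast hLM
    exact mul_le_mul_of_nonneg_right this (by positivity)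

/-- the number of the sensitive triples -/
def NS (F : (P → H) → Bool) : ℕ :=
  (univ.filter fun t : (P → H) × P × H => F t.1 ≠ F (Function.update t.1 t.2.1 t.2.2)).card

theorem NS_le {F : (P → H) → Bool} {L : ℕ} (hF : LF F L) :
    (NS F : ℝ) ≤ Fintype.card H * Fintype.card (P → H) * √L := by
  set T := (univ : Finset (P → H)).filter fun w => F w = true
  set U := (univ : Finset (P → H)).filter fun w => ¬ F w = true
  have hc : T.card + U.card = Fintype.card (P → H) := Finset.card_filter_add_card_filter_not _
  have h1 : NS F ≤ E T U + E U T := by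
    unfold NS E
    refine le_trans (Finset.card_le_card ?_) (Finset.card_union_le _ _)
    rintro ⟨w, i, h⟩ ht
    simp only [mem_filter, mem_univ, true_and, mem_union, T, U] at ht ⊢
    rcases hw : F w with _ | _
    · right
      refine ⟨by simp, ?_⟩
      rw [hw] at ht
      rcases hv : F (Function.update w i h) with _ | _
      · rw [hv] at ht; exact absurd rfl ht
      · rfl
    · left
      refine ⟨rfl, ?_⟩
      rw [hw] at ht
      intro hv
      rw [hv] at ht
      exact ht rfl
  have h2 := khr hF T U (fun w hw => (Finset.mem_filter.1 hw).2) (fun w hw => by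
    have := (Finset.mem_filter.1 hw).2
    simpa using this)
  have h3 : (NS F : ℝ) ≤ 2 * E T U := by
    have : (NS F : ℝ) ≤ E T U + E U T := by exact_mod_cast h1
    rw [E_symm U T] at this
    linarith
  have h4 : √((L : ℝ) * (T.card * U.card)) ≤ √L * (Fintype.card (P → H) / 2) := by
    rw [Real.sqrt_mul (Nat.cast_nonneg _)]
    apply mul_le_mul_of_nonneg_left _ (Real.sqrt_nonneg _)
    apply Real.sqrt_le_iff.2
    refine ⟨by positivity, ?_⟩
    have hc' : (Fintype.card (P → H) : ℝ) = T.card + U.card := by rw [← hc]; push_cast; ring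
    rw [hc']
    nlinarith [sq_nonneg ((T.card : ℝ) - U.card)]
  have h5 : (0 : ℝ) ≤ Fintype.card H := Nat.cast_nonneg _
  nlinarith [mul_le_mul_of_nonneg_left h4 h5]

/-- the majority value in the direction `i` -/
def maj (F : (P → H) → Bool) (w : P → H) (i : P) : Bool :=
  decide (Fintype.card H ≤ 2 * (univ.filter fun h : H => F (Function.update w i h) = true).card)

/-- the minority set in the direction `i` -/
def Mn (F : (P → H) → Bool) (w : P → H) (i : P) : Finset H :=
  univ.filter fun h => F (Function.update w i h) ≠ maj F w i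

theorem Mn_update (F : (P → H) → Bool) (w : P → H) (i : P) (x : H) :
    Mn F (Function.update w i x) i = Mn F w i := by
  unfold Mn maj
  simp only [Function.update_idem]

theorem Mn_pairs (F : (P → H) → Bool) (w : P → H) (i : P) :
    Fintype.card H * (Mn F w i).card ≤ (univ.filter fun t : H × H =>
      F (Function.update w i t.1) ≠ F (Function.update w i t.2)).card := by
  set T := (univ : Finset H).filter fun h => F (Function.update w i h) = true with hT
  set U := (univ : Finset H).filter fun h => ¬ F (Function.update w i h) = true with hU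
  have hc : T.card + U.card = Fintype.card H := Finset.card_filter_add_card_filter_not _
  have hd : Disjoint (T ×ˢ U) (U ×ˢ T) := by
    rw [Finset.disjoint_left]
    rintro ⟨a, b⟩ h1 h2
    rw [Finset.mem_product] at h1 h2
    exact (Finset.mem_filter.1 h2.1).2 (Finset.mem_filter.1 h1.1).2
  have h1 : T.card * U.card + U.card * T.card ≤ (univ.filter fun t : H × H =>
      F (Function.update w i t.1) ≠ F (Function.update w i t.2)).card := by
    rw [← Finset.card_product, ← Finset.card_product, ← Finset.card_union_of_disjoint hd]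
    apply Finset.card_le_card
    rintro ⟨a, b⟩ hab
    rw [Finset.mem_union, Finset.mem_product, Finset.mem_product] at hab
    rw [Finset.mem_filter]
    refine ⟨Finset.mem_univ _, ?_⟩
    rcases hab with ⟨h2, h3⟩ | ⟨h2, h3⟩
    · have h2' := (Finset.mem_filter.1 h2).2
      have h3' := (Finset.mem_filter.1 h3).2
      simp only at h2' h3' ⊢
      rw [h2']
      exact fun h => h3' h.symm
    · have h2' := (Finset.mem_filter.1 h2).2
      have h3' := (Finset.mem_filter.1 h3).2
      simp only at h2' h3' ⊢
      rw [h3']
      exact h2'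
  refine le_trans ?_ h1
  by_cases hm : Fintype.card H ≤ 2 * T.card
  · have hmaj : maj F w i = true := by
      unfold maj
      exact decide_eq_true hm
    have hMn : Mn F w i = U := by
      unfold Mn
      rw [hmaj]
    rw [hMn]
    calc Fintype.card H * U.card ≤ 2 * T.card * U.card := Nat.mul_le_mul_right _ hm
      _ = _ := by ring
  · have hmaj : maj F w i = false := by
      unfold maj
      exact decide_eq_false hm
    have hMn : Mn F w i = T := by
      unfold Mn
      rw [hmaj]
      ext h
      simp [hT]
    rw [hMn]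
    have : Fintype.card H ≤ 2 * U.card := by omega
    calc Fintype.card H * T.card ≤ 2 * U.card * T.card := Nat.mul_le_mul_right _ this
      _ = _ := by ring

/-- the exchange of `(w, h)` and `(update w i h, w i)` -/
def exch (i : P) : (P → H) × H ≃ (P → H) × H where
  toFun t := (Function.update t.1 i t.2, t.1 i)
  invFun t := (Function.update t.1 i t.2, t.1 i)
  left_inv := by rintro ⟨w, h⟩; simp
  right_inv := by rintro ⟨w, h⟩; simp

theorem sum_update (i : P) (f : (P → H) → ℕ) :
    ∑ w, ∑ h, f (Function.update w i h) = Fintype.card H * ∑ w, f w := by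
  have h1 : ∑ w, ∑ h, f (Function.update w i h) = ∑ t : (P → H) × H, f ((exch i) t).1 := by
    rw [Fintype.sum_prod_type]; rfl
  rw [h1, Equiv.sum_comp (exch i) (fun t => f t.1), Fintype.sum_prod_type]
  simp only [sum_const, card_univ, smul_eq_mul]
  rw [Finset.mul_sum]

theorem Mn_sum (F : (P → H) → Bool) (i : P) :
    ∑ w, (Mn F w i).card ≤ ∑ w, (univ.filter fun h : H => F w ≠ F (Function.update w i h)).card := by
  rcases isEmpty_or_nonempty H with hH | hH
  · have : IsEmpty (P → H) := ⟨fun w => hH.elim (w i)⟩
    simp
  have hpos : 0 < Fintype.card H := Fintype.card_pos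
  have h1 : Fintype.card H * ∑ w, (Mn F w i).card ≤ Fintype.card H *
      ∑ w, (univ.filter fun h : H => F w ≠ F (Function.update w i h)).card := by
    have h2 := sum_update i (fun w : P → H =>
      (univ.filter fun h : H => F w ≠ F (Function.update w i h)).card)
    rw [← h2, Finset.mul_sum]
    apply Finset.sum_le_sum
    intro w _
    refine (Mn_pairs F w i).trans (le_of_eq ?_)
    rw [Finset.card_filter, Fintype.sum_prod_type]
    apply Finset.sum_congr rfl
    intro h _
    rw [Finset.card_filter]
    simp only [Function.update_idem]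
  exact Nat.le_of_mul_le_mul_left h1 hpos

/-- **Minority sets of formulas are small on average.** -/
theorem Mn_le {F : (P → H) → Bool} {L : ℕ} (hF : LF F L) :
    ((∑ i, ∑ w, (Mn F w i).card : ℕ) : ℝ) ≤ Fintype.card H * Fintype.card (P → H) * √L := by
  refine le_trans ?_ (NS_le hF)
  have h1 : ∑ i, ∑ w, (Mn F w i).card ≤ NS F := by
    have h2 : NS F = ∑ i, ∑ w, (univ.filter fun h : H => F w ≠ F (Function.update w i h)).card := by
      unfold NS
      rw [Finset.card_filter, Fintype.sum_prod_type, Finset.sum_comm (s := (univ : Finset P))]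
      apply Finset.sum_congr rfl
      intro w _
      rw [Fintype.sum_prod_type]
      apply Finset.sum_congr rfl
      intro i _
      rw [Finset.card_filter]
    rw [h2]
    exact Finset.sum_le_sum fun i _ => Mn_sum F i
  exact_mod_cast h1

end Pool.Agent.L5helper87.FL
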