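import Mathlib

/-!
# Counting bijections with prescribed values
-/

set_option autoImplicit false

open Finset

namespace Pool.Agent.L5helper87.FL

section
variable {P Q : Type} [Fintype P] [DecidableEq P] [Fintype Q] [DecidableEq Q]

theorem card_fix_le (hN : Fintype.card P = Fintype.card Q) (S : Finset P) (f : P → Q) :
    (univ.filter fun e : P ≃ Q => ∀ p ∈ S, e p = f p).card ≤ (Fintype.card P - S.card).factorial := by
  classical
  rcases (univ.filter fun e : P ≃ Q => ∀ p ∈ S, e p = f p).eq_empty_or_nonempty with h0 | ⟨e₀, he₀⟩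
  · rw [h0]; simp
  have he₀' := (Finset.mem_filter.1 he₀).2
  have himg : (S.image f).card = S.card := by
    apply Finset.card_image_of_injOn
    intro a ha b hb hab
    rw [← he₀' a ha, ← he₀' b hb] at hab
    exact e₀.injective hab
  have h1 : (univ.filter fun e : P ≃ Q => ∀ p ∈ S, e p = f p).card =
      Fintype.card {e : P ≃ Q // ∀ p ∈ S, e p = f p} := by
    rw [Fintype.card_subtype]
  rw [h1]
  let F : {e : P ≃ Q // ∀ p ∈ S, e p = f p} → ({p : P // p ∉ S} ↪ {q : Q // q ∉ S.image f}) :=
    fun e => ⟨fun p => ⟨e.1 p.1, by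
      intro hp
      obtain ⟨p', hp', h2⟩ := Finset.mem_image.1 hp
      rw [← e.2 p' hp'] at h2
      have := e.1.injective h2
      exact p.2 (this ▸ hp')⟩, by
      intro a b hab
      simp only [Subtype.mk.injEq] at hab
      exact Subtype.ext (e.1.injective hab)⟩
  have hF : Function.Injective F := by
    intro e e' h
    apply Subtype.ext
    apply Equiv.ext
    intro p
    by_cases hp : p ∈ S
    · rw [e.2 p hp, e'.2 p hp]
    · have := DFunLike.congr_fun h ⟨p, hp⟩
      exact congrArg Subtype.val this
  refine (Fintype.card_le_of_injective F hF).trans (le_of_eq ?_)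
  rw [Fintype.card_embedding_eq]
  have h2 : Fintype.card {p : P // p ∉ S} = Fintype.card P - S.card := by
    rw [Fintype.card_subtype_compl, Fintype.card_coe]
  have h3 : Fintype.card {q : Q // q ∉ S.image f} = Fintype.card P - S.card := by
    rw [Fintype.card_subtype_compl, Fintype.card_coe, himg, hN]
  rw [h2, h3, Nat.descFactorial_self]

theorem card_fix_range_le (hN : Fintype.card P = Fintype.card Q) (S D : Finset P)
    (hSD : Disjoint S D) (K : Finset Q) (f : P → Q) :
    (univ.filter fun e : P ≃ Q => (∀ p ∈ S, e p ∈ K) ∧ ∀ p ∈ D, e p = f p).card ≤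
      K.card ^ S.card * (Fintype.card P - (S.card + D.card)).factorial := by
  classical
  set X := univ.filter fun e : P ≃ Q => (∀ p ∈ S, e p ∈ K) ∧ ∀ p ∈ D, e p = f p
  have h1 : X.card ≤ (Fintype.card P - (S.card + D.card)).factorial *
      (X.image fun e => fun s : S => e s.1).card := by
    apply Finset.card_le_mul_card_image
    intro κ _
    refine le_trans (Finset.card_le_card ?_) (le_trans (card_fix_le hN (S ∪ D)
      (fun p => if h : p ∈ S then κ ⟨p, h⟩ else f p)) (le_of_eq ?_))
    · intro e he
      obtain ⟨h2, h3⟩ := Finset.mem_filter.1 he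
      have h4 := (Finset.mem_filter.1 h2).2
      rw [Finset.mem_filter]
      refine ⟨Finset.mem_univ _, fun p hp => ?_⟩
      by_cases hpS : p ∈ S
      · rw [dif_pos hpS, ← h3]
      · rw [dif_neg hpS]
        exact h4.2 p ((Finset.mem_union.1 hp).resolve_left hpS)
    · rw [Finset.card_union_of_disjoint hSD]
  have h2 : (X.image fun e => fun s : S => e s.1).card ≤ K.card ^ S.card := by
    have h3 : (X.image fun e => fun s : S => e s.1) ⊆ Fintype.piFinset fun _ : S => K := by
      intro κ hκ
      obtain ⟨e, he, rfl⟩ := Finset.mem_image.1 hκ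
      rw [Fintype.mem_piFinset]
      intro s
      exact ((Finset.mem_filter.1 he).2).1 s.1 s.2
    refine (Finset.card_le_card h3).trans (le_of_eq ?_)
    rw [Fintype.card_piFinset]
    simp
  rw [mul_comm]
  exact h1.trans (Nat.mul_le_mul_left _ h2)

end

/-- `(N - j)! N ^ j ≤ 2 N!` if `2 j ^ 2 ≤ N` -/
theorem factorial_bound {N j : ℕ} (h : 2 * j ^ 2 ≤ N) :
    (N - j).factorial * N ^ j ≤ 2 * N.factorial := by
  rcases Nat.eq_zero_or_pos j with rfl | hj
  · simp; omega
  have hjN : j ≤ N := by nlinarith
  have h1 : N.factorial = (N - j).factorial * N.descFactorial j :=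
    (Nat.factorial_mul_descFactorial hjN).symm
  have h2 : (N + 1 - j) ^ j ≤ N.descFactorial j := Nat.pow_sub_le_descFactorial N j
  have h3 : N ^ j ≤ 2 * (N + 1 - j) ^ j := by
    have hN : (0 : ℝ) < N := by
      have : 0 < N := by nlinarith
      exact_mod_cast this
    have h4 : ((1 : ℝ) / 2) ≤ (1 + -(((j : ℝ) - 1) / N)) ^ j := by
      refine le_trans ?_ (one_add_mul_le_pow (a := -(((j : ℝ) - 1) / N)) ?_ j)
      · have : (j : ℝ) * (((j : ℝ) - 1) / N) ≤ 1 / 2 := by
          rw [← mul_div_assoc, div_le_iff₀ hN]
          have h' : (2 : ℝ) * j ^ 2 ≤ N := by exact_mod_cast h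
          have hj' : (1 : ℝ) ≤ j := by exact_mod_cast hj
          nlinarith
        linarith
      · have h' : (2 : ℝ) * j ^ 2 ≤ N := by exact_mod_cast h
        have hj' : (1 : ℝ) ≤ j := by exact_mod_cast hj
        have : ((j : ℝ) - 1) / N ≤ 1 := by
          rw [div_le_one hN]
          nlinarith
        linarith
    have h5 : (((N + 1 - j : ℕ) : ℝ)) = N * (1 + -(((j : ℝ) - 1) / N)) := by
      rw [Nat.cast_sub (by omega)]
      push_cast
      field_simp
      ring
    have h6 : ((N ^ j : ℕ) : ℝ) ≤ ((2 * (N + 1 - j) ^ j : ℕ) : ℝ) := by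
      push_cast
      rw [h5, mul_pow]
      have h7 : (0 : ℝ) < (N : ℝ) ^ j := by positivity
      nlinarith
    exact_mod_cast h6
  rw [h1]
  calc (N - j).factorial * N ^ j ≤ (N - j).factorial * (2 * (N + 1 - j) ^ j) :=
        Nat.mul_le_mul_left _ h3
    _ ≤ (N - j).factorial * (2 * N.descFactorial j) :=
        Nat.mul_le_mul_left _ (Nat.mul_le_mul_left _ h2)
    _ = _ := by ring

section
variable {P H : Type} [Fintype P] [DecidableEq P] [Fintype H] [DecidableEq H]

/-- the assignment of the bijection `e` -/
def xa (h₀ : H) (e : P ≃ Option H) (p : P) : H := (e p).getD h₀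

theorem card_agree (D : Finset P) (x : P → H) :
    (univ.filter fun w : P → H => ∀ d ∈ D, w d = x d).card =
      Fintype.card H ^ (Fintype.card P - D.card) := by
  have h1 : (univ.filter fun w : P → H => ∀ d ∈ D, w d = x d) =
      Fintype.piFinset fun p => if p ∈ D then {x p} else univ := by
    ext w
    rw [Finset.mem_filter, Fintype.mem_piFinset]
    constructor
    · rintro ⟨-, h⟩ p
      split_ifs with hp
      · exact Finset.mem_singleton.2 (h p hp)
      · exact Finset.mem_univ _
    · intro h
      refine ⟨Finset.mem_univ _, fun d hd => ?_⟩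
      have := h d
      rw [if_pos hd] at this
      exact Finset.mem_singleton.1 this
  rw [h1, Fintype.card_piFinset]
  have h2 : ∀ p, (if p ∈ D then ({x p} : Finset H) else univ).card =
      if p ∈ D then 1 else Fintype.card H := by
    intro p
    split_ifs <;> simp
  simp only [h2]
  rw [Finset.prod_ite]
  simp only [prod_const_one, one_mul, prod_const]
  congr 1
  rw [Finset.filter_not, Finset.card_sdiff_of_subset (Finset.filter_subset _ _)]
  simp

/-- **Bijections with an alive set and a condition on the dead set.** -/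
theorem bij_count (hN : Fintype.card P = Fintype.card H + 1) (h₀ : H) (S D : Finset P)
    (hSD : Disjoint S D) (hj : 2 * (S.card + D.card) ^ 2 ≤ Fintype.card P) (K : Finset (Option H))
    (R : (P → H) → Prop) [DecidablePred R]
    (hR : ∀ w w', (∀ d ∈ D, w d = w' d) → R w → R w') :
    (univ.filter fun e : P ≃ Option H => (∀ p ∈ S, e p ∈ K) ∧ (∀ d ∈ D, e d ≠ none) ∧
      R (xa h₀ e)).card * Fintype.card P ^ S.card * Fintype.card (P → H) ≤
    2 * (Fintype.card P).factorial * K.card ^ S.card * (univ.filter fun w => R w).card := by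
  classical
  set X := univ.filter fun e : P ≃ Option H => (∀ p ∈ S, e p ∈ K) ∧ (∀ d ∈ D, e d ≠ none) ∧
      R (xa h₀ e) with hX
  set j := S.card + D.card with hjd
  have hjN : j ≤ Fintype.card P := by nlinarith
  have hDN : D.card ≤ Fintype.card P := by omega
  -- pairs
  have h1 : (univ.filter fun t : (P ≃ Option H) × (P → H) => t.1 ∈ X ∧
        ∀ d ∈ D, t.2 d = xa h₀ t.1 d).card =
      X.card * Fintype.card H ^ (Fintype.card P - D.card) := by
    rw [Finset.card_filter, Fintype.sum_prod_type]
    have : ∀ e : P ≃ Option H, (∑ w : P → H, if ((e, w).1 ∈ X ∧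
        ∀ d ∈ D, (e, w).2 d = xa h₀ (e, w).1 d) then 1 else 0) =
        if e ∈ X then Fintype.card H ^ (Fintype.card P - D.card) else 0 := by
      intro e
      split_ifs with he
      · rw [← card_agree D (xa h₀ e), Finset.card_filter]
        apply Finset.sum_congr rfl
        intro w _
        simp [he]
      · simp [he]
    rw [Finset.sum_congr rfl fun e _ => this e, ← Finset.sum_filter, Finset.sum_const, smul_eq_mul]
    simp
  have h2 : (univ.filter fun t : (P ≃ Option H) × (P → H) => t.1 ∈ X ∧
        ∀ d ∈ D, t.2 d = xa h₀ t.1 d).card ≤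
      ∑ w ∈ univ.filter fun w => R w, K.card ^ S.card * (Fintype.card P - j).factorial := by
    rw [Finset.card_filter, Fintype.sum_prod_type_right, Finset.sum_filter]
    apply Finset.sum_le_sum
    intro w _
    by_cases hw : R w
    · rw [if_pos hw]
      refine le_trans (le_of_eq (Finset.card_filter _ _).symm) ?_
      refine le_trans (Finset.card_le_card ?_)
        (card_fix_range_le (by rw [Fintype.card_option, hN]) S D hSD K (fun p => some (w p)))
      intro e he
      obtain ⟨-, he1, he2⟩ := Finset.mem_filter.1 he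
      simp only at he1 he2
      obtain ⟨-, hS, hD, -⟩ := Finset.mem_filter.1 he1
      rw [Finset.mem_filter]
      refine ⟨Finset.mem_univ _, hS, fun d hd => ?_⟩
      have h3 := hD d hd
      obtain ⟨x, hx⟩ := Option.ne_none_iff_exists'.1 h3
      rw [he2 d hd, xa, hx]
      rfl
    · rw [if_neg hw]
      apply le_of_eq
      apply Finset.sum_eq_zero
      intro e _
      rw [if_neg]
      rintro ⟨he1, he2⟩
      obtain ⟨-, -, -, hRe⟩ := Finset.mem_filter.1 he1
      exact hw (hR _ _ (fun d hd => (he2 d hd).symm) hRe)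
  rw [Finset.sum_const, smul_eq_mul] at h2
  have h3 := factorial_bound hj
  have h4 : Fintype.card (P → H) = Fintype.card H ^ (Fintype.card P - D.card) *
      Fintype.card H ^ D.card := by
    rw [Fintype.card_fun, ← pow_add, Nat.sub_add_cancel hDN]
  have h5 : Fintype.card P ^ S.card * Fintype.card H ^ D.card ≤ Fintype.card P ^ j := by
    rw [hjd, pow_add]
    exact Nat.mul_le_mul_left _ (Nat.pow_le_pow_left (by omega) _)
  set RW := (univ.filter fun w => R w).card
  calc X.card * Fintype.card P ^ S.card * Fintype.card (P → H)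
      = (X.card * Fintype.card H ^ (Fintype.card P - D.card)) *
        (Fintype.card P ^ S.card * Fintype.card H ^ D.card) := by rw [h4]; ring
    _ ≤ (RW * (K.card ^ S.card * (Fintype.card P - j).factorial)) * Fintype.card P ^ j :=
        Nat.mul_le_mul (h1 ▸ h2) h5
    _ = RW * K.card ^ S.card * ((Fintype.card P - j).factorial * Fintype.card P ^ j) := by ring
    _ ≤ RW * K.card ^ S.card * (2 * (Fintype.card P).factorial) := Nat.mul_le_mul_left _ h3
    _ = _ := by ring

end

end Pool.Agent.L5helper87.FL
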