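import Pool.Agent.L5helper87.FL.Kh
import Pool.Agent.L5helper87.FL.Pm
import Pool.Agent.L5helper87.FL.Ind

/-!
# Khrapchenko's bound in the space of bijections
-/

set_option autoImplicit false

open Finset

namespace Pool.Agent.L5helper87.FL

section
variable {P H : Type} [Fintype P] [DecidableEq P] [Fintype H] [DecidableEq H]

/-- the pigeon `i` gets the hole `c`, by an exchange -/
def mv (e : P ≃ Option H) (i : P) (c : Option H) : P ≃ Option H := e.trans (Equiv.swap (e i) c)

theorem mv_self (e : P ≃ Option H) (i : P) (c : Option H) : mv e i c i = c := by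
  simp [mv]

theorem mv_of_ne {e : P ≃ Option H} {i j : P} {c : Option H} (hj : j ≠ i) (hc : e j ≠ c) :
    mv e i c j = e j := by
  simp only [mv, Equiv.trans_apply]
  exact Equiv.swap_apply_of_ne_of_ne (fun h => hj (e.injective h)) hc

theorem mv_mv (e : P ≃ Option H) (i : P) (c : Option H) : mv (mv e i c) i (e i) = e := by
  apply Equiv.ext
  intro x
  have h1 : mv e i c i = c := mv_self e i c
  rw [mv, h1]
  simp only [mv, Equiv.trans_apply]
  rw [Equiv.swap_comm c (e i), Equiv.swap_apply_self]

/-- the number of the directed edges between `A` and `B` -/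
def Eb (A B : Finset (P ≃ Option H)) : ℕ :=
  (univ.filter fun t : (P ≃ Option H) × P × Option H =>
    t.1 ∈ A ∧ mv t.1 t.2.1 t.2.2 ∈ B).card

theorem Eb_symm (A B : Finset (P ≃ Option H)) : Eb A B = Eb B A := by
  unfold Eb
  refine Finset.card_nbij' (fun t => (mv t.1 t.2.1 t.2.2, t.2.1, t.1 t.2.1))
    (fun t => (mv t.1 t.2.1 t.2.2, t.2.1, t.1 t.2.1)) ?_ ?_ ?_ ?_
  · rintro ⟨e, i, c⟩ ht
    simp only [coe_filter, mem_univ, true_and, Set.mem_ofPred_eq] at ht ⊢
    rw [mv_mv]
    exact ⟨ht.2, ht.1⟩
  · rintro ⟨e, i, c⟩ ht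
    simp only [coe_filter, mem_univ, true_and, Set.mem_ofPred_eq] at ht ⊢
    rw [mv_mv]
    exact ⟨ht.2, ht.1⟩
  · rintro ⟨e, i, c⟩ _
    simp only [mv_mv, mv_self]
  · rintro ⟨e, i, c⟩ _
    simp only [mv_mv, mv_self]

theorem Eb_union (A B C : Finset (P ≃ Option H)) : Eb A (B ∪ C) ≤ Eb A B + Eb A C := by
  unfold Eb
  refine le_trans (le_of_eq ?_) (Finset.card_union_le _ _)
  congr 1
  ext t
  simp only [mem_filter, mem_univ, true_and, mem_union]
  tauto

theorem Eb_leaf (hN : Fintype.card P = Fintype.card H + 1) {h₀ : H} {A B : Finset (P ≃ Option H)}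
    {S : H → Bool} {j : P}
    (h : ∀ e ∈ A, ∀ e' ∈ B, S (xa h₀ e j) ≠ S (xa h₀ e' j)) :
    Eb A B ≤ A.card * (2 * Fintype.card P) := by
  unfold Eb
  have hmem : ∀ (e : P ≃ Option H) (i : P) (c : Option H), e ∈ A → mv e i c ∈ B →
      i ≠ j → c = e j := by
    intro e i c he hm hij
    by_contra hne
    have h1 : mv e i c j = e j := mv_of_ne (Ne.symm hij) (Ne.symm hne)
    have h2 := h e he _ hm
    apply h2
    unfold xa
    rw [h1]
  have h1 : (univ.filter fun t : (P ≃ Option H) × P × Option H =>
      t.1 ∈ A ∧ mv t.1 t.2.1 t.2.2 ∈ B).card ≤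
      (A ×ˢ (univ : Finset (Option H ⊕ P))).card := by
    refine Finset.card_le_card_of_injOn
      (fun t => (t.1, if t.2.1 = j then Sum.inl t.2.2 else Sum.inr t.2.1)) ?_ ?_
    · rintro ⟨e, i, c⟩ ht
      simp only [coe_filter, mem_univ, true_and, Set.mem_ofPred_eq] at ht
      simp [ht.1]
    · rintro ⟨e, i, c⟩ ht ⟨e', i', c'⟩ ht' he
      simp only [coe_filter, mem_univ, true_and, Set.mem_ofPred_eq] at ht ht'
      simp only [Prod.mk.injEq] at he
      obtain ⟨rfl, he⟩ := he
      by_cases hi : i = j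
      · by_cases hi' : i' = j
        · rw [if_pos hi, if_pos hi'] at he
          rw [hi, hi', Sum.inl.inj he]
        · rw [if_pos hi, if_neg hi'] at he
          exact absurd he (by simp)
      · by_cases hi' : i' = j
        · rw [if_neg hi, if_pos hi'] at he
          exact absurd he (by simp)
        · rw [if_neg hi, if_neg hi'] at he
          have := Sum.inr.inj he
          subst this
          rw [hmem e i c ht.1 ht.2 hi, hmem e i c' ht'.1 ht'.2 hi]
  rw [Finset.card_product, Finset.card_univ, Fintype.card_sum, Fintype.card_option, ← hN] at h1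
  rw [two_mul]
  exact h1

/-- **Khrapchenko's bound for bijections.** -/
theorem khrb (hN : Fintype.card P = Fintype.card H + 1) (h₀ : H) {F : (P → H) → Bool} {L : ℕ}
    (hF : LF F L) :
    ∀ A B : Finset (P ≃ Option H), (∀ e ∈ A, F (xa h₀ e) = true) →
      (∀ e ∈ B, F (xa h₀ e) = false) →
      (Eb A B : ℝ) ≤ (2 * Fintype.card P) * √(L * (A.card * B.card)) := by
  induction hF with
  | cst b =>
    intro A B hA hB
    have h0 : Eb A B = 0 := by
      unfold Eb
      rw [Finset.card_eq_zero, Finset.filter_eq_empty_iff]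
      rintro ⟨w, i, h⟩ _ ⟨h1, h2⟩
      have h3 := hA _ h1
      have h4 := hB _ h2
      simp only at h3 h4
      rw [h3] at h4
      exact Bool.noConfusion h4
    rw [h0]
    push_cast
    positivity
  | leaf S i =>
    intro A B hA hB
    have h1 : Eb A B ≤ A.card * (2 * Fintype.card P) := Eb_leaf hN (h₀ := h₀) (S := S) (j := i) (by
      intro w hw w' hw'
      have h3 := hA _ hw
      have h4 := hB _ hw'
      simp only at h3 h4
      rw [h3, h4]
      simp)
    have h2 : Eb A B ≤ B.card * (2 * Fintype.card P) := by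
      rw [Eb_symm]
      exact Eb_leaf hN (h₀ := h₀) (S := S) (j := i) (by
        intro w hw w' hw'
        have h3 := hA _ hw'
        have h4 := hB _ hw
        simp only at h3 h4
        rw [h3, h4]
        simp)
    have h1' : (Eb A B : ℝ) ≤ A.card * (2 * Fintype.card P) := by exact_mod_cast h1
    have h2' : (Eb A B : ℝ) ≤ B.card * (2 * Fintype.card P) := by exact_mod_cast h2
    have hE : (0 : ℝ) ≤ Eb A B := Nat.cast_nonneg _
    rw [← Real.sqrt_sq (by positivity : (0 : ℝ) ≤ 2 * Fintype.card P),
      ← Real.sqrt_mul (sq_nonneg _)]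
    apply Real.le_sqrt_of_sq_le
    push_cast
    have h5 : (Eb A B : ℝ) * Eb A B ≤
        (A.card * (2 * Fintype.card P)) * (B.card * (2 * Fintype.card P)) :=
      mul_le_mul h1' h2' hE (by positivity)
    nlinarith [h5]
  | ng _ ih =>
    intro A B hA hB
    rw [Eb_symm, mul_comm (A.card : ℝ)]
    apply ih
    · intro w hw
      have := hB w hw
      simpa using this
    · intro w hw
      have := hA w hw
      simpa using this
  | @an F G L M _ _ ih₁ ih₂ =>
    intro A B hA hB
    set B₁ := B.filter fun e => F (xa h₀ e) = false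
    set B₂ := B.filter fun e => ¬ F (xa h₀ e) = false
    have hB12 : B₁ ∪ B₂ = B := Finset.filter_union_filter_not_eq _ _
    have hc : B₁.card + B₂.card = B.card := Finset.card_filter_add_card_filter_not _
    have h1 := ih₁ A B₁ (fun w hw => by
      have := hA w hw; simp only [Bool.and_eq_true] at this; exact this.1)
      (fun w hw => (Finset.mem_filter.1 hw).2)
    have h2 := ih₂ A B₂ (fun w hw => by
      have := hA w hw; simp only [Bool.and_eq_true] at this; exact this.2)
      (fun w hw => by
        obtain ⟨h3, h4⟩ := Finset.mem_filter.1 hw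
        have h5 := hB w h3
        simp only [Bool.and_eq_false_iff] at h5
        exact h5.resolve_left h4)
    have h3 : (Eb A B : ℝ) ≤ Eb A B₁ + Eb A B₂ := by
      rw [← hB12]
      exact_mod_cast Eb_union A B₁ B₂
    have hc' : (B.card : ℝ) = B₁.card + B₂.card := by rw [← hc]; push_cast; ring
    have h4 := sqrt_add (x := (L : ℝ)) (y := A.card * B₁.card) (z := (M : ℝ)) (w := A.card * B₂.card)
      (by positivity) (by positivity) (by positivity) (by positivity)
    have h5 : ((L : ℝ) + M) * (A.card * B₁.card + A.card * B₂.card) =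
        ((L + M : ℕ) : ℝ) * (A.card * B.card) := by
      rw [hc']; push_cast; ring
    rw [h5] at h4
    have h6 : (0 : ℝ) ≤ 2 * Fintype.card P := by positivity
    nlinarith [mul_le_mul_of_nonneg_left h4 h6]
  | @mono F L M _ hLM ih =>
    intro A B hA hB
    refine (ih A B hA hB).trans ?_
    apply mul_le_mul_of_nonneg_left _ (by positivity)
    apply Real.sqrt_le_sqrt
    have : (L : ℝ) ≤ M := by exact_mod_cast hLM
    exact mul_le_mul_of_nonneg_right this (by positivity)

/-- the sensitive triples in a set of bijections -/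
theorem NSb_le (hN : Fintype.card P = Fintype.card H + 1) (h₀ : H) {F : (P → H) → Bool} {lam : ℕ}
    (hF : LF F (lam ^ 2)) (X : Finset (P ≃ Option H)) :
    (univ.filter fun t : (P ≃ Option H) × P × Option H => t.1 ∈ X ∧ mv t.1 t.2.1 t.2.2 ∈ X ∧
      F (xa h₀ t.1) ≠ F (xa h₀ (mv t.1 t.2.1 t.2.2))).card ≤
      2 * Fintype.card P * lam * X.card := by
  set T := X.filter fun e => F (xa h₀ e) = true
  set U := X.filter fun e => ¬ F (xa h₀ e) = true
  have hc : T.card + U.card = X.card := Finset.card_filter_add_card_filter_not _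
  have h1 : (univ.filter fun t : (P ≃ Option H) × P × Option H => t.1 ∈ X ∧
      mv t.1 t.2.1 t.2.2 ∈ X ∧
      F (xa h₀ t.1) ≠ F (xa h₀ (mv t.1 t.2.1 t.2.2))).card ≤ Eb T U + Eb U T := by
    unfold Eb
    refine le_trans (Finset.card_le_card ?_) (Finset.card_union_le _ _)
    rintro ⟨e, i, c⟩ ht
    simp only [mem_filter, mem_univ, true_and, mem_union, T, U] at ht ⊢
    obtain ⟨h1, h2, h3⟩ := ht
    rcases hw : F (xa h₀ e) with _ | _
    · right
      rw [hw] at h3
      refine ⟨⟨h1, by simp⟩, h2, ?_⟩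
      rcases hv : F (xa h₀ (mv e i c)) with _ | _
      · rw [hv] at h3; exact absurd rfl h3
      · rfl
    · left
      rw [hw] at h3
      refine ⟨⟨h1, rfl⟩, h2, ?_⟩
      intro hv
      rw [hv] at h3
      exact h3 rfl
  have h2 := khrb hN h₀ hF T U (fun w hw => (Finset.mem_filter.1 hw).2) (fun w hw => by
    have := (Finset.mem_filter.1 hw).2
    simpa using this)
  have h4 : √(((lam ^ 2 : ℕ) : ℝ) * (T.card * U.card)) ≤ lam * (X.card / 2) := by
    rw [Real.sqrt_mul (Nat.cast_nonneg _)]
    push_cast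
    rw [Real.sqrt_sq (Nat.cast_nonneg _)]
    apply mul_le_mul_of_nonneg_left _ (Nat.cast_nonneg _)
    apply Real.sqrt_le_iff.2
    refine ⟨by positivity, ?_⟩
    have hc' : (X.card : ℝ) = T.card + U.card := by rw [← hc]; push_cast; ring
    rw [hc']
    nlinarith [sq_nonneg ((T.card : ℝ) - U.card)]
  have h5 : (Eb T U : ℝ) ≤ Fintype.card P * lam * X.card := by
    have h6 : (0 : ℝ) ≤ 2 * Fintype.card P := by positivity
    nlinarith [mul_le_mul_of_nonneg_left h4 h6]
  have h6 : Eb T U ≤ Fintype.card P * lam * X.card := by exact_mod_cast h5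
  have h7 := Eb_symm U T
  calc _ ≤ Eb T U + Eb U T := h1
    _ ≤ 2 * (Fintype.card P * lam * X.card) := by omega
    _ = _ := by ring

/-- a minority hole has many opponents -/
theorem Mn_opp {F : (P → H) → Bool} {w : P → H} {i : P} {h : H} (hh : h ∈ Mn F w i) :
    Fintype.card H ≤ 2 * (univ.filter fun h' : H =>
      F (Function.update w i h') ≠ F (Function.update w i h)).card := by
  have h1 := (Finset.mem_filter.1 hh).2
  set T := (univ : Finset H).filter fun h => F (Function.update w i h) = true with hT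
  set U := (univ : Finset H).filter fun h => ¬ F (Function.update w i h) = true with hU
  have hc : T.card + U.card = Fintype.card H := Finset.card_filter_add_card_filter_not _
  by_cases hm : Fintype.card H ≤ 2 * T.card
  · have hmaj : maj F w i = true := by
      unfold maj
      exact decide_eq_true hm
    rw [hmaj] at h1
    have h2 : F (Function.update w i h) = false := by simpa using h1
    have h3 : (univ.filter fun h' : H => F (Function.update w i h') ≠
        F (Function.update w i h)) = T := by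
      ext h'
      simp [hT, h2]
    rw [h3]; exact hm
  · have hmaj : maj F w i = false := by
      unfold maj
      exact decide_eq_false hm
    rw [hmaj] at h1
    have h2 : F (Function.update w i h) = true := by simpa using h1
    have h3 : (univ.filter fun h' : H => F (Function.update w i h') ≠
        F (Function.update w i h)) = U := by
      ext h'
      simp [hU, h2]
    rw [h3]; omega

open Classical in
/-- **The noise in a set of bijections given by the values on `D`.** -/
theorem class_noise (hN : Fintype.card P = Fintype.card H + 1) (h₀ : H) {F : (P → H) → Bool}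
    {lam : ℕ} (hF : LF F (lam ^ 2)) {V D : Finset P}
    (hV : ∀ w w', (∀ p ∈ V, w p = w' p) → F w = F w')
    (R : (P ≃ Option H) → Prop) (hR : ∀ e e', (∀ d ∈ D, e d = e' d) → R e → R e')
    (hsz : 4 * (V.card + D.card) ≤ Fintype.card H) :
    Fintype.card H * (univ.filter fun t : (P ≃ Option H) × P × H => R t.1 ∧
      (t.2.1 ∈ V ∧ t.2.1 ∉ D) ∧ (∀ d ∈ V, d ≠ t.2.1 → t.1 d ≠ some t.2.2) ∧
      (∀ d ∈ D, t.1 d ≠ some t.2.2) ∧ t.2.2 ∈ Mn F (xa h₀ t.1) t.2.1).card ≤
    8 * Fintype.card P ^ 2 * lam * (univ.filter R).card := by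
  set T0 := univ.filter fun t : (P ≃ Option H) × P × H => R t.1 ∧
      (t.2.1 ∈ V ∧ t.2.1 ∉ D) ∧ (∀ d ∈ V, d ≠ t.2.1 → t.1 d ≠ some t.2.2) ∧
      (∀ d ∈ D, t.1 d ≠ some t.2.2) ∧ t.2.2 ∈ Mn F (xa h₀ t.1) t.2.1 with hT0
  set opp : (P ≃ Option H) × P × H → Finset H := fun t => univ.filter fun h' : H =>
    ((∀ d ∈ V, d ≠ t.2.1 → t.1 d ≠ some h') ∧ (∀ d ∈ D, t.1 d ≠ some h')) ∧
    F (Function.update (xa h₀ t.1) t.2.1 h') ≠ F (Function.update (xa h₀ t.1) t.2.1 t.2.2)
    with hopp
  have h1 : ∀ t ∈ T0, Fintype.card H ≤ 4 * (opp t).card := by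
    intro t ht
    have h2 := Mn_opp (Finset.mem_filter.1 ht).2.2.2.2.2
    have h3 : (univ.filter fun h' : H => F (Function.update (xa h₀ t.1) t.2.1 h') ≠
        F (Function.update (xa h₀ t.1) t.2.1 t.2.2)) ⊆
        opp t ∪ ((V ∪ D).image fun d => (t.1 d).getD h₀) := by
      intro h' hh'
      rw [Finset.mem_union]
      by_cases hc : (∀ d ∈ V, d ≠ t.2.1 → t.1 d ≠ some h') ∧ (∀ d ∈ D, t.1 d ≠ some h')
      · left
        exact Finset.mem_filter.2 ⟨Finset.mem_univ _, hc, (Finset.mem_filter.1 hh').2⟩
      · right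
        rw [not_and_or] at hc
        rcases hc with hc | hc
        · push Not at hc
          obtain ⟨d, hd, -, hd'⟩ := hc
          exact Finset.mem_image.2 ⟨d, Finset.mem_union_left _ hd, by rw [hd']; rfl⟩
        · push Not at hc
          obtain ⟨d, hd, hd'⟩ := hc
          exact Finset.mem_image.2 ⟨d, Finset.mem_union_right _ hd, by rw [hd']; rfl⟩
    have h4 := (Finset.card_le_card h3).trans (Finset.card_union_le _ _)
    have h5 : ((V ∪ D).image fun d => (t.1 d).getD h₀).card ≤ V.card + D.card :=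
      Finset.card_image_le.trans (Finset.card_union_le _ _)
    omega
  -- the pairs
  have h2 : Fintype.card H * T0.card ≤ 4 * (T0.sigma opp).card := by
    rw [Finset.card_sigma, Finset.mul_sum, mul_comm, ← smul_eq_mul]
    exact Finset.card_nsmul_le_sum T0 (fun t => 4 * (opp t).card) _ h1
  set NS := univ.filter fun t : (P ≃ Option H) × P × Option H => t.1 ∈ univ.filter R ∧
      mv t.1 t.2.1 t.2.2 ∈ univ.filter R ∧
      F (xa h₀ t.1) ≠ F (xa h₀ (mv t.1 t.2.1 t.2.2)) with hNS
  have h3 : (T0.sigma opp).card ≤ (NS ×ˢ (univ : Finset (Option H))).card := by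
    refine Finset.card_le_card_of_injOn
      (fun s => ((mv s.1.1 s.1.2.1 (some s.1.2.2), s.1.2.1, some s.2), s.1.1 s.1.2.1)) ?_ ?_
    · rintro ⟨⟨e, i, h⟩, h'⟩ hs
      rw [Finset.mem_coe, Finset.mem_sigma] at hs
      obtain ⟨hs1, hs2⟩ := hs
      obtain ⟨-, hR1, ⟨hi1, hi2⟩, hh1, hh2, -⟩ := Finset.mem_filter.1 hs1
      obtain ⟨-, ⟨hh3, hh4⟩, hne⟩ := Finset.mem_filter.1 hs2
      simp only at hR1 hi1 hi2 hh1 hh2 hh3 hh4 hne
      rw [Finset.mem_coe, Finset.mem_product]
      refine ⟨?_, Finset.mem_univ _⟩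
      have e1D : ∀ d ∈ D, mv e i (some h) d = e d := fun d hd =>
        mv_of_ne (fun hdi => hi2 (by rw [← hdi]; exact hd)) (hh2 d hd)
      have e1V : ∀ d ∈ V, d ≠ i → mv e i (some h) d = e d := fun d hd hdi =>
        mv_of_ne hdi (hh1 d hd hdi)
      have e2D : ∀ d ∈ D, mv (mv e i (some h)) i (some h') d = e d := fun d hd => by
        have hdi : d ≠ i := fun hdi => hi2 (by rw [← hdi]; exact hd)
        rw [mv_of_ne hdi (by rw [e1D d hd]; exact hh4 d hd), e1D d hd]
      have e2V : ∀ d ∈ V, d ≠ i → mv (mv e i (some h)) i (some h') d = e d := fun d hd hdi => by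
        rw [mv_of_ne hdi (by rw [e1V d hd hdi]; exact hh3 d hd hdi), e1V d hd hdi]
      have f1 : F (xa h₀ (mv e i (some h))) = F (Function.update (xa h₀ e) i h) := by
        apply hV
        intro p hp
        by_cases hpi : p = i
        · subst hpi
          rw [Function.update_self, xa, mv_self]; rfl
        · rw [Function.update_of_ne hpi, xa, xa, e1V p hp hpi]
      have f2 : F (xa h₀ (mv (mv e i (some h)) i (some h'))) =
          F (Function.update (xa h₀ e) i h') := by
        apply hV
        intro p hp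
        by_cases hpi : p = i
        · subst hpi
          rw [Function.update_self, xa, mv_self]; rfl
        · rw [Function.update_of_ne hpi, xa, xa, e2V p hp hpi]
      refine Finset.mem_filter.2 ⟨Finset.mem_univ _, ?_, ?_, ?_⟩
      · exact Finset.mem_filter.2 ⟨Finset.mem_univ _, hR _ _ (fun d hd => (e1D d hd).symm) hR1⟩
      · exact Finset.mem_filter.2 ⟨Finset.mem_univ _, hR _ _ (fun d hd => (e2D d hd).symm) hR1⟩
      · simp only
        rw [f1, f2]
        exact Ne.symm hne
    · rintro ⟨⟨e, i, h⟩, h'⟩ _ ⟨⟨e', j, x⟩, x'⟩ _ heq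
      simp only [Prod.mk.injEq, Option.some.injEq] at heq
      obtain ⟨⟨h4, rfl, rfl⟩, h5⟩ := heq
      have h6 : h = x := by
        have h7 := DFunLike.congr_fun h4 i
        rw [mv_self, mv_self] at h7
        exact Option.some.inj h7
      subst h6
      have h8 : e = e' := by
        rw [← mv_mv e i (some h), ← mv_mv e' i (some h), h4, h5]
      subst h8
      rfl
  have h4 := NSb_le hN h₀ hF (univ.filter R)
  rw [Finset.card_product, Finset.card_univ, Fintype.card_option, ← hN] at h3
  calc _ ≤ 4 * (T0.sigma opp).card := h2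
    _ ≤ 4 * ((2 * Fintype.card P * lam * (univ.filter R).card) * Fintype.card P) :=
        Nat.mul_le_mul_left _ (h3.trans (Nat.mul_le_mul_right _ h4))
    _ = _ := by ring

end

end Pool.Agent.L5helper87.FL
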