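import Mathlib

/-!
# Local truth with respect to partial matchings
-/

set_option autoImplicit false

open Finset

namespace Pool.Agent.L5helper87.FL

section
variable {P H : Type} [DecidableEq P] [DecidableEq H]

/-- partial matchings between `A` and `K` -/
def IsM (A : Finset P) (K : Finset H) (μ : Finset (P × H)) : Prop :=
  (∀ s ∈ μ, s.1 ∈ A ∧ s.2 ∈ K) ∧ (∀ s ∈ μ, ∀ t ∈ μ, s.1 = t.1 → s = t) ∧
    (∀ s ∈ μ, ∀ t ∈ μ, s.2 = t.2 → s = t)

/-- the assignments compatible with `μ` -/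
def Y (A : Finset P) (K : Finset H) (x : P → H) (μ : Finset (P × H)) (y : P → H) : Prop :=
  (∀ p, p ∉ A → y p = x p) ∧ (∀ p ∈ A, y p ∈ K) ∧ (∀ s ∈ μ, y s.1 = s.2) ∧
    ∀ p ∈ A, ∀ s ∈ μ, y p = s.2 → p = s.1

variable {A : Finset P} {K : Finset H} {x : P → H} {μ μ' : Finset (P × H)}

theorem Y_anti (h : μ ⊆ μ') {y : P → H} (hy : Y A K x μ' y) : Y A K x μ y :=
  ⟨hy.1, hy.2.1, fun s hs => hy.2.2.1 s (h hs), fun p hp s hs => hy.2.2.2 p hp s (h hs)⟩

theorem IsM.mono (h : μ ⊆ μ') (hμ : IsM A K μ') : IsM A K μ :=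
  ⟨fun s hs => hμ.1 s (h hs), fun s hs t ht => hμ.2.1 s (h hs) t (h ht),
    fun s hs t ht => hμ.2.2 s (h hs) t (h ht)⟩

theorem isM_empty : IsM A K ∅ := by
  refine ⟨?_, ?_, ?_⟩ <;> simp

theorem IsM.ins (hμ : IsM A K μ) {p : P} {h : H} (hp : p ∈ A) (hh : h ∈ K)
    (h1 : ∀ s ∈ μ, s.1 ≠ p) (h2 : ∀ s ∈ μ, s.2 ≠ h) : IsM A K (insert (p, h) μ) := by
  refine ⟨?_, ?_, ?_⟩
  · intro s hs
    rcases Finset.mem_insert.1 hs with rfl | hs
    · exact ⟨hp, hh⟩
    · exact hμ.1 s hs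
  · intro s hs t ht hst
    rcases Finset.mem_insert.1 hs with rfl | hs <;> rcases Finset.mem_insert.1 ht with rfl | ht
    · rfl
    · exact absurd hst.symm (h1 t ht)
    · exact absurd hst (h1 s hs)
    · exact hμ.2.1 s hs t ht hst
  · intro s hs t ht hst
    rcases Finset.mem_insert.1 hs with rfl | hs <;> rcases Finset.mem_insert.1 ht with rfl | ht
    · rfl
    · exact absurd hst.symm (h2 t ht)
    · exact absurd hst (h2 s hs)
    · exact hμ.2.2 s hs t ht hst

theorem IsM.free_hole (hc : μ.card < K.card) : ∃ h ∈ K, ∀ s ∈ μ, s.2 ≠ h := by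
  have h1 : (μ.image Prod.snd).card < K.card := lt_of_le_of_lt Finset.card_image_le hc
  obtain ⟨h, hh, hn⟩ := Finset.exists_mem_notMem_of_card_lt_card h1
  refine ⟨h, hh, fun s hs he => hn (Finset.mem_image.2 ⟨s, hs, he⟩)⟩

theorem IsM.free_pigeon (hc : μ.card < A.card) : ∃ p ∈ A, ∀ s ∈ μ, s.1 ≠ p := by
  have h1 : (μ.image Prod.fst).card < A.card := lt_of_le_of_lt Finset.card_image_le hc
  obtain ⟨h, hh, hn⟩ := Finset.exists_mem_notMem_of_card_lt_card h1
  refine ⟨h, hh, fun s hs he => hn (Finset.mem_image.2 ⟨s, hs, he⟩)⟩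

theorem IsM.extend_pigeons (hμ : IsM A K μ) (C : Finset P) :
    C ⊆ A → μ.card + C.card ≤ K.card →
    ∃ μ', IsM A K μ' ∧ μ ⊆ μ' ∧ μ'.card ≤ μ.card + C.card ∧ ∀ p ∈ C, ∃ h, (p, h) ∈ μ' := by
  induction C using Finset.induction_on with
  | empty => intro _ _; exact ⟨μ, hμ, Finset.Subset.refl _, by simp, by simp⟩
  | insert p C hp ih =>
    intro hC hc
    rw [Finset.card_insert_of_notMem hp] at hc ⊢
    obtain ⟨μ', h1, h2, h3, h4⟩ := ih (fun a ha => hC (Finset.mem_insert_of_mem ha)) (by omega)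
    by_cases hd : ∃ h, (p, h) ∈ μ'
    · refine ⟨μ', h1, h2, by omega, fun a ha => ?_⟩
      rcases Finset.mem_insert.1 ha with rfl | ha
      · exact hd
      · exact h4 a ha
    · obtain ⟨h, hh, hn⟩ := IsM.free_hole (μ := μ') (K := K) (by omega)
      refine ⟨insert (p, h) μ', h1.ins (hC (Finset.mem_insert_self _ _)) hh ?_ hn,
        h2.trans (Finset.subset_insert _ _), (Finset.card_insert_le _ _).trans (by omega), ?_⟩
      · rintro ⟨a, b⟩ hs rfl
        exact hd ⟨b, hs⟩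
      · intro a ha
        rcases Finset.mem_insert.1 ha with rfl | ha
        · exact ⟨h, Finset.mem_insert_self _ _⟩
        · obtain ⟨b, hb⟩ := h4 a ha
          exact ⟨b, Finset.mem_insert_of_mem hb⟩

theorem IsM.extend_holes (hμ : IsM A K μ) (C : Finset H) :
    C ⊆ K → μ.card + C.card ≤ A.card →
    ∃ μ', IsM A K μ' ∧ μ ⊆ μ' ∧ μ'.card ≤ μ.card + C.card ∧ ∀ h ∈ C, ∃ p, (p, h) ∈ μ' := by
  induction C using Finset.induction_on with
  | empty => intro _ _; exact ⟨μ, hμ, Finset.Subset.refl _, by simp, by simp⟩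
  | insert h C hh ih =>
    intro hC hc
    rw [Finset.card_insert_of_notMem hh] at hc ⊢
    obtain ⟨μ', h1, h2, h3, h4⟩ := ih (fun a ha => hC (Finset.mem_insert_of_mem ha)) (by omega)
    by_cases hd : ∃ p, (p, h) ∈ μ'
    · refine ⟨μ', h1, h2, by omega, fun a ha => ?_⟩
      rcases Finset.mem_insert.1 ha with rfl | ha
      · exact hd
      · exact h4 a ha
    · obtain ⟨p, hp, hn⟩ := IsM.free_pigeon (μ := μ') (A := A) (by omega)
      refine ⟨insert (p, h) μ', h1.ins hp (hC (Finset.mem_insert_self _ _)) hn ?_,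
        h2.trans (Finset.subset_insert _ _), (Finset.card_insert_le _ _).trans (by omega), ?_⟩
      · rintro ⟨a, b⟩ hs rfl
        exact hd ⟨a, hs⟩
      · intro a ha
        rcases Finset.mem_insert.1 ha with rfl | ha
        · exact ⟨p, Finset.mem_insert_self _ _⟩
        · obtain ⟨b, hb⟩ := h4 a ha
          exact ⟨b, Finset.mem_insert_of_mem hb⟩

theorem Y_nonempty (hμ : IsM A K μ) (hc : μ.card < K.card) : ∃ y, Y A K x μ y := by
  classical
  obtain ⟨h, hh, hn⟩ := IsM.free_hole hc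
  refine ⟨fun p => if p ∈ A then (if hp : ∃ b, (p, b) ∈ μ then hp.choose else h) else x p,
    ?_, ?_, ?_, ?_⟩
  · intro p hp
    simp only [if_neg hp]
  · intro p hp
    simp only [if_pos hp]
    split_ifs with hd
    · exact (hμ.1 _ hd.choose_spec).2
    · exact hh
  · rintro ⟨a, b⟩ hs
    have ha : a ∈ A := (hμ.1 _ hs).1
    have hd : ∃ b, (a, b) ∈ μ := ⟨b, hs⟩
    simp only [if_pos ha, dif_pos hd]
    have := hμ.2.1 _ hd.choose_spec _ hs rfl
    exact congrArg Prod.snd this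
  · rintro p hp ⟨a, b⟩ hs hy
    simp only [if_pos hp] at hy
    split_ifs at hy with hd
    · have := hμ.2.2 _ hd.choose_spec _ hs hy
      exact congrArg Prod.fst this
    · exact absurd hy.symm (hn _ hs)

/-- two pigeons can be separated -/
theorem Y_sep (hμ : IsM A K μ) (hc : μ.card + 1 < K.card) (hA : K.card ≤ A.card) {p p' : P}
    (hpp : p ≠ p') (hx : ∀ q ∉ A, x q ∉ K) (hx' : ∀ q ∉ A, ∀ q' ∉ A, x q = x q' → q = q') :
    ∃ y, Y A K x μ y ∧ y p ≠ y p' := by
  by_cases hp : p ∈ A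
  · obtain ⟨μ', h1, h2, h3, h4⟩ := hμ.extend_pigeons {p} (by simpa using hp)
      (by simp only [Finset.card_singleton]; omega)
    obtain ⟨b, hb⟩ := h4 p (Finset.mem_singleton_self _)
    simp only [Finset.card_singleton] at h3
    obtain ⟨y, hy⟩ := Y_nonempty (x := x) h1 (by omega)
    refine ⟨y, Y_anti h2 hy, fun he => ?_⟩
    by_cases hp' : p' ∈ A
    · have h5 := hy.2.2.1 _ hb
      simp only at h5
      have := hy.2.2.2 p' hp' _ hb (by rw [← he]; exact h5)
      exact hpp this.symm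
    · have h5 := hy.1 p' hp'
      have h6 := hy.2.1 p hp
      rw [he, h5] at h6
      exact hx p' hp' h6
  · obtain ⟨y, hy⟩ := Y_nonempty (x := x) hμ (by omega)
    refine ⟨y, hy, fun he => ?_⟩
    by_cases hp' : p' ∈ A
    · have h5 := hy.1 p hp
      have h6 := hy.2.1 p' hp'
      rw [← he, h5] at h6
      exact hx p hp h6
    · rw [hy.1 p hp, hy.1 p' hp'] at he
      exact hpp (hx' p hp p' hp' he)

/-- `f` is decided by small matchings -/
def Loc (A : Finset P) (K : Finset H) (x : P → H) (w : ℕ) (f : (P → H) → Bool) : Prop :=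
  ∀ μ₀, IsM A K μ₀ → μ₀.card + w ≤ K.card → ∃ μ', IsM A K (μ₀ ∪ μ') ∧ μ'.card ≤ w ∧
    ∃ c, ∀ y, Y A K x μ' y → f y = c

/-- `f` is locally true -/
def Tr (A : Finset P) (K : Finset H) (x : P → H) (w : ℕ) (f : (P → H) → Bool) : Prop :=
  ∀ μ, IsM A K μ → μ.card ≤ w → ¬ ∀ y, Y A K x μ y → f y = false

theorem Tr_collect {w : ℕ} {ι : Type} [DecidableEq ι] (g : ι → (P → H) → Bool) (S : Finset ι)
    (hL : ∀ j ∈ S, Loc A K x w (g j)) (hT : ∀ j ∈ S, Tr A K x w (g j)) (hμ : IsM A K μ) :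
    μ.card + S.card * w ≤ K.card → ∃ μ', IsM A K μ' ∧ μ ⊆ μ' ∧ μ'.card ≤ μ.card + S.card * w ∧
      ∀ y, Y A K x μ' y → ∀ j ∈ S, g j y = true := by
  induction S using Finset.induction_on with
  | empty => intro _; exact ⟨μ, hμ, Finset.Subset.refl _, by simp, by simp⟩
  | insert j S hj ih =>
    intro hc
    rw [Finset.card_insert_of_notMem hj, Nat.add_mul, Nat.one_mul] at hc ⊢
    obtain ⟨μ', h1, h2, h3, h4⟩ := ih (fun i hi => hL i (Finset.mem_insert_of_mem hi))
      (fun i hi => hT i (Finset.mem_insert_of_mem hi)) (by omega)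
    obtain ⟨μ₁, a1, a2, c₁, a3⟩ := hL j (Finset.mem_insert_self _ _) μ' h1 (by omega)
    have hc₁ : c₁ = true := by
      rcases c₁ with _ | _
      · exact absurd a3 (hT j (Finset.mem_insert_self _ _) μ₁ (a1.mono Finset.subset_union_right) a2)
      · rfl
    subst hc₁
    refine ⟨μ' ∪ μ₁, a1, h2.trans Finset.subset_union_left,
      (Finset.card_union_le _ _).trans (by omega), fun y hy i hi => ?_⟩
    rcases Finset.mem_insert.1 hi with rfl | hi
    · exact a3 y (Y_anti Finset.subset_union_right hy)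
    · exact h4 y (Y_anti Finset.subset_union_left hy) i hi

theorem Tr_infer {w d : ℕ} (h3 : (d + 1) * w < K.card) {ι : Type} [DecidableEq ι]
    (g : ι → (P → H) → Bool) (S : Finset ι) (hS : S.card ≤ d)
    (hL : ∀ j ∈ S, Loc A K x w (g j)) (hT : ∀ j ∈ S, Tr A K x w (g j)) {f : (P → H) → Bool}
    (h : ∀ y, (∀ j ∈ S, g j y = true) → f y = true) : Tr A K x w f := by
  intro μ hμ hc hf
  have h5 : S.card * w ≤ d * w := Nat.mul_le_mul_right _ hS
  rw [Nat.add_mul, Nat.one_mul] at h3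
  obtain ⟨μ', h1, h2, h3, h4⟩ := Tr_collect g S hL hT hμ (by omega)
  obtain ⟨y, hy⟩ := Y_nonempty (x := x) h1 (by omega)
  have e3 := hf y (Y_anti h2 hy)
  rw [h y (h4 y hy)] at e3
  exact Bool.noConfusion e3

theorem Tr_ax {w : ℕ} (h3 : w + 1 < K.card) (hA : K.card ≤ A.card) {p p' : P}
    (hpp : p ≠ p') (hx : ∀ q ∉ A, x q ∉ K) (hx' : ∀ q ∉ A, ∀ q' ∉ A, x q = x q' → q = q')
    {f : (P → H) → Bool} (hf : ∀ y : P → H, y p ≠ y p' → f y = true) : Tr A K x w f := by
  intro μ hμ hc hff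
  obtain ⟨y, hy, hne⟩ := Y_sep (x := x) hμ (by omega) hA hpp hx hx'
  have e1 := hff y hy
  rw [hf y hne] at e1
  exact Bool.noConfusion e1

theorem Tr_false {w : ℕ} {f : (P → H) → Bool} (hf : ∀ y, f y = false) : ¬ Tr A K x w f := by
  intro h
  exact h ∅ isM_empty (by simp) fun y _ => hf y

/-- **No refutation with local lines.** -/
theorem no_refutation {w d : ℕ} (h3 : (d + 1) * w + 1 < K.card) (hA : K.card ≤ A.card)
    (hx : ∀ q ∉ A, x q ∉ K) (hx' : ∀ q ∉ A, ∀ q' ∉ A, x q = x q' → q = q')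
    (T : ℕ) (f : ℕ → (P → H) → Bool)
    (hinf : ∀ i < T, (∃ p p' : P, p ≠ p' ∧ ∀ y : P → H, y p ≠ y p' → f i y = true) ∨
      ∃ S : Finset ℕ, S.card ≤ d ∧ (∀ j ∈ S, j < i) ∧
        ∀ y, (∀ j ∈ S, f j y = true) → f i y = true)
    (hloc : ∀ i < T, Loc A K x w (f i)) : ∀ i < T, ∃ y, f i y = true := by
  have hw : w ≤ (d + 1) * w := Nat.le_mul_of_pos_left _ (by omega)
  have h1 : ∀ i < T, Tr A K x w (f i) := by
    intro i
    induction i using Nat.strong_induction_on with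
    | _ i ih =>
      intro hi
      rcases hinf i hi with ⟨p, p', hpp, hf⟩ | ⟨S, hS, hSi, hf⟩
      · exact Tr_ax (by omega) hA hpp hx hx' hf
      · exact Tr_infer (by omega) f S hS (fun j hj => hloc j ((hSi j hj).trans hi))
          (fun j hj => ih j (hSi j hj) ((hSi j hj).trans hi)) hf
  intro i hi
  by_contra hcon
  push Not at hcon
  exact Tr_false (f := f i) (fun y => by
    have := hcon y
    simpa using this) (h1 i hi)

end

end Pool.Agent.L5helper87.FL
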