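import Pool.Agent.L5helper87.FL.Co

/-!
# The choice of the parameters
-/

set_option autoImplicit false

open Finset

namespace Pool.Agent.L5helper87.FL

theorem core_pow {n b S u e₁ ed v κ d x A μ m' : ℕ} (hb1 : 2 ^ b ≤ n) (hb2 : n < 2 ^ (b + 1))
    (hA : A = u + e₁ + 4 + ed) (hd : d + 1 ≤ 2 ^ ed) (hu : 2 ≤ u)
    (h1 : S + A + 2 ≤ b + κ) (h2 : 2 + 2 * A + κ + 2 * v ≤ b) (h3 : 6 + 2 * A + μ + v + x ≤ b)
    (h4 : 8 * b + 10 ≤ 2 ^ e₁ * x) (h5 : S + 3 ≤ μ + 2 * v) (h6 : m' + 1 ≤ μ)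
    (T : ℕ) (hT : T ≤ 2 ^ 2 ^ u) (f : ℕ → (Fin (n + 1) → Fin n) → Bool)
    (hs : ∀ i < T, ∃ Φ : List (Fm (Fin (n + 1) × (Fin n → Bool))), Φ.length ≤ 2 ^ m' ∧
      (Φ.map Fm.size).sum ≤ 2 ^ S ∧ ∀ y y', (∀ φ ∈ Φ, val φ y = val φ y') → f i y = f i y')
    (hinf : ∀ i < T, (∃ p p' : Fin (n + 1), p ≠ p' ∧
        ∀ y : Fin (n + 1) → Fin n, y p ≠ y p' → f i y = true) ∨
      ∃ R : Finset ℕ, R.card ≤ d ∧ (∀ j ∈ R, j < i) ∧
        ∀ y, (∀ j ∈ R, f j y = true) → f i y = true) :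
    ∀ i < T, ∃ y, f i y = true := by
  have hn0 : 0 < n := lt_of_lt_of_le (by positivity) hb1
  have hq : 4 ≤ 2 ^ u := by
    calc 4 = 2 ^ 2 := by norm_num
      _ ≤ 2 ^ u := Nat.pow_le_pow_right (by norm_num) hu
  have hA2 : 2 ^ A = 2 ^ u * 2 ^ e₁ * 16 * 2 ^ ed := by
    rw [hA, pow_add, pow_add, pow_add]
    norm_num
  have he1 : 1 ≤ 2 ^ e₁ := Nat.one_le_two_pow
  have hed : 1 ≤ 2 ^ ed := Nat.one_le_two_pow
  have hA1 : 1 ≤ 2 ^ A := Nat.one_le_two_pow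
  have hAb : 2 ^ A ≤ 2 ^ b := Nat.pow_le_pow_right (by norm_num) (by omega)
  have hNn : n + 1 ≤ 2 ^ (b + 1) := hb2
  refine core (P := Fin (n + 1)) (H := Fin n) (by simp) ⟨0, hn0⟩ (a := 2 ^ A - 1) (k := 2 ^ κ)
    (q := 2 ^ u) (r := 3 * 2 ^ u + 1) (t := 2 ^ (u + e₁))
    (w := 3 * 2 ^ u + 1 + 2 * 2 ^ (u + e₁)) (s := 2 ^ S) (m := 2 ^ m') (lam := 2 ^ v)
    (M := 2 ^ μ) (d := d) ?_ Nat.one_le_two_pow le_rfl le_rfl (by positivity)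
    ?_ ?_ ?_ ?_ ?_ ?_ ?_ T ?_ f hs hinf
  · -- a ≤ n
    simp only [Fintype.card_fin]
    omega
  · -- M
    have e1 : (2 ^ v) ^ 2 * 2 ^ μ = 2 ^ (μ + 2 * v) := by
      rw [← pow_mul, ← pow_add]
      congr 1
      omega
    have e2 : 8 * 2 ^ S ≤ (2 ^ v) ^ 2 * 2 ^ μ := by
      rw [e1]
      calc 8 * 2 ^ S = 2 ^ (S + 3) := by rw [pow_add]; ring
        _ ≤ _ := Nat.pow_le_pow_right (by norm_num) h5
    have e3 : 2 * ((2 ^ v) ^ 2 * 2 ^ m') ≤ (2 ^ v) ^ 2 * 2 ^ μ := by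
      calc 2 * ((2 ^ v) ^ 2 * 2 ^ m') = (2 ^ v) ^ 2 * 2 ^ (m' + 1) := by rw [pow_succ]; ring
        _ ≤ _ := Nat.mul_le_mul_left _ (Nat.pow_le_pow_right (by norm_num) h6)
    omega
  · -- C1
    simp only [Fintype.card_fin]
    rw [Nat.sub_add_cancel hA1]
    calc 4 * (2 ^ A * 2 ^ S) = 2 ^ (S + A + 2) := by
          rw [pow_add, pow_add]; ring
      _ ≤ 2 ^ (b + κ) := Nat.pow_le_pow_right (by norm_num) h1
      _ = 2 ^ κ * 2 ^ b := by rw [pow_add]; ring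
      _ ≤ 2 ^ κ * (n + 1) := Nat.mul_le_mul_left _ (by omega)
  · -- C2
    simp only [Fintype.card_fin]
    rw [Nat.sub_add_cancel hA1]
    calc 4 * ((2 ^ A) ^ 2 * (2 ^ κ * (2 ^ v) ^ 2)) = 2 ^ (2 + 2 * A + κ + 2 * v) := by
          rw [pow_add, pow_add, pow_add, ← pow_mul, ← pow_mul, mul_comm A 2, mul_comm v 2]
          ring
      _ ≤ 2 ^ b := Nat.pow_le_pow_right (by norm_num) h2
      _ ≤ n + 1 := by omega
  · -- C3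
    simp only [Fintype.card_fin]
    rw [Nat.sub_add_cancel hA1]
    have e1 : (n + 1) * n ≤ 2 ^ (2 * b + 2) := by
      calc (n + 1) * n ≤ 2 ^ (b + 1) * 2 ^ (b + 1) := Nat.mul_le_mul hNn (by omega)
        _ = _ := by rw [← pow_add]; congr 1; ring
    have e2 : 64 * ((2 ^ A - 1) * 2 ^ A) * (2 ^ μ * 2 ^ v) ≤ 2 ^ (6 + 2 * A + μ + v) := by
      calc 64 * ((2 ^ A - 1) * 2 ^ A) * (2 ^ μ * 2 ^ v) ≤
            64 * (2 ^ A * 2 ^ A) * (2 ^ μ * 2 ^ v) :=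
            Nat.mul_le_mul_right _ (Nat.mul_le_mul_left _ (Nat.mul_le_mul_right _
              (Nat.sub_le _ _)))
        _ = 2 ^ (6 + (A + A) + (μ + v)) := by
            rw [pow_add, pow_add 2 6, pow_add 2 A, pow_add 2 μ]
            norm_num
        _ = _ := by congr 1; omega
    calc 4 ^ 2 ^ u * (((n + 1) * n) ^ (3 * 2 ^ u + 1) *
          (64 * ((2 ^ A - 1) * 2 ^ A) * (2 ^ μ * 2 ^ v)) ^ 2 ^ (u + e₁)) ≤
          4 ^ 2 ^ u * ((2 ^ (2 * b + 2)) ^ (3 * 2 ^ u + 1) *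
          (2 ^ (6 + 2 * A + μ + v)) ^ 2 ^ (u + e₁)) :=
          Nat.mul_le_mul_left _ (Nat.mul_le_mul (Nat.pow_le_pow_left e1 _)
            (Nat.pow_le_pow_left e2 _))
      _ = 2 ^ (2 * 2 ^ u + ((2 * b + 2) * (3 * 2 ^ u + 1) +
          (6 + 2 * A + μ + v) * 2 ^ (u + e₁))) := by
          have g1 : (4 : ℕ) ^ 2 ^ u = 2 ^ (2 * 2 ^ u) := by rw [pow_mul]; norm_num
          have g2 : ((2 : ℕ) ^ (2 * b + 2)) ^ (3 * 2 ^ u + 1) =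
              2 ^ ((2 * b + 2) * (3 * 2 ^ u + 1)) := (pow_mul _ _ _).symm
          have g3 : ((2 : ℕ) ^ (6 + 2 * A + μ + v)) ^ 2 ^ (u + e₁) =
              2 ^ ((6 + 2 * A + μ + v) * 2 ^ (u + e₁)) := (pow_mul _ _ _).symm
          rw [g1, g2, g3, ← pow_add, ← pow_add]
      _ ≤ 2 ^ (b * 2 ^ (u + e₁)) := by
          apply Nat.pow_le_pow_right (by norm_num)
          have f1 : (2 * b + 2) * (3 * 2 ^ u + 1) ≤ (2 * b + 2) * (4 * 2 ^ u) :=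
            Nat.mul_le_mul_left _ (by omega)
          have f2 : 2 ^ (u + e₁) = 2 ^ u * 2 ^ e₁ := pow_add _ _ _
          have f3 : (8 * b + 10) * 2 ^ u ≤ (2 ^ e₁ * x) * 2 ^ u := Nat.mul_le_mul_right _ h4
          have f5 : ((6 + 2 * A + μ + v) + x) * 2 ^ (u + e₁) ≤ b * 2 ^ (u + e₁) :=
            Nat.mul_le_mul_right _ h3
          have f6 : x * 2 ^ (u + e₁) = (2 ^ e₁ * x) * 2 ^ u := by rw [f2]; ring
          rw [Nat.add_mul, f6] at f5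
          have f7 : (2 * b + 2) * (4 * 2 ^ u) + 2 * 2 ^ u = (8 * b + 10) * 2 ^ u := by ring
          omega
      _ = (2 ^ b) ^ 2 ^ (u + e₁) := by rw [← pow_mul]
      _ ≤ n ^ 2 ^ (u + e₁) := Nat.pow_le_pow_left hb1 _
  · -- C4
    simp only [Fintype.card_fin]
    calc 4 * (2 ^ (u + e₁) * (2 ^ v) ^ 2) = 2 ^ (2 + (u + e₁) + 2 * v) := by
          rw [pow_add, pow_add, ← pow_mul, mul_comm v 2]; ring
      _ ≤ 2 ^ b := Nat.pow_le_pow_right (by norm_num) (by omega)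
      _ ≤ n := hb1
  · -- C5
    simp only [Fintype.card_fin]
    calc 2 * (2 * 2 ^ u) ^ 2 = 2 ^ (3 + 2 * u) := by
          rw [pow_add, mul_pow, ← pow_mul, mul_comm u 2]; ring
      _ ≤ 2 ^ b := Nat.pow_le_pow_right (by norm_num) (by omega)
      _ ≤ n + 1 := by omega
  · -- C6
    have f1 : (d + 1) * (3 * 2 ^ u + 1 + 2 * 2 ^ (u + e₁)) ≤
        2 ^ ed * (4 * 2 ^ u + 2 * 2 ^ (u + e₁)) :=
      Nat.mul_le_mul hd (by omega)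
    have f2 : 2 ^ (u + e₁) = 2 ^ u * 2 ^ e₁ := pow_add _ _ _
    have f3 : 2 ^ u ≤ 2 ^ u * 2 ^ e₁ := Nat.le_mul_of_pos_right _ (by omega)
    have f4 : 2 ^ ed * (4 * 2 ^ u + 2 * 2 ^ (u + e₁)) ≤ 2 ^ ed * (6 * (2 ^ u * 2 ^ e₁)) :=
      Nat.mul_le_mul_left _ (by rw [f2]; omega)
    have f5 : 4 ≤ 2 ^ ed * (2 ^ u * 2 ^ e₁) := by
      calc 4 ≤ 2 ^ u * 2 ^ e₁ := hq.trans f3
        _ ≤ _ := Nat.le_mul_of_pos_left _ (by omega)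
    have f6 : 2 ^ ed * (6 * (2 ^ u * 2 ^ e₁)) = 6 * (2 ^ ed * (2 ^ u * 2 ^ e₁)) := by ring
    have f7 : 2 ^ A = 16 * (2 ^ ed * (2 ^ u * 2 ^ e₁)) := by rw [hA2]; ring
    omega
  · -- T
    have f1 : (4 : ℕ) ^ 2 ^ u = 2 ^ 2 ^ u * 2 ^ 2 ^ u := by
      rw [show (4 : ℕ) = 2 * 2 by norm_num, mul_pow]
    have f2 : 16 ≤ 2 ^ 2 ^ u := by
      calc 16 = 2 ^ 4 := by norm_num
        _ ≤ _ := Nat.pow_le_pow_right (by norm_num) hq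
    rw [f1]
    calc 6 * T ≤ 6 * 2 ^ 2 ^ u := Nat.mul_le_mul_left _ hT
      _ < 16 * 2 ^ 2 ^ u := by omega
      _ ≤ _ := Nat.mul_le_mul_right _ f2

/-- real powers of `n` and powers of two -/
theorem nat_le_two_pow {n b s : ℕ} {c : ℝ} (hc : 0 ≤ c) (hb : n < 2 ^ (b + 1))
    (hs : (s : ℝ) ≤ (n : ℝ) ^ c) : s ≤ 2 ^ ⌈((b : ℝ) + 1) * c⌉₊ := by
  have hnr : (n : ℝ) ≤ (2 : ℝ) ^ (((b : ℝ) + 1)) := by
    have h1 : (n : ℝ) ≤ ((2 ^ (b + 1) : ℕ) : ℝ) := by exact_mod_cast hb.le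
    push_cast at h1
    calc (n : ℝ) ≤ (2 : ℝ) ^ (b + 1) := h1
      _ = (2 : ℝ) ^ (((b : ℝ) + 1)) := by rw [← Nat.cast_add_one, Real.rpow_natCast]
  have h1 : (s : ℝ) ≤ (2 : ℝ) ^ ((⌈((b : ℝ) + 1) * c⌉₊ : ℕ) : ℝ) := by
    calc (s : ℝ) ≤ (n : ℝ) ^ c := hs
      _ ≤ ((2 : ℝ) ^ (((b : ℝ) + 1))) ^ c :=
          Real.rpow_le_rpow (Nat.cast_nonneg _) hnr hc
      _ = (2 : ℝ) ^ (((b : ℝ) + 1) * c) := by
          rw [← Real.rpow_mul (by norm_num)]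
      _ ≤ (2 : ℝ) ^ ((⌈((b : ℝ) + 1) * c⌉₊ : ℕ) : ℝ) :=
          Real.rpow_le_rpow_of_exponent_le (by norm_num) (Nat.le_ceil _)
  rw [Real.rpow_natCast] at h1
  exact_mod_cast h1

/-- **The asymptotic form.** -/
theorem asym (ε : ℝ) (h0 : 0 < ε) (h13 : ε ≤ 1 / 3) : ∃ n₀ : ℕ, ∀ n ≥ n₀, ∀ (d T : ℕ)
    (f : ℕ → (Fin (n + 1) → Fin n) → Bool), (d : ℝ) ≤ (n : ℝ) ^ (ε / 16) →
    (∀ i < T, ∃ Φ : List (Fm (Fin (n + 1) × (Fin n → Bool))),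
      (Φ.length : ℝ) ≤ (n : ℝ) ^ (2 / 3 : ℝ) ∧
      (((Φ.map Fm.size).sum : ℕ) : ℝ) ≤ (n : ℝ) ^ (4 / 3 - ε) ∧
      ∀ y y', (∀ φ ∈ Φ, val φ y = val φ y') → f i y = f i y') →
    (∀ i < T, (∃ p p' : Fin (n + 1), p ≠ p' ∧
        ∀ y : Fin (n + 1) → Fin n, y p ≠ y p' → f i y = true) ∨
      ∃ R : Finset ℕ, R.card ≤ d ∧ (∀ j ∈ R, j < i) ∧
        ∀ y, (∀ j ∈ R, f j y = true) → f i y = true) →
    (∃ i < T, ∀ y, f i y = false) →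
    (2 : ℝ) ^ ((n : ℝ) ^ (ε / 8)) < T := by
  -- constants
  obtain ⟨e₁, he₁⟩ : ∃ e₁ : ℕ, 288 / ε ≤ (2 : ℝ) ^ e₁ := by
    obtain ⟨e₁, he⟩ := pow_unbounded_of_one_lt (288 / ε) (by norm_num : (1 : ℝ) < 2)
    exact ⟨e₁, he.le⟩
  obtain ⟨b₀, hb₀⟩ : ∃ b₀ : ℕ, (16 * (40 + 3 * e₁) : ℝ) / ε ≤ b₀ := exists_nat_ge _
  refine ⟨2 ^ b₀, fun n hn d T f hd hs hinf hfalse => ?_⟩
  by_contra hT
  push Not at hT
  have hn0 : n ≠ 0 := by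
    have : 0 < 2 ^ b₀ := by positivity
    omega
  set b := Nat.log 2 n with hb
  have hb1 : 2 ^ b ≤ n := Nat.pow_log_le_self 2 hn0
  have hb2 : n < 2 ^ (b + 1) := Nat.lt_pow_succ_log_self (by norm_num) n
  have hbb : b₀ ≤ b := by
    rw [hb]
    exact (Nat.le_log_iff_pow_le (by norm_num) hn0).2 hn
  have hbb' : (b₀ : ℝ) ≤ b := by exact_mod_cast hbb
  have hεb : (16 * (40 + 3 * e₁) : ℝ) ≤ ε * b := by
    have h1 := (div_le_iff₀ h0).1 hb₀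
    have h2 := mul_le_mul_of_nonneg_right hbb' h0.le
    linarith
  have he1' : (0 : ℝ) ≤ e₁ := Nat.cast_nonneg _
  have hbnn : (0 : ℝ) ≤ b := Nat.cast_nonneg _
  have hεb1 : ε * b ≤ b / 3 := by
    have := mul_le_mul_of_nonneg_right h13 hbnn
    linarith
  have hbpos : (1 : ℝ) ≤ b := by linarith
  -- exponents
  set u := ⌈((b : ℝ) + 1) * (ε / 8)⌉₊ with hu
  set ed := ⌈((b : ℝ) + 1) * (ε / 16)⌉₊ + 1 with hed
  set S := ⌈((b : ℝ) + 1) * (4 / 3 - ε)⌉₊ with hS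
  set m' := ⌈((b : ℝ) + 1) * (2 / 3 : ℝ)⌉₊ with hm'
  set v := ⌊(b : ℝ) * (1 / 3 - ε / 2)⌋₊ with hv
  have hu1 : ((b : ℝ) + 1) * (ε / 8) ≤ u := Nat.le_ceil _
  have hu2 : (u : ℝ) < ((b : ℝ) + 1) * (ε / 8) + 1 := Nat.ceil_lt_add_one (by positivity)
  have hed2 : (ed : ℝ) < ((b : ℝ) + 1) * (ε / 16) + 2 := by
    have : (⌈((b : ℝ) + 1) * (ε / 16)⌉₊ : ℝ) < ((b : ℝ) + 1) * (ε / 16) + 1 :=
      Nat.ceil_lt_add_one (by positivity)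
    rw [hed]; push_cast; linarith
  have hS1 : ((b : ℝ) + 1) * (4 / 3 - ε) ≤ S := Nat.le_ceil _
  have hS2 : (S : ℝ) < ((b : ℝ) + 1) * (4 / 3 - ε) + 1 :=
    Nat.ceil_lt_add_one (mul_nonneg (by positivity) (by linarith))
  have hm2 : (m' : ℝ) < ((b : ℝ) + 1) * (2 / 3 : ℝ) + 1 := Nat.ceil_lt_add_one (by positivity)
  have hv1 : (v : ℝ) ≤ (b : ℝ) * (1 / 3 - ε / 2) :=
    Nat.floor_le (mul_nonneg (by positivity) (by linarith))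
  have hv2 : (b : ℝ) * (1 / 3 - ε / 2) < v + 1 := Nat.lt_floor_add_one _
  set A := u + e₁ + 4 + ed with hA
  have hAr : (A : ℝ) = u + e₁ + 4 + ed := by rw [hA]; push_cast; ring
  have hAr2 : (A : ℝ) ≤ 3 / 16 * (ε * b) + e₁ + 8 := by rw [hAr]; linarith
  have hSb : b + 1 ≤ S := by
    have h1 : ((b : ℝ) + 1) * 1 ≤ ((b : ℝ) + 1) * (4 / 3 - ε) :=
      mul_le_mul_of_nonneg_left (by linarith) (by linarith)
    have : ((b + 1 : ℕ) : ℝ) ≤ S := by push_cast; linarith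
    exact_mod_cast this
  have hSr : (S : ℝ) ≤ 4 / 3 * b - ε * b + 3 := by linarith
  have hmr : (m' : ℝ) ≤ 2 / 3 * b + 2 := by linarith
  have hvr : (v : ℝ) ≤ b / 3 - ε * b / 2 := by linarith
  have hvr2 : b / 3 - ε * b / 2 ≤ v + 1 := by linarith
  set κ := S + A + 2 - b with hκ
  have hκ1 : κ + b = S + A + 2 := by omega
  have hκr : (κ : ℝ) + b = S + A + 2 := by exact_mod_cast hκ1
  have hk2 : 2 + 2 * A + κ + 2 * v ≤ b := by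
    have : ((2 + 2 * A + κ + 2 * v : ℕ) : ℝ) ≤ b := by push_cast; linarith
    exact_mod_cast this
  -- the exponent of the number of the pieces
  obtain ⟨μ, hμ1, hμ2, hμ3⟩ : ∃ μ : ℕ, S + 3 ≤ μ + 2 * v ∧ m' + 1 ≤ μ ∧
      (μ : ℝ) + v ≤ b - ε * b / 2 + 8 := by
    refine ⟨max (S + 3 - 2 * v) (m' + 1), ?_, le_max_right _ _, ?_⟩
    · have := le_max_left (S + 3 - 2 * v) (m' + 1)
      omega
    · have h2v : 2 * v ≤ S + 3 := by omega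
      rcases max_choice (S + 3 - 2 * v) (m' + 1) with h | h
      · rw [h, Nat.cast_sub h2v]
        push_cast
        linarith
      · rw [h]
        push_cast
        linarith
  obtain ⟨x, hx1, hx2⟩ : ∃ x : ℕ, 6 + 2 * A + μ + v + x ≤ b ∧ 8 * b + 10 ≤ 2 ^ e₁ * x := by
    have h1 : 6 + 2 * A + μ + v ≤ b := by
      have : ((6 + 2 * A + μ + v : ℕ) : ℝ) ≤ b := by push_cast; linarith
      exact_mod_cast this
    refine ⟨b - (6 + 2 * A + μ + v), by omega, ?_⟩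
    have h2 : ε * b / 16 ≤ ((b - (6 + 2 * A + μ + v) : ℕ) : ℝ) := by
      rw [Nat.cast_sub h1]; push_cast; linarith
    have h3 : (18 * b : ℝ) ≤ (2 : ℝ) ^ e₁ * ((b - (6 + 2 * A + μ + v) : ℕ) : ℝ) := by
      have h4 : 288 ≤ (2 : ℝ) ^ e₁ * ε := by
        rw [div_le_iff₀ h0] at he₁; exact he₁
      calc (18 * b : ℝ) = 288 * (b / 16) := by ring
        _ ≤ ((2 : ℝ) ^ e₁ * ε) * (b / 16) := by
            apply mul_le_mul_of_nonneg_right h4; positivity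
        _ = (2 : ℝ) ^ e₁ * (ε * b / 16) := by ring
        _ ≤ _ := by
            apply mul_le_mul_of_nonneg_left h2; positivity
    have h5 : ((8 * b + 10 : ℕ) : ℝ) ≤ ((2 ^ e₁ * (b - (6 + 2 * A + μ + v)) : ℕ) : ℝ) := by
      push_cast
      push_cast at h3
      linarith
    exact_mod_cast h5
  have hu3 : 2 ≤ u := by
    have : (2 : ℝ) ≤ u := by linarith
    exact_mod_cast this
  have hnr : (n : ℝ) ≤ (2 : ℝ) ^ (((b : ℝ) + 1)) := by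
    have h1 : (n : ℝ) ≤ ((2 ^ (b + 1) : ℕ) : ℝ) := by exact_mod_cast hb2.le
    push_cast at h1
    calc (n : ℝ) ≤ (2 : ℝ) ^ (b + 1) := h1
      _ = (2 : ℝ) ^ (((b : ℝ) + 1)) := by rw [← Nat.cast_add_one, Real.rpow_natCast]
  have hT' : T ≤ 2 ^ 2 ^ u := by
    have h1 : (n : ℝ) ^ (ε / 8) ≤ (2 : ℝ) ^ (u : ℝ) := by
      calc (n : ℝ) ^ (ε / 8) ≤ ((2 : ℝ) ^ (((b : ℝ) + 1))) ^ (ε / 8) :=
            Real.rpow_le_rpow (Nat.cast_nonneg _) hnr (by positivity)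
        _ = (2 : ℝ) ^ (((b : ℝ) + 1) * (ε / 8)) := by
            rw [← Real.rpow_mul (by norm_num)]
        _ ≤ (2 : ℝ) ^ (u : ℝ) := Real.rpow_le_rpow_of_exponent_le (by norm_num) hu1
    rw [Real.rpow_natCast] at h1
    have h2 : (T : ℝ) ≤ (2 : ℝ) ^ (((2 ^ u : ℕ) : ℝ)) := by
      refine hT.trans ?_
      apply Real.rpow_le_rpow_of_exponent_le (by norm_num)
      push_cast
      exact h1
    rw [Real.rpow_natCast] at h2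
    exact_mod_cast h2
  have hd' : d + 1 ≤ 2 ^ ed := by
    have h1 := nat_le_two_pow (by positivity) hb2 hd
    have h2 : 1 ≤ 2 ^ ⌈((b : ℝ) + 1) * (ε / 16)⌉₊ := Nat.one_le_two_pow
    rw [hed, pow_succ]
    omega
  have hs' : ∀ i < T, ∃ Φ : List (Fm (Fin (n + 1) × (Fin n → Bool))), Φ.length ≤ 2 ^ m' ∧
      (Φ.map Fm.size).sum ≤ 2 ^ S ∧
      ∀ y y', (∀ φ ∈ Φ, val φ y = val φ y') → f i y = f i y' := by
    intro i hi
    obtain ⟨Φ, h1, h2, h3⟩ := hs i hi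
    exact ⟨Φ, nat_le_two_pow (by norm_num) hb2 h1, nat_le_two_pow (by linarith) hb2 h2, h3⟩
  obtain ⟨i, hi, hi'⟩ := hfalse
  obtain ⟨y, hy⟩ := core_pow (κ := κ) hb1 hb2 hA hd' hu3 (by omega) hk2 hx1 hx2 hμ1 hμ2 T hT' f
    hs' hinf i hi
  rw [hi' y] at hy
  exact Bool.noConfusion hy

end Pool.Agent.L5helper87.FL
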