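import Pool.Agent.L5helper87.FL.KhB
import Pool.Agent.L5helper87.FL.Loc

/-!
# Systems of pieces: heavy pigeons, conflicts, noisy holes, and the local argument
-/

set_option autoImplicit false

open Finset

namespace Pool.Agent.L5helper87.FL

/-- Greedy choice of edges with disjoint supports. -/
theorem greedy {α β : Type} [DecidableEq β] (E : α → Prop) (supp : α → Finset β)
    (hs : ∀ e, (supp e).card ≤ 2) (q : ℕ) :
    (∃ c : Fin q → α, (∀ l, E (c l)) ∧ ∀ l l', l ≠ l' → Disjoint (supp (c l)) (supp (c l'))) ∨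
    ∃ W : Finset β, W.card ≤ 2 * q ∧ (∀ b ∈ W, ∃ e, E e ∧ b ∈ supp e) ∧
      ∀ e, E e → ¬ Disjoint (supp e) W := by
  induction q with
  | zero => left; exact ⟨fun l => l.elim0, fun l => l.elim0, fun l => l.elim0⟩
  | succ q ih =>
    rcases ih with ⟨c, h1, h2⟩ | ⟨W, h1, h2⟩
    · by_cases hd : ∀ e, E e → ¬ Disjoint (supp e) (univ.biUnion fun l => supp (c l))
      · right
        refine ⟨univ.biUnion fun l => supp (c l), ?_, ?_, hd⟩
        · refine (Finset.card_biUnion_le_card_mul _ _ 2 (fun l _ => hs _)).trans ?_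
          simp only [Finset.card_univ, Fintype.card_fin]
          omega
        · intro b hb
          obtain ⟨l, -, hl⟩ := Finset.mem_biUnion.1 hb
          exact ⟨c l, h1 l, hl⟩
      · push Not at hd
        obtain ⟨e, he, hde⟩ := hd
        left
        refine ⟨Fin.cons e c, ?_, ?_⟩
        · intro l
          refine Fin.cases ?_ (fun l => ?_) l
          · exact he
          · exact h1 l
        · intro l l'
          refine Fin.cases ?_ (fun l => ?_) l <;> refine Fin.cases ?_ (fun l' => ?_) l'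
          · intro h; exact absurd rfl h
          · intro _
            simp only [Fin.cons_zero, Fin.cons_succ]
            exact Finset.disjoint_of_subset_right (Finset.subset_biUnion_of_mem (fun l => supp (c l))
              (Finset.mem_univ l')) hde
          · intro _
            simp only [Fin.cons_zero, Fin.cons_succ]
            exact (Finset.disjoint_of_subset_right (Finset.subset_biUnion_of_mem (fun l => supp (c l))
              (Finset.mem_univ l)) hde).symm
          · intro h
            simp only [Fin.cons_succ]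
            exact h2 l l' (fun h' => h (by rw [h']))
    · right
      exact ⟨W, by omega, h2⟩

section
variable {P H J : Type} [Fintype P] [DecidableEq P] [Fintype H] [DecidableEq H] [Fintype J]
  [DecidableEq J]

/-- the heavy pigeons: in more than `k` pieces -/
def hv (V : J → Finset P) (k : ℕ) : Finset P :=
  univ.filter fun p => k < (univ.filter fun j => p ∈ V j).card

/-- the pigeons are in a common piece -/
def Cm (V : J → Finset P) (i i' : P) : Prop := ∃ g : J, i ∈ V g ∧ i' ∈ V g

/-- the piece after fixing the values `z` on `B` -/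
def FB (F : J → Bool → (P → H) → Bool) (B : Finset P) (z : P → H) (t : J × Bool) (u : P → H) :
    Bool := F t.1 t.2 (mix B z u)

/-- the alive pigeons -/
def Al (e : P ≃ Option H) (K : Finset H) : Finset P :=
  univ.filter fun p => e p ∈ Finset.insertNone K

theorem mem_Al {e : P ≃ Option H} {K : Finset H} {p : P} :
    p ∈ Al e K ↔ e p ∈ Finset.insertNone K := by
  simp [Al]

theorem card_Al (e : P ≃ Option H) (K : Finset H) : (Al e K).card = K.card + 1 := by
  have h1 : Al e K = (Finset.insertNone K).map e.symm.toEmbedding := by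
    ext p
    rw [mem_Al, Finset.mem_map_equiv]
    simp
  rw [h1, Finset.card_map, Finset.card_insertNone]

theorem dead_val {e : P ≃ Option H} {K : Finset H} {p : P} (hp : p ∉ Al e K) (h₀ : H) :
    e p = some (xa h₀ e p) ∧ xa h₀ e p ∉ K := by
  rw [mem_Al] at hp
  rcases hep : e p with _ | h
  · rw [hep] at hp
    exact absurd (Finset.none_mem_insertNone) hp
  · rw [hep] at hp
    have h1 : h ∉ K := fun h2 => hp (Finset.some_mem_insertNone.2 h2)
    have h2 : xa h₀ e p = h := by rw [xa, hep]; rfl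
    rw [h2]
    exact ⟨rfl, h1⟩

/-- the first bad event: many heavy alive pigeons -/
def Bad1 (V : J → Finset P) (k q : ℕ) (e : P ≃ Option H) (K : Finset H) : Prop :=
  ∃ i : Fin q → P, Function.Injective i ∧ ∀ l, i l ∈ hv V k ∧ e (i l) ∈ Finset.insertNone K

/-- the second bad event: many disjoint pairs of alive pigeons in common pieces -/
def Bad2 (V : J → Finset P) (k q : ℕ) (e : P ≃ Option H) (K : Finset H) : Prop :=
  ∃ c : Fin q → P × P, (∀ l, (c l).1 ≠ (c l).2 ∧ ((c l).1 ∉ hv V k ∧ Cm V (c l).1 (c l).2) ∧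
      (e (c l).1 ∈ Finset.insertNone K ∧ e (c l).2 ∈ Finset.insertNone K)) ∧
    ∀ l l', l ≠ l' → Disjoint ({(c l).1, (c l).2} : Finset P) {(c l').1, (c l').2}

/-- the values given by a list of pairs -/
noncomputable def zb {r : ℕ} (h₀ : H) (b : Fin r → P × H) (p : P) : H :=
  open Classical in if h : ∃ l, (b l).1 = p then (b h.choose).2 else h₀

/-- the pigeons in a list of pairs -/
def Bb {r : ℕ} (b : Fin r → P × H) : Finset P := univ.image fun l => (b l).1

/-- a noisy triple: a piece, its only alive pigeon outside `B`, and a minority hole -/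
def Noisy (V : J → Finset P) (F : J → Bool → (P → H) → Bool) (B : Finset P) (z : P → H) (h₀ : H)
    (e : P ≃ Option H) (K : Finset H) (a : (J × Bool) × P × H) : Prop :=
  a.2.1 ∈ V a.1.1 \ B ∧ a.2.2 ∈ K ∧ e a.2.1 ∈ Finset.insertNone K ∧
    (∀ d ∈ V a.1.1 \ B, d ≠ a.2.1 → e d ∉ Finset.insertNone K) ∧
    a.2.2 ∈ Mn (FB F B z a.1) (xa h₀ e) a.2.1

/-- the third bad event: many noisy triples -/
def Bad3 (V : J → Finset P) (F : J → Bool → (P → H) → Bool) (r t : ℕ) (h₀ : H)
    (e : P ≃ Option H) (K : Finset H) : Prop :=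
  ∃ (b : Fin r → P × H) (τ : Fin t → (J × Bool) × P × H),
    (∀ l l', l ≠ l' → (τ l).2.1 ∉ V (τ l').1.1) ∧ (Function.Injective fun l => (τ l).2.2) ∧
    ∀ l, Noisy V F (Bb b) (zb h₀ b) h₀ e K (τ l)

/-- a list of pairs with prescribed pigeons and values -/
theorem exists_b {r : ℕ} (h₀ : H) (B : Finset P) (hB : B.Nonempty) (hr : B.card ≤ r) (β : P → H) :
    ∃ b : Fin r → P × H, Bb b = B ∧ ∀ p ∈ B, zb h₀ b p = β p := by
  classical
  have h1 : Nonempty (B ↪ Fin r) := by
    rw [Function.Embedding.nonempty_iff_card_le]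
    simpa using hr
  obtain ⟨φ⟩ := h1
  haveI : Nonempty B := hB.to_subtype
  have hb : ∀ p ∈ B, ∃ l, ((Function.invFun φ l : B) : P) = p := fun p hp =>
    ⟨φ ⟨p, hp⟩, by rw [Function.leftInverse_invFun φ.injective]⟩
  refine ⟨fun l => ((Function.invFun φ l : B), β (Function.invFun φ l : B)), ?_, ?_⟩
  · ext p
    simp only [Bb, Finset.mem_image, Finset.mem_univ, true_and]
    constructor
    · rintro ⟨l, rfl⟩
      exact (Function.invFun φ l).2
    · exact hb p
  · intro p hp
    have h2 : ∃ l, ((fun l => (((Function.invFun φ l : B) : P), β (Function.invFun φ l : B)))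
        l : P × H).1 = p := hb p hp
    unfold zb
    rw [dif_pos h2]
    have h3 := h2.choose_spec
    simp only at h3 ⊢
    rw [h3]

theorem Mn_const {F : (P → H) → Bool} {w : P → H} {i : P} {y y' : H}
    (h1 : y ∉ Mn F w i) (h2 : y' ∉ Mn F w i) :
    F (Function.update w i y) = F (Function.update w i y') := by
  simp only [Mn, Finset.mem_filter, Finset.mem_univ, true_and, not_not] at h1 h2
  rw [h1, h2]

/-- **The local argument.** -/
theorem loc_of_good {V : J → Finset P} {F : J → Bool → (P → H) → Bool} {k q r t a w : ℕ} (h₀ : H)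
    {e : P ≃ Option H} {K : Finset H} (hK : K.card = a)
    (hF : ∀ j σ w w', (∀ p ∈ V j, w p = w' p) → F j σ w = F j σ w')
    (hr : 3 * q + 1 ≤ r) (hw : r + 2 * t ≤ w)
    {f : (P → H) → Bool} (hf : ∀ w w', (∀ j σ, F j σ w = F j σ w') → f w = f w')
    (hb1 : ¬ Bad1 V k q e K) (hb2 : ¬ Bad2 V k q e K) (hb3 : ¬ Bad3 V F r t h₀ e K) :
    Loc (Al e K) K (xa h₀ e) w f := by
  classical
  intro μ₀ hμ₀ hc₀
  set A := Al e K with hA
  have hAc : A.card = a + 1 := by rw [hA, card_Al, hK]
  rw [hK] at hc₀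
  -- heavy alive pigeons
  have h1 : (A ∩ hv V k).card ≤ q := by
    by_contra hcon
    push Not at hcon
    apply hb1
    have h2 : Nonempty (Fin q ↪ (A ∩ hv V k : Finset P)) := by
      rw [Function.Embedding.nonempty_iff_card_le]
      simp only [Fintype.card_fin, Fintype.card_coe]
      omega
    obtain ⟨φ⟩ := h2
    refine ⟨fun l => (φ l).1, fun l l' h => φ.injective (Subtype.ext h), fun l => ?_⟩
    obtain ⟨h3, h4⟩ := Finset.mem_inter.1 (φ l).2
    exact ⟨h4, mem_Al.1 h3⟩
  -- the common pieces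
  obtain ⟨W, hW1, hW2, hW3⟩ : ∃ W : Finset P, W.card ≤ 2 * q ∧ W ⊆ A ∧
      ∀ i ∈ A, i ∉ W → ∀ i' ∈ A, i' ∉ W → i ∉ hv V k → i ≠ i' → ¬ Cm V i i' := by
    rcases greedy (fun c : P × P => c.1 ≠ c.2 ∧ (c.1 ∉ hv V k ∧ Cm V c.1 c.2) ∧
        (e c.1 ∈ Finset.insertNone K ∧ e c.2 ∈ Finset.insertNone K))
        (fun c => ({c.1, c.2} : Finset P)) (fun c => Finset.card_le_two) q with
      ⟨c, h2, h3⟩ | ⟨W, h2, h3, h4⟩
    · exact absurd ⟨c, h2, h3⟩ hb2
    · refine ⟨W, h2, ?_, ?_⟩
      · intro p hp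
        obtain ⟨c, ⟨-, -, hc1, hc2⟩, hpc⟩ := h3 p hp
        rcases Finset.mem_insert.1 hpc with rfl | hpc
        · exact mem_Al.2 hc1
        · rw [Finset.mem_singleton.1 hpc]; exact mem_Al.2 hc2
      · intro i hi hiW i' hi' hiW' hil hne hconf
        apply h4 (i, i') ⟨hne, ⟨hil, hconf⟩, mem_Al.1 hi, mem_Al.1 hi'⟩
        rw [Finset.disjoint_left]
        intro p hp
        rcases Finset.mem_insert.1 hp with rfl | hp
        · exact hiW
        · rw [Finset.mem_singleton.1 hp]; exact hiW'
  -- the set `B`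
  obtain ⟨p₀, hp₀⟩ : A.Nonempty := by
    rw [← Finset.card_pos]; omega
  set B := insert p₀ ((A ∩ hv V k) ∪ W) with hB
  have hBA : B ⊆ A := by
    intro p hp
    rcases Finset.mem_insert.1 hp with rfl | hp
    · exact hp₀
    · rcases Finset.mem_union.1 hp with hp | hp
      · exact (Finset.mem_inter.1 hp).1
      · exact hW2 hp
  have hBr : B.card ≤ r := by
    refine (Finset.card_insert_le _ _).trans ?_
    have := Finset.card_union_le (A ∩ hv V k) W
    omega
  have hlight : ∀ p ∈ A, p ∉ B → p ∉ hv V k := fun p hp hpB hph =>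
    hpB (Finset.mem_insert_of_mem (Finset.mem_union_left _ (Finset.mem_inter.2 ⟨hp, hph⟩)))
  have hnoW : ∀ p, p ∉ B → p ∉ W := fun p hpB hpW =>
    hpB (Finset.mem_insert_of_mem (Finset.mem_union_right _ hpW))
  have hBne : B.Nonempty := ⟨p₀, Finset.mem_insert_self _ _⟩
  obtain ⟨μ₁, c1, c2, c3, c4⟩ := hμ₀.extend_pigeons B hBA (by omega)
  -- the values on `B`
  obtain ⟨b, hb, hz⟩ := exists_b h₀ B hBne hBr
    (fun p => if hp : ∃ h, (p, h) ∈ μ₁ then hp.choose else h₀)
  have hzμ : ∀ p ∈ B, (p, zb h₀ b p) ∈ μ₁ := by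
    intro p hp
    rw [hz p hp, dif_pos (c4 p hp)]
    exact (c4 p hp).choose_spec
  -- a piece has at most one alive pigeon outside `B`
  have hone : ∀ j, ∀ p ∈ V j, ∀ p' ∈ V j, p ∈ A → p' ∈ A → p ∉ B → p' ∉ B → p = p' := by
    intro j p hp p' hp' hpA hpA' hpB hpB'
    by_contra hne
    exact hW3 p hpA (hnoW p hpB) p' hpA' (hnoW p' hpB') (hlight p hpA hpB) hne ⟨j, hp, hp'⟩
  -- the cover of the noisy pairs
  obtain ⟨CP, CH, d1, d2, d3, d4⟩ : ∃ (CP : Finset P) (CH : Finset H), CP.card + CH.card ≤ 2 * t ∧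
      CP ⊆ A ∧ CH ⊆ K ∧ ∀ i ∈ A, i ∉ B → ∀ h ∈ K, ∀ s : J × Bool, i ∈ V s.1 →
        h ∈ Mn (FB F B (zb h₀ b) s) (xa h₀ e) i → i ∈ CP ∨ h ∈ CH := by
    rcases greedy (fun c : P × H => (c.1 ∈ A ∧ c.1 ∉ B) ∧ c.2 ∈ K ∧
        ∃ s : J × Bool, c.1 ∈ V s.1 ∧ c.2 ∈ Mn (FB F B (zb h₀ b) s) (xa h₀ e) c.1)
        (fun c => ({Sum.inl c.1, Sum.inr c.2} : Finset (P ⊕ H))) (fun c => Finset.card_le_two) t with
      ⟨c, h2, h3⟩ | ⟨W', h2, h3, h4⟩
    · exfalso
      apply hb3
      choose h5 h6 s h7 h8 using h2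
      have hinj : ∀ l l', l ≠ l' → (c l).1 ≠ (c l').1 := by
        intro l l' hne h
        have := h3 l l' hne
        rw [Finset.disjoint_left] at this
        exact this (a := Sum.inl (c l).1) (by simp) (by simp [h])
      refine ⟨b, fun l => (s l, c l), ?_, ?_, ?_⟩
      · intro l l' hne hmem
        simp only at hmem
        exact hinj l l' hne (hone (s l').1 _ hmem _ (h7 l') (h5 l).1 (h5 l').1 (h5 l).2 (h5 l').2)
      · intro l l' h
        by_contra hne
        have := h3 l l' hne
        rw [Finset.disjoint_left] at this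
        simp only at h
        exact this (a := Sum.inr (c l).2) (by simp) (by simp [h])
      · intro l
        rw [hb]
        refine ⟨Finset.mem_sdiff.2 ⟨h7 l, (h5 l).2⟩, h6 l, mem_Al.1 (h5 l).1, ?_, h8 l⟩
        intro d hd hdi hdK
        obtain ⟨hd1, hd2⟩ := Finset.mem_sdiff.1 hd
        exact hdi (hone (s l).1 d hd1 _ (h7 l) (mem_Al.2 hdK) (h5 l).1 hd2 (h5 l).2)
    · refine ⟨W'.toLeft, W'.toRight, ?_, ?_, ?_, ?_⟩
      · rw [Finset.card_toLeft_add_card_toRight]; exact h2
      · intro p hp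
        rw [Finset.mem_toLeft] at hp
        obtain ⟨c, hc, hc'⟩ := h3 _ hp
        simp only [Finset.mem_insert, Finset.mem_singleton, Sum.inl.injEq, reduceCtorEq,
          or_false] at hc'
        rw [hc']
        exact hc.1.1
      · intro h hh
        rw [Finset.mem_toRight] at hh
        obtain ⟨c, hc, hc'⟩ := h3 _ hh
        simp only [Finset.mem_insert, Finset.mem_singleton, Sum.inr.injEq, reduceCtorEq,
          false_or] at hc'
        rw [hc']
        exact hc.2.1
      · intro i hi hiB h hh s hs hN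
        have h5 := h4 (i, h) ⟨⟨hi, hiB⟩, hh, s, hs, hN⟩
        rw [Finset.not_disjoint_iff] at h5
        obtain ⟨v, hv1, hv2⟩ := h5
        rcases Finset.mem_insert.1 hv1 with rfl | hv1
        · left; exact Finset.mem_toLeft.2 hv2
        · rw [Finset.mem_singleton] at hv1
          subst hv1
          right; exact Finset.mem_toRight.2 hv2
  -- the large matching
  obtain ⟨μ₂, e1, e2, e3, e4⟩ := c1.extend_pigeons CP d2 (by omega)
  obtain ⟨μ₃, g1, g2, g3, g4⟩ := e1.extend_holes CH d3 (by omega)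
  have h12 : μ₁ ⊆ μ₃ := e2.trans g2
  set μ' := μ₃.filter fun s => (s.1 ∈ B ∨ s.1 ∈ CP) ∨ s.2 ∈ CH with hμ'
  refine ⟨μ', ?_, ?_, ?_⟩
  · apply g1.mono
    exact Finset.union_subset (c2.trans h12) (Finset.filter_subset _ _)
  · have h5 : (μ₃.filter fun s => s.1 ∈ B).card ≤ B.card := by
      apply Finset.card_le_card_of_injOn Prod.fst
      · intro s hs; exact (Finset.mem_filter.1 hs).2
      · intro s hs s' hs' h
        exact g1.2.1 s (Finset.mem_filter.1 hs).1 s' (Finset.mem_filter.1 hs').1 h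
    have h6 : (μ₃.filter fun s => s.1 ∈ CP).card ≤ CP.card := by
      apply Finset.card_le_card_of_injOn Prod.fst
      · intro s hs; exact (Finset.mem_filter.1 hs).2
      · intro s hs s' hs' h
        exact g1.2.1 s (Finset.mem_filter.1 hs).1 s' (Finset.mem_filter.1 hs').1 h
    have h7 : (μ₃.filter fun s => s.2 ∈ CH).card ≤ CH.card := by
      apply Finset.card_le_card_of_injOn Prod.snd
      · intro s hs; exact (Finset.mem_filter.1 hs).2
      · intro s hs s' hs' h
        exact g1.2.2 s (Finset.mem_filter.1 hs).1 s' (Finset.mem_filter.1 hs').1 h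
    rw [hμ', Finset.filter_or, Finset.filter_or]
    have h8 := Finset.card_union_le ((μ₃.filter fun s => s.1 ∈ B) ∪ μ₃.filter fun s => s.1 ∈ CP)
      (μ₃.filter fun s => s.2 ∈ CH)
    have h9 := Finset.card_union_le (μ₃.filter fun s => s.1 ∈ B) (μ₃.filter fun s => s.1 ∈ CP)
    omega
  · -- constancy
    have hBv : ∀ y, Y A K (xa h₀ e) μ' y → ∀ p ∈ B, y p = zb h₀ b p := by
      intro y hy p hp
      exact hy.2.2.1 (p, zb h₀ b p) (Finset.mem_filter.2 ⟨h12 (hzμ p hp), Or.inl (Or.inl hp)⟩)
    have hmain : ∀ y y', Y A K (xa h₀ e) μ' y → Y A K (xa h₀ e) μ' y' → ∀ j σ,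
        F j σ y = F j σ y' := by
      intro y y' hy hy' j σ
      by_cases hex : ∃ i ∈ V j, i ∈ A ∧ i ∉ B
      · obtain ⟨i, hij, hiA, hiB⟩ := hex
        -- both are the values of the updated `mix`
        have hup : ∀ v, Y A K (xa h₀ e) μ' v → F j σ v =
            F j σ (mix B (zb h₀ b) (Function.update (xa h₀ e) i (v i))) := by
          intro v hv
          apply hF
          intro p hp
          unfold mix
          split_ifs with hpB
          · exact hBv v hv p hpB
          · by_cases hpi : p = i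
            · subst hpi; simp
            · rw [Function.update_of_ne hpi]
              apply hv.1
              intro hpA
              exact hpi (hone j p hp i hij hpA hiA hpB hiB)
        rw [hup y hy, hup y' hy']
        by_cases hdom : ∃ h, (i, h) ∈ μ'
        · obtain ⟨h, hh⟩ := hdom
          have e1 := hy.2.2.1 _ hh
          have e2 := hy'.2.2.1 _ hh
          simp only at e1 e2
          rw [e1, e2]
        · have hnn : ∀ v, Y A K (xa h₀ e) μ' v →
              v i ∉ Mn (FB F B (zb h₀ b) (j, σ)) (xa h₀ e) i := by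
            intro v hv hmem
            rcases d4 i hiA hiB (v i) (hv.2.1 i hiA) (j, σ) hij hmem with h6 | h6
            · obtain ⟨h, hh⟩ := e4 i h6
              exact hdom ⟨h, Finset.mem_filter.2 ⟨g2 hh, Or.inl (Or.inr h6)⟩⟩
            · obtain ⟨p, hp⟩ := g4 (v i) h6
              have h7 : (p, v i) ∈ μ' := Finset.mem_filter.2 ⟨hp, Or.inr h6⟩
              have h8 := hv.2.2.2 i hiA _ h7 rfl
              simp only at h8
              rw [← h8] at h7
              exact hdom ⟨_, h7⟩
          exact Mn_const (F := FB F B (zb h₀ b) (j, σ)) (hnn y hy) (hnn y' hy')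
      · push Not at hex
        apply hF
        intro p hp
        by_cases hpA : p ∈ A
        · have hpB := hex p hp hpA
          rw [hBv y hy p hpB, hBv y' hy' p hpB]
        · rw [hy.1 p hpA, hy'.1 p hpA]
    by_cases hne : ∃ y, Y A K (xa h₀ e) μ' y
    · obtain ⟨y, hy⟩ := hne
      exact ⟨f y, fun y' hy' => hf _ _ fun j σ => hmain y' y hy' hy j σ⟩
    · push Not at hne
      exact ⟨true, fun y hy => absurd hy (hne y)⟩

end

end Pool.Agent.L5helper87.FL
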